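import Pool.Agent.helper43.Asy.Bas

/-! ASY-ApA: simple consequences of `Ap`. -/

open Finset Pool.Agent.helper43.Rho

set_option linter.unusedSectionVars false

namespace Pool.Agent.helper43.Asy

variable {G : Type*} [AddCommGroup G] [DecidableEq G] [Fintype G]

/-- If `x` stabilises `XX F` it stabilises `XX F + SS (B \ F) = XX B` (`mem_XX_union`). -/
theorem Ap.subset {H : AddSubgroup G} {B F : Finset G} (hB : Ap H B) (hF : F ⊆ B) : Ap H F := by
  refine ⟨hB.asym.subset hF, fun b hb => hB.out b (hF hb), fun x hx => hB.st x fun s hs => ?_⟩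
  have hd : Disjoint F (B \ F) := Finset.disjoint_sdiff
  have hu : F ∪ (B \ F) = B := Finset.union_sdiff_of_subset hF
  rw [← hu, mem_XX_union hd] at hs ⊢
  obtain ⟨y, hy, t, ht, rfl⟩ := hs
  exact ⟨y + x, hx y hy, t, ht, by abel⟩

/-- `{s ∈ XX E : s + r ∉ XX E}` is `H`-periodic; if it is empty then `r` stabilises `XX E`, so
`r ∈ H` by `(hB.subset hE).st`, impossible. A nonempty periodic set has at least `|H|` elements
(`Per.card_ge`). -/
theorem Ap.lam_ge {H : AddSubgroup G} {B E : Finset G} (hB : Ap H B) (hE : E ⊆ B) {r : G}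
    (hr : r ∈ B) : (sf H).card ≤ lam (XX H E) r := by
  have hper := per_XX H E
  have h1 : Per H ((XX H E).filter (fun s => s + r ∉ XX H E)) := by
    intro s hs k hk
    rw [Finset.mem_filter] at hs ⊢
    refine ⟨hper s hs.1 k hk, ?_⟩
    have h2 : s + k + r = (s + r) + k := by abel
    rw [h2, hper.add_iff hk]
    exact hs.2
  refine h1.card_ge ?_
  rw [Finset.filter_nonempty_iff]
  by_contra hcon
  push Not at hcon
  exact hB.out r hr ((hB.subset hE).st r hcon)

/-- Induction on `B` with `card_XX_insert` and `Ap.lam_ge`. -/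
theorem Ap.card_ge {H : AddSubgroup G} {B : Finset G} (hB : Ap H B) :
    (sf H).card * (B.card + 1) ≤ (XX H B).card := by
  induction B using Finset.induction_on with
  | empty => rw [XX_empty, Finset.card_empty, zero_add, mul_one]
  | insert r B hr ih =>
    have h1 := ih (hB.subset (Finset.subset_insert r B))
    have h2 := hB.lam_ge (Finset.subset_insert r B) (Finset.mem_insert_self r B)
    rw [card_XX_insert hr, Finset.card_insert_of_notMem hr]
    have h3 : (sf H).card * (B.card + 1 + 1) = (sf H).card * (B.card + 1) + (sf H).card := by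
      ring
    omega

/-- If `r + r ∈ H` then `XX {r} = H ∪ (H + r)` is stabilised by `r`, so `Ap H {r}` gives `r ∈ H`. -/
theorem Ap.two {H : AddSubgroup G} {B : Finset G} (hB : Ap H B) {r : G} (hr : r ∈ B) :
    r + r ∉ H := by
  intro h2
  have h1 : Ap H {r} := hB.subset (Finset.singleton_subset_iff.2 hr)
  have hX : XX H ({r} : Finset G) = sf H ∪ (sf H).image (fun s => s + r) := by
    have h3 := XX_insert (H := H) (E := (∅ : Finset G)) (r := r) (Finset.notMem_empty r)
    rw [XX_empty, Finset.insert_empty] at h3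
    exact h3
  refine hB.out r hr (h1.st r fun s hs => ?_)
  rw [hX, Finset.mem_union, Finset.mem_image] at hs ⊢
  rcases hs with hs | ⟨t, ht, rfl⟩
  · exact Or.inr ⟨s, hs, rfl⟩
  · left
    rw [mem_sf] at ht ⊢
    rw [add_assoc]
    exact H.add_mem ht h2

theorem Ap.LL_not_le {H : AddSubgroup G} {B R : Finset G} (hB : Ap H B) (hR : R ⊆ B)
    (hne : R.Nonempty) : ¬ LL H R ≤ H := by
  intro h
  obtain ⟨r, hr⟩ := hne
  exact hB.out r (hR hr) (h (mem_LL hr))

/-- If every coset `y + L`, `y ∈ XX H B`, is contained in `XX H B`, then every element of `L`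
stabilises `XX H B` and `L ≤ H` by `hB.st`. -/
theorem Ap.exists_hole {H : AddSubgroup G} {B : Finset G} (hB : Ap H B) {L : AddSubgroup G}
    (hL : ¬ L ≤ H) : ∃ y ∈ XX H B, ∃ k ∈ L, y + k ∉ XX H B := by
  by_contra hcon
  push Not at hcon
  exact hL fun k hk => hB.st k fun s hs => hcon s hs k hk

/-- choice -/
theorem Ap.exists_Hole {H : AddSubgroup G} {B : Finset G} (hB : Ap H B) :
    ∃ y : AddSubgroup G → G, Hole H B y := by
  classical
  have h1 : ∀ L : AddSubgroup G, ∃ y : G, ¬ L ≤ H →
      y ∈ XX H B ∧ ∃ k ∈ L, y + k ∉ XX H B := by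
    intro L
    by_cases hL : L ≤ H
    · exact ⟨0, fun h => absurd hL h⟩
    · obtain ⟨y, hy, h⟩ := hB.exists_hole hL
      exact ⟨y, fun _ => ⟨hy, h⟩⟩
  choose y hy using h1
  exact ⟨y, hy⟩

/-- `Y = XX B = XX (B \ R) + SS R`, and `SS R ⊆ L`. -/
theorem co_nonempty_of_mem {H : AddSubgroup G} {B R : Finset G} (hR : R ⊆ B) {y : G}
    (hy : y ∈ XX H B) : (co (XX H (B \ R)) (LL H R) y).Nonempty := by
  have hd : Disjoint (B \ R) R := Finset.sdiff_disjoint
  have hu : (B \ R) ∪ R = B := Finset.sdiff_union_of_subset hR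
  rw [← hu, mem_XX_union hd] at hy
  obtain ⟨x, hx, s, hs, rfl⟩ := hy
  refine ⟨x, ?_⟩
  rw [mem_co]
  refine ⟨hx, ?_⟩
  have h1 : x - (x + s) = -s := by abel
  rw [h1]
  exact (LL H R).neg_mem (SS_subset_subgroup (fun a ha => mem_LL ha) s hs)

/-- Let `w = y + k` be outside `Y = XX B`. The sets `w - XX R` (contained in `y + L`) and
`co X L y` (`X = XX (B \ R)`) are disjoint, because an element of both gives
`w ∈ X + XX R = Y` (`mem_XX_union'`); both are contained in `y + L`, which has `|L|` elements. -/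
theorem hole {H : AddSubgroup G} {B R : Finset G} (hR : R ⊆ B) {y : G}
    (hny : ∃ k ∈ LL H R, y + k ∉ XX H B) :
    (XX H R).card + (co (XX H (B \ R)) (LL H R) y).card ≤ (sf (LL H R)).card := by
  obtain ⟨k, hk, hw⟩ := hny
  have hd : Disjoint (B \ R) R := Finset.sdiff_disjoint
  have hu : (B \ R) ∪ R = B := Finset.sdiff_union_of_subset hR
  have hXR : ∀ t ∈ XX H R, t ∈ LL H R := XX_mem_subgroup (le_LL H R) fun e he => mem_LL he
  have h1 : ((XX H R).image (fun t => y + k - t)).card = (XX H R).card := by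
    refine Finset.card_image_of_injective _ fun a b hab => ?_
    exact sub_right_injective hab
  have h2 : Disjoint ((XX H R).image (fun t => y + k - t)) (co (XX H (B \ R)) (LL H R) y) := by
    rw [Finset.disjoint_left]
    intro z hz hz'
    rw [Finset.mem_image] at hz
    obtain ⟨t, ht, rfl⟩ := hz
    rw [mem_co] at hz'
    refine hw ?_
    rw [← hu, mem_XX_union' hd]
    exact ⟨y + k - t, hz'.1, t, ht, by abel⟩
  rw [← h1, ← Finset.card_union_of_disjoint h2]
  refine Finset.card_le_card_of_injOn (fun z => z - y) (fun z hz => ?_) fun a _ b _ hab => ?_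
  · rw [Finset.mem_coe, Finset.mem_union, Finset.mem_image] at hz
    rw [Finset.mem_coe, mem_sf]
    rcases hz with ⟨t, ht, rfl⟩ | hz
    · have h3 : y + k - t - y = k - t := by abel
      change y + k - t - y ∈ LL H R
      rw [h3]
      exact (LL H R).sub_mem hk (hXR t ht)
    · exact (mem_co.1 hz).2
  · exact sub_left_injective hab

end Pool.Agent.helper43.Asy
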