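import Pool.Agent.helper43.Asy.ApA
import Pool.Agent.helper43.Rho.Struct
import Pool.Agent.helper43.Rho.Lower

/-! ASY-Asm: reduction to `Ap` (7b of the paper proof). -/

open Finset Pool.Agent.helper43.Rho

set_option linter.unusedSectionVars false

namespace Pool.Agent.helper43.Asy

variable {G : Type*} [AddCommGroup G] [DecidableEq G] [Fintype G]

/-- `H = stab (SS A)`, `B = outs A H`. `SS A` is `H`-periodic (`mem_stab_iff`), and `XX H B ⊆ SS A`
because `SS B ⊆ SS A`; conversely a subset sum of `A` is the sum over `ins A H`, which is in `H`,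
plus a subset sum of `B`. If `x` stabilises `XX H B = SS A` then `x ∈ stab (SS A)`
(`mem_stab_of`). `2 |ins A H| + 1 ≤ Nat.card H` (`two_card_ins`, `card_sf`), and
`|ins A H| + |outs A H| = |A|`. -/
theorem asm {A : Finset G} (hA : Asym A) :
    ∃ H : AddSubgroup G, ∃ B : Finset G, B ⊆ A ∧ Ap H B ∧ XX H B = SS A ∧
      A.card ≤ B.card + ((sf H).card - 1) / 2 := by
  classical
  have hXX : XX (stab (SS A)) (outs A (stab (SS A))) = SS A := by
    ext z
    rw [mem_XX]
    constructor
    · rintro ⟨k, hk, s, hs, rfl⟩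
      have hs' : s ∈ SS A := SS_mono (fun a ha => (mem_outs.1 ha).1) hs
      rw [add_comm]
      exact (mem_stab_iff.1 hk s).2 hs'
    · intro hz
      rw [mem_SS] at hz
      obtain ⟨T, hT, rfl⟩ := hz
      refine ⟨∑ b ∈ T.filter (fun b => b ∈ stab (SS A)), b, ?_,
        ∑ b ∈ T.filter (fun b => ¬ b ∈ stab (SS A)), b, ?_,
        Finset.sum_filter_add_sum_filter_not T (fun b => b ∈ stab (SS A)) (fun b => b)⟩
      · exact AddSubgroup.sum_mem _ (fun b hb => (Finset.mem_filter.1 hb).2)
      · rw [mem_SS]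
        refine ⟨T.filter (fun b => ¬ b ∈ stab (SS A)), ?_, rfl⟩
        intro b hb
        have hb' := Finset.mem_filter.1 hb
        exact mem_outs.2 ⟨hT hb'.1, hb'.2⟩
  refine ⟨stab (SS A), outs A (stab (SS A)), fun a ha => (mem_outs.1 ha).1, ?_, hXX, ?_⟩
  · refine ⟨hA.subset (fun a ha => (mem_outs.1 ha).1), fun b hb => (mem_outs.1 hb).2, ?_⟩
    intro x hx
    rw [hXX] at hx
    exact mem_stab_of hx
  · have h1 := two_card_ins hA (stab (SS A))
    have h2 := card_ins_add_outs A (stab (SS A))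
    have h3 := card_sf (stab (SS A))
    omega

/-- `SS A ⊆ insert 0 (SigmaStar A)`. -/
theorem card_SS_le_SigmaStar (A : Finset G) : (SS A).card ≤ (SigmaStar A).card + 1 := by
  refine le_trans (Finset.card_le_card (t := insert 0 (SigmaStar A)) ?_)
    (Finset.card_insert_le _ _)
  intro x hx
  rw [mem_SS] at hx
  obtain ⟨T, hT, rfl⟩ := hx
  rw [Finset.mem_insert]
  rcases T.eq_empty_or_nonempty with h | h
  · left
    rw [h, Finset.sum_empty]
  · right
    exact mem_SigmaStar.2 ⟨T, hT, h, rfl⟩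

end Pool.Agent.helper43.Asy
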