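import Pool.Agent.helper43.Asy.Defs

/-! ASY-Avg: averages of `lam` and the minority part (3c, 3d of the paper proof).
Proofs by helper11. -/

open Finset Pool.Agent.helper43.Rho

set_option linter.unusedSectionVars false

namespace Pool.Agent.helper43.Asy

variable {G : Type*} [AddCommGroup G] [DecidableEq G] [Fintype G]

/-- summation of `itc_add_lam` -/
private theorem avg_sum_add (V T : Finset G) :
    ∑ t ∈ T, itc V t + ∑ t ∈ T, lam V t = T.card * V.card := by
  rw [← Finset.sum_add_distrib, Finset.sum_congr rfl (fun t _ => itc_add_lam V t)]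
  simp

/-- `itc_add_lam` and `sum_itc_le` -/
theorem sum_lam_ge (V T : Finset G) :
    T.card * V.card ≤ ∑ t ∈ T, lam V t + V.card * V.card := by
  have h1 := avg_sum_add V T
  have h2 := sum_itc_le V T
  omega

/-- `itc_add_lam` and `sum_itc_coset` -/
theorem sum_lam_coset {U T : Finset G} {L : AddSubgroup G} (hT : ∀ t ∈ T, t ∈ L) {P : ℕ}
    (hU : ∀ s ∈ U, (co U L s).card ≤ P) :
    T.card * U.card ≤ ∑ t ∈ T, lam U t + P * U.card := by
  have h1 := avg_sum_add U T
  have h2 := sum_itc_coset (U := U) hT
  have h3 : ∑ g ∈ U, (co U L g).card ≤ P * U.card := by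
    refine (Finset.sum_le_card_nsmul U _ P hU).trans (le_of_eq ?_)
    rw [smul_eq_mul, mul_comm]
  omega

/-- The elements of `co U L s` leaving `co U L s` under `+ t`, `t ∈ L`, leave `U`. -/
theorem lam_co_le {U : Finset G} {L : AddSubgroup G} {t : G} (ht : t ∈ L) (s : G) :
    lam (co U L s) t ≤ lam U t := by
  unfold lam
  apply Finset.card_le_card
  intro z hz
  rw [Finset.mem_filter, mem_co] at hz
  rw [Finset.mem_filter]
  refine ⟨hz.1.1, fun h => hz.2 ?_⟩
  rw [mem_co]
  refine ⟨h, ?_⟩
  have h1 := L.add_mem hz.1.2 ht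
  have e : z - s + t = z + t - s := by abel
  rwa [e] at h1

/-- `Rho.lam_mino` -/
theorem lam_UU {X : Finset G} {L : AddSubgroup G} {t : G} (ht : t ∈ L) :
    lam (UU X L) t = lam X t := (lam_mino ht).symm

/-- `Rho.card_co_mino` with `Hf = sf L`, `mem_sf` -/
theorem card_co_UU {X : Finset G} {L : AddSubgroup G} (g : G) :
    (co (UU X L) L g).card =
      if 2 * (co X L g).card ≤ (sf L).card then (co X L g).card
      else (sf L).card - (co X L g).card :=
  card_co_mino (fun x => mem_sf x) g

theorem UU_half {X : Finset G} {L : AddSubgroup G} (g : G) :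
    2 * (co (UU X L) L g).card ≤ (sf L).card := by
  rw [card_co_UU]
  split_ifs with h
  · exact h
  · omega

/-- If the part of `X` in every coset is at most half, `UU X L = X` (`Rho.mem_mino`; a coset with
more than half contains an element of `X`). -/
theorem UU_eq {X : Finset G} {L : AddSubgroup G}
    (h : ∀ s ∈ X, 2 * (co X L s).card ≤ (sf L).card) : UU X L = X := by
  ext z
  unfold UU
  rw [mem_mino]
  constructor
  · rintro (h1 | h1)
    · exact h1.2
    · exfalso
      have hne : (co X L z).Nonempty := by
        rw [← Finset.card_pos]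
        omega
      obtain ⟨s, hs⟩ := hne
      rw [mem_co] at hs
      have h2 := h s hs.1
      rw [co_congr hs.2] at h2
      omega
  · intro hz
    exact Or.inl ⟨h z hz, hz⟩

end Pool.Agent.helper43.Asy
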