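import Pool.Agent.helper43.Asy.Defs

/-! ASY-Bas: basic facts on `XX`, `Per`, `LL`, `CR`. -/

open Finset Pool.Agent.helper43.Rho

set_option linter.unusedSectionVars false

namespace Pool.Agent.helper43.Asy

variable {G : Type*} [AddCommGroup G] [DecidableEq G] [Fintype G]

theorem mem_XX {H : AddSubgroup G} {E : Finset G} {z : G} :
    z ∈ XX H E ↔ ∃ k ∈ H, ∃ s ∈ SS E, k + s = z := by
  unfold XX
  rw [mem_sumS]
  constructor
  · rintro ⟨k, hk, s, hs, h⟩
    exact ⟨k, (mem_sf k).1 hk, s, hs, h⟩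
  · rintro ⟨k, hk, s, hs, h⟩
    exact ⟨k, (mem_sf k).2 hk, s, hs, h⟩

theorem sf_card_pos (H : AddSubgroup G) : 0 < (sf H).card := by
  exact Finset.card_pos.2 ⟨0, (mem_sf 0).2 H.zero_mem⟩

theorem sf_mono {H K : AddSubgroup G} (h : H ≤ K) : sf H ⊆ sf K := by
  intro x hx
  exact (mem_sf x).2 (h ((mem_sf x).1 hx))

theorem per_XX (H : AddSubgroup G) (E : Finset G) : Per H (XX H E) := by
  intro x hx k hk
  obtain ⟨l, hl, s, hs, rfl⟩ := mem_XX.1 hx
  exact mem_XX.2 ⟨l + k, H.add_mem hl hk, s, hs, by abel⟩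

theorem mem_XX_of_SS {H : AddSubgroup G} {E : Finset G} {z : G} (hz : z ∈ SS E) :
    z ∈ XX H E := by
  exact mem_XX.2 ⟨0, H.zero_mem, z, hz, zero_add z⟩

theorem mem_XX_of_mem {H : AddSubgroup G} {E : Finset G} {z : G} (hz : z ∈ H) :
    z ∈ XX H E := by
  exact mem_XX.2 ⟨z, hz, 0, zero_mem_SS E, add_zero z⟩

theorem zero_mem_XX {H : AddSubgroup G} {E : Finset G} : (0 : G) ∈ XX H E := by
  exact mem_XX_of_mem H.zero_mem

theorem XX_nonempty {H : AddSubgroup G} {E : Finset G} : (XX H E).Nonempty := by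
  exact ⟨0, zero_mem_XX⟩

theorem XX_empty {H : AddSubgroup G} : XX H (∅ : Finset G) = sf H := by
  ext z
  rw [mem_XX, SS_empty, mem_sf]
  constructor
  · rintro ⟨k, hk, s, hs, rfl⟩
    rw [Finset.mem_singleton] at hs
    rw [hs, add_zero]
    exact hk
  · intro hz
    exact ⟨z, hz, 0, Finset.mem_singleton_self 0, add_zero z⟩

theorem XX_insert {H : AddSubgroup G} {E : Finset G} {r : G} (hr : r ∉ E) :
    XX H (insert r E) = XX H E ∪ (XX H E).image (fun s => s + r) := by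
  ext z
  rw [Finset.mem_union, Finset.mem_image, mem_XX, SS_insert hr]
  constructor
  · rintro ⟨k, hk, s, hs, rfl⟩
    rw [Finset.mem_union, Finset.mem_image] at hs
    rcases hs with hs | ⟨t, ht, rfl⟩
    · exact Or.inl (mem_XX.2 ⟨k, hk, s, hs, rfl⟩)
    · exact Or.inr ⟨k + t, mem_XX.2 ⟨k, hk, t, ht, rfl⟩, by abel⟩
  · rintro (hz | ⟨y, hy, rfl⟩)
    · obtain ⟨k, hk, s, hs, rfl⟩ := mem_XX.1 hz
      exact ⟨k, hk, s, Finset.mem_union_left _ hs, rfl⟩
    · obtain ⟨k, hk, s, hs, rfl⟩ := mem_XX.1 hy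
      exact ⟨k, hk, s + r, Finset.mem_union_right _ (Finset.mem_image.2 ⟨s, hs, rfl⟩), by abel⟩

theorem card_XX_insert {H : AddSubgroup G} {E : Finset G} {r : G} (hr : r ∉ E) :
    (XX H (insert r E)).card = (XX H E).card + lam (XX H E) r := by
  rw [XX_insert hr, card_union_tr]

theorem XX_mono {H : AddSubgroup G} {E F : Finset G} (h : E ⊆ F) : XX H E ⊆ XX H F := by
  intro z hz
  obtain ⟨k, hk, s, hs, rfl⟩ := mem_XX.1 hz
  exact mem_XX.2 ⟨k, hk, s, SS_mono h hs, rfl⟩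

/-- `XX E + SS F = XX (E ∪ F)` for disjoint `E`, `F` (split a subset of `E ∪ F`). -/
theorem mem_XX_union {H : AddSubgroup G} {E F : Finset G} (hd : Disjoint E F) {z : G} :
    z ∈ XX H (E ∪ F) ↔ ∃ x ∈ XX H E, ∃ s ∈ SS F, x + s = z := by
  constructor
  · intro hz
    obtain ⟨k, hk, s, hs, rfl⟩ := mem_XX.1 hz
    obtain ⟨T, hT, rfl⟩ := mem_SS.1 hs
    refine ⟨k + ∑ b ∈ T ∩ E, b,
      mem_XX.2 ⟨k, hk, _, mem_SS.2 ⟨T ∩ E, Finset.inter_subset_right, rfl⟩, rfl⟩,
      ∑ b ∈ T \ E, b, mem_SS.2 ⟨T \ E, ?_, rfl⟩, ?_⟩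
    · intro b hb
      rw [Finset.mem_sdiff] at hb
      have h1 := hT hb.1
      rw [Finset.mem_union] at h1
      rcases h1 with h1 | h1
      · exact absurd h1 hb.2
      · exact h1
    · have h1 : ∑ b ∈ T, b = ∑ b ∈ T ∩ E, b + ∑ b ∈ T \ E, b := by
        rw [add_comm, ← Finset.sum_union (Finset.disjoint_sdiff_inter T E)]
        congr 1
        exact (Finset.sdiff_union_inter T E).symm
      rw [h1, add_assoc]
  · rintro ⟨x, hx, s, hs, rfl⟩
    obtain ⟨k, hk, t, ht, rfl⟩ := mem_XX.1 hx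
    obtain ⟨T, hT, rfl⟩ := mem_SS.1 ht
    obtain ⟨S, hS, rfl⟩ := mem_SS.1 hs
    refine mem_XX.2 ⟨k, hk, _, mem_SS.2 ⟨T ∪ S, Finset.union_subset_union hT hS, rfl⟩, ?_⟩
    rw [Finset.sum_union (Finset.disjoint_of_subset_left hT
      (Finset.disjoint_of_subset_right hS hd)), add_assoc]

/-- `XX E + XX F = XX (E ∪ F)` for disjoint `E`, `F`. -/
theorem mem_XX_union' {H : AddSubgroup G} {E F : Finset G} (hd : Disjoint E F) {z : G} :
    z ∈ XX H (E ∪ F) ↔ ∃ x ∈ XX H E, ∃ s ∈ XX H F, x + s = z := by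
  rw [mem_XX_union hd]
  constructor
  · rintro ⟨x, hx, s, hs, rfl⟩
    exact ⟨x, hx, s, mem_XX_of_SS hs, rfl⟩
  · rintro ⟨x, hx, s, hs, rfl⟩
    obtain ⟨k, hk, t, ht, rfl⟩ := mem_XX.1 hs
    exact ⟨x + k, per_XX H E x hx k hk, t, ht, by abel⟩

theorem XX_mem_subgroup {H K : AddSubgroup G} {E : Finset G} (hH : H ≤ K)
    (hE : ∀ e ∈ E, e ∈ K) : ∀ x ∈ XX H E, x ∈ K := by
  intro x hx
  obtain ⟨k, hk, s, hs, rfl⟩ := mem_XX.1 hx
  exact K.add_mem (hH hk) (SS_subset_subgroup hE s hs)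

theorem le_LL (H : AddSubgroup G) (R : Finset G) : H ≤ LL H R := by
  exact le_sup_right

theorem mem_LL {H : AddSubgroup G} {R : Finset G} {r : G} (hr : r ∈ R) : r ∈ LL H R := by
  exact (le_sup_left : AddSubgroup.closure (R : Set G) ≤ LL H R)
    (AddSubgroup.subset_closure (Finset.mem_coe.2 hr))

theorem LL_mono {H : AddSubgroup G} {R S : Finset G} (h : R ⊆ S) : LL H R ≤ LL H S := by
  exact sup_le_sup_right (AddSubgroup.closure_mono (Finset.coe_subset.2 h)) H

theorem LL_le {H K : AddSubgroup G} {R : Finset G} (hH : H ≤ K) (hR : ∀ r ∈ R, r ∈ K) :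
    LL H R ≤ K := by
  refine sup_le ?_ hH
  rw [AddSubgroup.closure_le]
  intro r hr
  exact hR r (Finset.mem_coe.1 hr)

theorem mem_CR {H : AddSubgroup G} {R : Finset G} {z : G} :
    z ∈ CR H R ↔ ∃ c ∈ CC R, ∃ k ∈ H, c + k = z := by
  unfold CR
  rw [mem_sumS]
  constructor
  · rintro ⟨c, hc, k, hk, h⟩
    exact ⟨c, hc, k, (mem_sf k).1 hk, h⟩
  · rintro ⟨c, hc, k, hk, h⟩
    exact ⟨c, hc, k, (mem_sf k).2 hk, h⟩

theorem zero_mem_CR {H : AddSubgroup G} {R : Finset G} : (0 : G) ∈ CR H R := by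
  exact mem_CR.2 ⟨0, zero_mem_CC R, 0, H.zero_mem, add_zero 0⟩

theorem neg_mem_CR {H : AddSubgroup G} {R : Finset G} {z : G} (hz : z ∈ CR H R) :
    -z ∈ CR H R := by
  obtain ⟨c, hc, k, hk, rfl⟩ := mem_CR.1 hz
  exact mem_CR.2 ⟨-c, neg_mem_CC hc, -k, H.neg_mem hk, by abel⟩

theorem mem_CR_of_CC {H : AddSubgroup G} {R : Finset G} {r : G} (hr : r ∈ CC R) :
    r ∈ CR H R := by
  exact mem_CR.2 ⟨r, hr, 0, H.zero_mem, add_zero r⟩

theorem CR_subset {H : AddSubgroup G} {R : Finset G} : CR H R ⊆ sf (LL H R) := by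
  intro z hz
  obtain ⟨c, hc, k, hk, rfl⟩ := mem_CR.1 hz
  rw [mem_sf]
  refine AddSubgroup.add_mem _ ?_ (le_LL H R hk)
  unfold CC at hc
  rw [Finset.mem_insert, Finset.mem_union, Finset.mem_image] at hc
  rcases hc with rfl | hx | ⟨y, hy, rfl⟩
  · exact AddSubgroup.zero_mem _
  · exact mem_LL hx
  · exact AddSubgroup.neg_mem _ (mem_LL hy)

theorem per_CR {H : AddSubgroup G} {R : Finset G} : Per H (CR H R) := by
  intro x hx l hl
  obtain ⟨c, hc, k, hk, rfl⟩ := mem_CR.1 hx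
  exact mem_CR.2 ⟨c, hc, k + l, H.add_mem hk hl, by abel⟩

/-- A nonempty subset `X` of `LL H R` with `X + CR H R ⊆ X` is everything. Proof: as in
`Rho.DD_growth2` (the block `hgen`): for every `z` in the closure of `R` and every `y ∈ X`,
`y + z ∈ X` (closure_induction; for negatives use that `X.image (· + a) ⊆ X` has the same number
of elements as `X`); also `y + k ∈ X` for `k ∈ H` (`k = 0 + k ∈ CR H R`). An element of
`closure R ⊔ H` is a sum `z + k` (AddSubgroup.mem_sup). -/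
theorem CR_gen {H : AddSubgroup G} {R X : Finset G} (hX : X ⊆ sf (LL H R)) (hne : X.Nonempty)
    (h : sumS X (CR H R) ⊆ X) : X = sf (LL H R) := by
  apply Finset.Subset.antisymm hX
  obtain ⟨x0, hx0⟩ := hne
  have hadd : ∀ c ∈ CR H R, ∀ y ∈ X, y + c ∈ X := by
    intro c hc y hy
    exact h (mem_sumS.2 ⟨y, hy, c, hc, rfl⟩)
  have key : ∀ z ∈ AddSubgroup.closure (R : Set G), ∀ y ∈ X, y + z ∈ X := by
    intro z hz
    refine AddSubgroup.closure_induction (p := fun z _ => ∀ y ∈ X, y + z ∈ X) ?_ ?_ ?_ ?_ hz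
    · intro c hc y hy
      exact hadd c (mem_CR_of_CC (mem_CC_of_mem hc)) y hy
    · intro y hy; simpa using hy
    · intro a b _ _ ha hb y hy
      have := hb _ (ha y hy)
      rwa [add_assoc] at this
    · intro a _ ha y hy
      have himg : X.image (fun z => z + a) = X := by
        apply Finset.eq_of_subset_of_card_le
        · intro z hz
          rw [Finset.mem_image] at hz
          obtain ⟨u, hu, rfl⟩ := hz
          exact ha u hu
        · rw [Finset.card_image_of_injective _ (add_left_injective a)]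
      rw [← himg, Finset.mem_image] at hy
      obtain ⟨u, hu, rfl⟩ := hy
      simpa using hu
  intro z hz
  have h1 : z - x0 ∈ LL H R :=
    AddSubgroup.sub_mem _ ((mem_sf z).1 hz) ((mem_sf x0).1 (hX hx0))
  obtain ⟨a, ha, k, hk, hak⟩ := AddSubgroup.mem_sup.1 h1
  have h2 : x0 + a ∈ X := key a ha x0 hx0
  have h3 : x0 + a + k ∈ X :=
    hadd k (mem_CR.2 ⟨0, zero_mem_CC R, k, hk, zero_add k⟩) _ h2
  have h4 : x0 + a + k = z := by
    rw [add_assoc, hak]
    abel
  rwa [h4] at h3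

theorem Per.add_iff {H : AddSubgroup G} {X : Finset G} (hX : Per H X) {x k : G} (hk : k ∈ H) :
    x + k ∈ X ↔ x ∈ X := by
  constructor
  · intro h
    have h1 := hX _ h (-k) (H.neg_mem hk)
    simpa using h1
  · intro h
    exact hX x h k hk

theorem per_sumS {H : AddSubgroup G} {Y C : Finset G} (hC : Per H C) : Per H (sumS Y C) := by
  intro x hx k hk
  obtain ⟨y, hy, c, hc, rfl⟩ := mem_sumS.1 hx
  exact mem_sumS.2 ⟨y, hy, c + k, hC c hc k hk, by abel⟩

/-- A periodic nonempty set contains a whole coset. -/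
theorem Per.card_ge {H : AddSubgroup G} {X : Finset G} (hX : Per H X) (hne : X.Nonempty) :
    (sf H).card ≤ X.card := by
  obtain ⟨x, hx⟩ := hne
  apply Finset.card_le_card_of_injOn (fun k => x + k)
  · intro k hk
    exact hX x hx k ((mem_sf k).1 hk)
  · intro a _ b _ hab
    simpa using hab

/-- The number of elements of an `H`-periodic set is `|H|` times the number of its cosets:
`Finset.card_eq_sum_card_image` for `QuotientAddGroup.mk : G → G ⧸ H`; each fibre is a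
translate of `sf H`. -/
theorem Per.card_eq {H : AddSubgroup G} {X : Finset G} (hX : Per H X) [DecidableEq (G ⧸ H)] :
    X.card = (X.image (fun x => (QuotientAddGroup.mk x : G ⧸ H))).card * (sf H).card := by
  classical
  rw [Finset.card_eq_sum_card_image (fun x => (QuotientAddGroup.mk x : G ⧸ H)) X,
    Finset.sum_const_nat (m := (sf H).card)]
  intro c hc
  obtain ⟨x, hx, rfl⟩ := Finset.mem_image.1 hc
  refine (Finset.card_bij' (fun k _ => x + k) (fun y _ => -x + y) ?_ ?_ ?_ ?_).symm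
  · intro k hk
    rw [Finset.mem_filter]
    refine ⟨hX x hx k ((mem_sf k).1 hk), ?_⟩
    apply Eq.symm
    apply QuotientAddGroup.eq.2
    have h1 := (mem_sf k).1 hk
    simpa using h1
  · intro y hy
    rw [Finset.mem_filter] at hy
    rw [mem_sf]
    exact QuotientAddGroup.eq.1 hy.2.symm
  · intro k _
    simp
  · intro y _
    simp

theorem Per.lam_zero {H : AddSubgroup G} {X : Finset G} (hX : Per H X) {k : G} (hk : k ∈ H) :
    lam X k = 0 := by
  unfold lam
  rw [Finset.card_eq_zero, Finset.filter_eq_empty_iff]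
  intro s hs h
  exact h (hX s hs k hk)

theorem per_co {H L : AddSubgroup G} {X : Finset G} (hX : Per H X) (hHL : H ≤ L) (s : G) :
    Per H (co X L s) := by
  intro x hx k hk
  rw [mem_co] at hx ⊢
  refine ⟨hX x hx.1 k hk, ?_⟩
  have h1 := L.add_mem hx.2 (hHL hk)
  have h2 : x - s + k = x + k - s := by abel
  rwa [h2] at h1

theorem per_UU {H L : AddSubgroup G} {X : Finset G} (hX : Per H X) (hHL : H ≤ L) :
    Per H (UU X L) := by
  intro x hx k hk
  unfold UU at hx ⊢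
  rw [mem_mino] at hx ⊢
  have hco : co X L (x + k) = co X L x := co_congr (by simpa using hHL hk)
  rw [hco, hX.add_iff hk]
  exact hx

end Pool.Agent.helper43.Asy
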