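import Pool.Agent.helper43.Asy.NumA

/-! ASY-NumB: the choice of the parameters (section 7 of the paper proof). (author: helper59) -/

open Finset Pool.Agent.helper43.Rho

namespace Pool.Agent.helper43.Asy

/-- Write `s = Nat.sqrt M`, `ℓ = Nat.log 2 M`, `T = ∑_{j=1}^M rd h j`, `W = TT h M = h + T`,
`Tδ = ∑_{j=1}^M rd h (j - δ)`. `M ≥ 2`, `s ≥ 1`, `s^2 ≤ M < (s+1)^2`, `rd h M ≤ 2 M`
(`rd_le_two`), `M^2 ≤ 2 T ≤ 2 W` (`sum_rd_ge`), `W ≤ M + M (2 M) ≤ 3 M^2` (each term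
`rd h j ≤ rd h M ≤ 2 M`).

Case 1: `Y > 3 M^2`. Then `W ≤ Y`.

Case 2: `s < 2 (ℓ + 1)`. Then `W s ≤ 2 (ℓ + 1) W`.

Case 3: `Y ≤ 3 M^2`, `2 (ℓ+1) ≤ s`. Then `ℓ ≥ 1`, `s ≥ 4`, `M ≥ 16`. Let `q = s / (ℓ + 1) ≥ 2`,
`δ = 40 (s + 1)`, `Λ = 98 M`, `β = (q + 2)(2 ℓ + 3)`. Then `δ^2 = 1600 (s+1)^2 ≥ 1600 M ≥ 800 rd h M`,
`Λ^2 = 9604 M^2 ≥ 3200 Y`, the condition on `β` is `num_beta` (`q ≤ s`). `q (ℓ + 1) ≤ s`,
`s < (q + 1)(ℓ + 1) ≤ 2 q (ℓ + 1)`. `β ≤ 2 q * 3 (ℓ + 1) ≤ 6 s`. `2 Y ≤ 6 M^2 < 2^(2 ℓ + 5)`, so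
`Nat.log 2 (2 Y) + 1 ≤ 2 ℓ + 5 ≤ 5 (ℓ + 1)` (`Nat.log_lt_of_lt_pow`). By `h7` and
`T ≤ Tδ + δ rd h M ≤ Tδ + 40 (s+1) 2 M` (`sum_rd_shift`):
`q W = q h + (q-1) T + T ≤ q Y + q (80 (s+1) M + 2 M β + 98 M β (Nat.log 2 (2 Y) + 1)
   + 6400 q (6400 q + h)) + T`. Multiply by `s` and use
`s T ≤ 2 q (ℓ + 1) W`, `s 80 (s+1) M ≤ 160 s^2 M ≤ 160 M^2 ≤ 320 W`,
`s 2 M β ≤ 12 s^2 M ≤ 24 W`, `s 98 M β (5 (ℓ + 1)) ≤ 2940 s^2 M (ℓ+1) ≤ 5880 (ℓ + 1) W`,
`s 6400^2 q^2 ≤ 6400^2 s^4 ≤ 6400^2 M^2 ≤ 81920000 W` (as `q ≤ s`, `s^3 ≤ s^4`),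
`s 6400 q h ≤ 6400 s^2 M ≤ 12800 W`; divide by `q`:
`s W ≤ s Y + (2 + 320 + 24 + 5880 + 81920000 + 12800) (ℓ + 1) W`. -/
theorem num_int {h M Y : ℕ} (hh : 1 ≤ h) (hM : h < M)
    (h7 : ∀ q δ β Λ : ℕ, 2 ≤ q → 800 * rd h M ≤ δ ^ 2 →
      (q + 2) ^ β * (2 * (q + 2) * M) < (q + 3) ^ β → 3200 * Y ≤ Λ ^ 2 →
      (q - 1) * ∑ j ∈ Icc 1 M, rd h (j - δ) + q * h ≤
        q * Y + q * (2 * M * β + Λ * (β * (Nat.log 2 (2 * Y) + 1))) +
        q * (6400 * q * (6400 * q + h))) :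
    TT h M * Nat.sqrt M ≤ Y * Nat.sqrt M + 10 ^ 8 * (Nat.log 2 M + 1) * TT h M := by
  set s := Nat.sqrt M with hsdef
  set l := Nat.log 2 M with hldef
  set T := ∑ j ∈ Icc 1 M, rd h j with hT
  have hWdef : TT h M = h + T := rfl
  set W := TT h M with hW
  have hM2 : 2 ≤ M := by omega
  have hs1 : 1 ≤ s := Nat.le_sqrt.2 (by omega)
  have hsM : s * s ≤ M := Nat.sqrt_le M
  have hMs : M < (s + 1) * (s + 1) := Nat.lt_succ_sqrt M
  have hrd : rd h M ≤ 2 * M := rd_le_two hM.le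
  have hge : M * (M + 1) ≤ 2 * T := sum_rd_ge hh M
  have hM2W : M * M ≤ 2 * W := by
    have : M * M ≤ M * (M + 1) := Nat.mul_le_mul_left _ (Nat.le_succ _)
    omega
  have hTle : T ≤ M * (2 * M) := by
    have h1 : T ≤ ∑ _j ∈ Icc 1 M, 2 * M := by
      refine Finset.sum_le_sum fun j hj => ?_
      exact (rd_mono (Finset.mem_Icc.1 hj).2).trans hrd
    rw [Finset.sum_const, Nat.card_Icc, smul_eq_mul] at h1
    simpa using h1
  have hW3 : W ≤ 3 * (M * M) := by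
    have h1 : M * 1 ≤ M * M := Nat.mul_le_mul_left _ (by omega)
    have h2 : M * (2 * M) = 2 * (M * M) := by ring
    omega
  by_cases c1 : 3 * (M * M) < Y
  · have h1 : W ≤ Y := by omega
    have h2 : W * s ≤ Y * s := Nat.mul_le_mul_right _ h1
    exact h2.trans (Nat.le_add_right _ _)
  push Not at c1
  by_cases c2 : s < 2 * (l + 1)
  · have h1 : W * s ≤ W * (2 * (l + 1)) := Nat.mul_le_mul_left _ c2.le
    have h2 : W * (2 * (l + 1)) = 2 * ((l + 1) * W) := by ring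
    have h3 : 10 ^ 8 * (l + 1) * W = 10 ^ 8 * ((l + 1) * W) := by ring
    rw [h3]
    omega
  push Not at c2
  have hl1 : 1 ≤ l := by
    rw [hldef]
    exact (Nat.le_log_iff_pow_le (by norm_num) (by omega)).2 (by omega)
  have hs4 : 4 ≤ s := by omega
  set q := s / (l + 1) with hqdef
  have hq2 : 2 ≤ q := (Nat.le_div_iff_mul_le (by omega)).2 c2
  have hqs : q ≤ s := Nat.div_le_self _ _
  have hql : q * (l + 1) ≤ s := Nat.div_mul_le_self _ _
  have hsq : s < (q + 1) * (l + 1) := by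
    have := Nat.lt_mul_div_succ s (show 0 < l + 1 by omega)
    rw [mul_comm] at this
    exact this
  have hsq2 : s ≤ 2 * (q * (l + 1)) := by
    have h1 : (q + 1) * (l + 1) ≤ (2 * q) * (l + 1) := Nat.mul_le_mul_right _ (by omega)
    have h2 : (2 * q) * (l + 1) = 2 * (q * (l + 1)) := by ring
    omega
  have hM16 : 4 ≤ M := by
    have : s * 1 ≤ s * s := Nat.mul_le_mul_left _ hs1
    omega
  set β := (q + 2) * (2 * l + 3) with hβ
  have hβ6 : β ≤ 6 * s := by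
    have h1 : β ≤ (2 * q) * (3 * (l + 1)) := Nat.mul_le_mul (by omega) (by omega)
    have h2 : (2 * q) * (3 * (l + 1)) = 6 * (q * (l + 1)) := by ring
    omega
  -- the logarithm
  have hMl : M < 2 ^ (l + 1) := Nat.lt_pow_succ_log_self (by norm_num) M
  have hlog : Nat.log 2 (2 * Y) + 1 ≤ 5 * (l + 1) := by
    have h1 : M * M ≤ 2 ^ (l + 1) * 2 ^ (l + 1) := Nat.mul_le_mul hMl.le hMl.le
    have h2 : 2 ^ (2 * l + 5) = 8 * (2 ^ (l + 1) * 2 ^ (l + 1)) := by ring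
    have h3 : 0 < 2 ^ (l + 1) * 2 ^ (l + 1) := by positivity
    have h4 : 2 * Y < 2 ^ (2 * l + 5) := by
      rw [h2]
      omega
    have h5 : Nat.log 2 (2 * Y) < 2 * l + 5 := by
      by_cases hY : 2 * Y = 0
      · rw [hY]; simp
      · exact (Nat.log_lt_iff_lt_pow (by norm_num) hY).2 h4
    omega
  -- the hypothesis for the chosen parameters
  have hM0 : M ≤ M * M := Nat.le_mul_self M
  have key := h7 q (40 * (s + 1)) β (98 * M) hq2
    (by
      have e : (40 * (s + 1)) ^ 2 = 1600 * ((s + 1) * (s + 1)) := by ring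
      rw [e]
      omega)
    (num_beta hM16 hqs)
    (by
      have e : (98 * M) ^ 2 = 9604 * (M * M) := by ring
      rw [e]
      omega)
  set Td := ∑ j ∈ Icc 1 M, rd h (j - 40 * (s + 1)) with hTd
  have hshift : T ≤ Td + 40 * (s + 1) * rd h M := sum_rd_shift hh M _
  have hshift2 : T ≤ Td + 80 * ((s + 1) * M) := by
    have h1 : 40 * (s + 1) * rd h M ≤ 40 * (s + 1) * (2 * M) := Nat.mul_le_mul_left _ hrd
    have h2 : 40 * (s + 1) * (2 * M) = 80 * ((s + 1) * M) := by ring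
    omega
  set Λ' := 98 * M * (β * (Nat.log 2 (2 * Y) + 1)) with hΛ'
  have hqW : q * W ≤ q * Y + q * (80 * ((s + 1) * M) + 2 * M * β + Λ' +
      6400 * q * (6400 * q + h)) + T := by
    have h1 : (q - 1) * T ≤ (q - 1) * Td + (q - 1) * (80 * ((s + 1) * M)) := by
      rw [← Nat.mul_add]
      exact Nat.mul_le_mul_left _ hshift2
    have h2 : (q - 1) * (80 * ((s + 1) * M)) ≤ q * (80 * ((s + 1) * M)) :=
      Nat.mul_le_mul_right _ (Nat.sub_le _ _)
    have h3 : q * T = (q - 1) * T + T := by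
      have e : q = (q - 1) + 1 := by omega
      calc q * T = ((q - 1) + 1) * T := by rw [← e]
        _ = (q - 1) * T + T := by ring
    have h4 : q * W = q * h + q * T := by rw [hWdef]; ring
    have h5 : q * (80 * ((s + 1) * M) + 2 * M * β + Λ' + 6400 * q * (6400 * q + h)) =
        q * (80 * ((s + 1) * M)) + q * (2 * M * β + Λ') + q * (6400 * q * (6400 * q + h)) := by
      ring
    rw [h4, h3, h5]
    omega
  -- the six error terms, multiplied by `s`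
  have hss : s * s * M ≤ 2 * W := (Nat.mul_le_mul_right _ hsM).trans hM2W
  have e1 : s * (80 * ((s + 1) * M)) ≤ 320 * W := by
    have h1 : s * (80 * ((s + 1) * M)) ≤ s * (80 * ((2 * s) * M)) :=
      Nat.mul_le_mul_left _ (Nat.mul_le_mul_left _ (Nat.mul_le_mul_right _ (by omega)))
    have h2 : s * (80 * ((2 * s) * M)) = 160 * (s * s * M) := by ring
    omega
  have e2 : s * (2 * M * β) ≤ 24 * W := by
    have h1 : s * (2 * M * β) ≤ s * (2 * M * (6 * s)) :=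
      Nat.mul_le_mul_left _ (Nat.mul_le_mul_left _ hβ6)
    have h2 : s * (2 * M * (6 * s)) = 12 * (s * s * M) := by ring
    omega
  have e3 : s * Λ' ≤ 5880 * ((l + 1) * W) := by
    have h1 : s * Λ' ≤ s * (98 * M * ((6 * s) * (5 * (l + 1)))) :=
      Nat.mul_le_mul_left _ (Nat.mul_le_mul_left _ (Nat.mul_le_mul hβ6 hlog))
    have h2 : s * (98 * M * ((6 * s) * (5 * (l + 1)))) = 2940 * ((l + 1) * (s * s * M)) := by ring
    have h3 : (l + 1) * (s * s * M) ≤ (l + 1) * (2 * W) := Nat.mul_le_mul_left _ hss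
    have h4 : (l + 1) * (2 * W) = 2 * ((l + 1) * W) := by ring
    omega
  have hs4M : s * q * q ≤ M * M := by
    have h1 : s * q * q ≤ s * s * s := Nat.mul_le_mul (Nat.mul_le_mul_left _ hqs) hqs
    have h2 : s * s * s ≤ s * s * (s * s) := Nat.mul_le_mul_left _ (Nat.le_mul_self s)
    have h3 : s * s * (s * s) ≤ M * M := Nat.mul_le_mul hsM hsM
    omega
  have e4 : s * (6400 * q * (6400 * q + h)) ≤ 81932800 * W := by
    have h1 : s * (6400 * q * (6400 * q + h)) = 40960000 * (s * q * q) + 6400 * (s * q * h) := by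
      ring
    have h2 : s * q * h ≤ s * s * M := Nat.mul_le_mul (Nat.mul_le_mul_left _ hqs) hM.le
    rw [h1]
    omega
  have e5 : s * T ≤ q * (2 * ((l + 1) * W)) := by
    have h1 : s * T ≤ (2 * (q * (l + 1))) * W := Nat.mul_le_mul hsq2 (by omega)
    have h2 : (2 * (q * (l + 1))) * W = q * (2 * ((l + 1) * W)) := by ring
    omega
  have hl1W : W ≤ (l + 1) * W := Nat.le_mul_of_pos_left _ (by omega)
  have hsum : s * (80 * ((s + 1) * M) + 2 * M * β + Λ' + 6400 * q * (6400 * q + h)) +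
      2 * ((l + 1) * W) ≤ 10 ^ 8 * ((l + 1) * W) := by
    have h1 : s * (80 * ((s + 1) * M) + 2 * M * β + Λ' + 6400 * q * (6400 * q + h)) =
        s * (80 * ((s + 1) * M)) + s * (2 * M * β) + s * Λ' +
          s * (6400 * q * (6400 * q + h)) := by ring
    rw [h1]
    omega
  have hfin : q * (W * s) ≤ q * (Y * s + 10 ^ 8 * (l + 1) * W) := by
    have h1 : s * (q * W) ≤ s * (q * Y + q * (80 * ((s + 1) * M) + 2 * M * β + Λ' +
      6400 * q * (6400 * q + h)) + T) := Nat.mul_le_mul_left _ hqW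
    have h2 : s * (q * W) = q * (W * s) := by ring
    have h3 : s * (q * Y + q * (80 * ((s + 1) * M) + 2 * M * β + Λ' +
      6400 * q * (6400 * q + h)) + T) = q * (Y * s) + q * (s * (80 * ((s + 1) * M) +
        2 * M * β + Λ' + 6400 * q * (6400 * q + h))) + s * T := by ring
    rw [h2, h3] at h1
    have h4 : q * (Y * s + 10 ^ 8 * (l + 1) * W) = q * (Y * s) + q * (10 ^ 8 * ((l + 1) * W)) := by
      ring
    rw [h4]
    have h5 := Nat.mul_le_mul_left q hsum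
    rw [Nat.mul_add] at h5
    omega
  exact Nat.le_of_mul_le_mul_left hfin (by omega)

end Pool.Agent.helper43.Asy
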