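import Pool.Agent.helper43.Asy.Defs
import Mathlib

/-! ASY-NumC: passage to real numbers (section 7 of the paper proof). (author: helper59) -/

open Finset Pool.Agent.helper43.Rho

namespace Pool.Agent.helper43.Asy

/-- `2^ℓ ≤ M` gives `ℓ log 2 ≤ log M`, and `log 2 > 1/2`, so `ℓ ≤ 2 log (M+1)`,
`1 ≤ 2 log 2 ≤ 2 log (M + 1)`. -/
theorem log_bound {M : ℕ} (hM : 1 ≤ M) : ((Nat.log 2 M : ℕ) : ℝ) + 1 ≤ 4 * Real.log (M + 1) := by
  have hM0 : (0 : ℝ) < M := by exact_mod_cast hM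
  have h1 : (2 : ℝ) ^ Nat.log 2 M ≤ M := by exact_mod_cast Nat.pow_log_le_self 2 (by omega)
  have h2 : (Nat.log 2 M : ℝ) * Real.log 2 ≤ Real.log M := by
    rw [← Real.log_pow]
    exact Real.log_le_log (by positivity) h1
  have h3 : (1 / 2 : ℝ) ≤ Real.log 2 := by
    have := Real.log_two_gt_d9
    linarith
  have h4 : Real.log M ≤ Real.log ((M : ℝ) + 1) := Real.log_le_log hM0 (by linarith)
  have h5 : Real.log 2 ≤ Real.log ((M : ℝ) + 1) := by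
    refine Real.log_le_log (by norm_num) ?_
    have : (1 : ℝ) ≤ M := by exact_mod_cast hM
    linarith
  have h6 : (Nat.log 2 M : ℝ) * (1 / 2) ≤ (Nat.log 2 M : ℝ) * Real.log 2 :=
    mul_le_mul_of_nonneg_left h3 (Nat.cast_nonneg _)
  linarith

/-- `M < (s + 1)^2` (`Nat.lt_succ_sqrt`), so `√M ≤ s + 1 ≤ 2 s`. -/
theorem sqrt_bound {M : ℕ} (hM : 1 ≤ M) : Real.sqrt M ≤ 2 * (Nat.sqrt M : ℝ) := by
  have h1 : 1 ≤ Nat.sqrt M := Nat.le_sqrt.2 (by omega)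
  have h2 : M ≤ (2 * Nat.sqrt M) ^ 2 := by
    have h3 := Nat.lt_succ_sqrt M
    have h4 : (Nat.sqrt M).succ ≤ 2 * Nat.sqrt M := by omega
    calc M ≤ (Nat.sqrt M).succ * (Nat.sqrt M).succ := h3.le
      _ ≤ (2 * Nat.sqrt M) * (2 * Nat.sqrt M) := Nat.mul_le_mul h4 h4
      _ = (2 * Nat.sqrt M) ^ 2 := (sq _).symm
  have h5 : (M : ℝ) ≤ (2 * (Nat.sqrt M : ℝ)) ^ 2 := by exact_mod_cast h2
  exact Real.sqrt_le_iff.2 ⟨by positivity, h5⟩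

/-- With `s = Nat.sqrt M ≥ 1`, `ℓ = Nat.log 2 M`: `W (1 - 10^8 (ℓ + 1) / s) ≤ Y`, and
`(ℓ + 1) / s ≤ 8 log (M+1) / √M` by the two bounds above. -/
theorem num_real {M W Y : ℕ} (hM : 1 ≤ M)
    (h : W * Nat.sqrt M ≤ Y * Nat.sqrt M + 10 ^ 8 * (Nat.log 2 M + 1) * W) :
    (W : ℝ) * (1 - 10 ^ 9 * (Real.log (M + 1) / Real.sqrt M)) ≤ Y := by
  have hM0 : (0 : ℝ) < M := by exact_mod_cast hM
  have hr : 0 < Real.sqrt M := Real.sqrt_pos.2 hM0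
  have hs : 1 ≤ Nat.sqrt M := Nat.le_sqrt.2 (by omega)
  have hs0 : (0 : ℝ) < (Nat.sqrt M : ℝ) := by exact_mod_cast hs
  have hL := log_bound hM
  have hS := sqrt_bound hM
  have hW : (0 : ℝ) ≤ W := Nat.cast_nonneg _
  have h1 : (W : ℝ) * (Nat.sqrt M : ℝ) ≤ Y * (Nat.sqrt M : ℝ) +
      10 ^ 8 * ((Nat.log 2 M : ℝ) + 1) * W := by exact_mod_cast h
  set L := Real.log ((M : ℝ) + 1) with hLdef
  have hL0 : 0 ≤ L := Real.log_nonneg (by linarith)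
  have h2 : (W : ℝ) * (Nat.sqrt M : ℝ) ≤ Y * (Nat.sqrt M : ℝ) + 10 ^ 8 * (4 * L) * W := by
    have : 10 ^ 8 * ((Nat.log 2 M : ℝ) + 1) * W ≤ 10 ^ 8 * (4 * L) * W :=
      mul_le_mul_of_nonneg_right (mul_le_mul_of_nonneg_left hL (by norm_num)) hW
    linarith
  -- `1 / s ≤ 2 / √M`
  have h3 : 10 ^ 8 * (4 * L) * W ≤
      (10 ^ 9 * (L / Real.sqrt M) * W) * (Nat.sqrt M : ℝ) := by
    have e : (10 ^ 9 * (L / Real.sqrt M) * W) * (Nat.sqrt M : ℝ) =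
        10 ^ 9 * L * W * ((Nat.sqrt M : ℝ) / Real.sqrt M) := by ring
    rw [e]
    have h4 : (1 / 2 : ℝ) ≤ (Nat.sqrt M : ℝ) / Real.sqrt M := by
      rw [le_div_iff₀ hr]; linarith
    have h5 : 0 ≤ 10 ^ 9 * L * W := by positivity
    have h6 := mul_le_mul_of_nonneg_left h4 h5
    have h7 : 0 ≤ L * W := by positivity
    nlinarith
  have h8 : ((W : ℝ) * (1 - 10 ^ 9 * (L / Real.sqrt M))) * (Nat.sqrt M : ℝ) ≤
      Y * (Nat.sqrt M : ℝ) := by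
    have e : ((W : ℝ) * (1 - 10 ^ 9 * (L / Real.sqrt M))) * (Nat.sqrt M : ℝ) =
        W * (Nat.sqrt M : ℝ) - (10 ^ 9 * (L / Real.sqrt M) * W) * (Nat.sqrt M : ℝ) := by ring
    rw [e]
    linarith
  exact le_of_mul_le_mul_right h8 hs0

/-- `F 2 10^9 log (m+1) / √m ≥ 1` for `F ≥ m ≥ 1`. -/
private theorem numC_one_le {m F : ℕ} (hm : 1 ≤ m) (hF : m ≤ F) :
    1 ≤ (F : ℝ) * (2 * 10 ^ 9 * (Real.log (m + 1) / Real.sqrt m)) := by
  have hm1 : (1 : ℝ) ≤ m := by exact_mod_cast hm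
  have hm0 : (0 : ℝ) < m := by linarith
  have hr : 0 < Real.sqrt m := Real.sqrt_pos.2 hm0
  have hr1 : 1 ≤ Real.sqrt m := Real.one_le_sqrt.2 hm1
  have hF' : (m : ℝ) ≤ F := by exact_mod_cast hF
  have h5 : (1 / 2 : ℝ) ≤ Real.log ((m : ℝ) + 1) := by
    have h3 := Real.log_two_gt_d9
    have h4 : Real.log 2 ≤ Real.log ((m : ℝ) + 1) := Real.log_le_log (by norm_num) (by linarith)
    linarith
  have h6 : (1 / 2 : ℝ) ≤ (F : ℝ) * (Real.log ((m : ℝ) + 1) / Real.sqrt m) := by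
    have e : (m : ℝ) * (Real.log ((m : ℝ) + 1) / Real.sqrt m) =
        Real.sqrt m * Real.log ((m : ℝ) + 1) := by
      have : (m : ℝ) = Real.sqrt m * Real.sqrt m := (Real.mul_self_sqrt hm0.le).symm
      field_simp
      rw [Real.sq_sqrt hm0.le]
    have h7 : (m : ℝ) * (Real.log ((m : ℝ) + 1) / Real.sqrt m) ≤
        (F : ℝ) * (Real.log ((m : ℝ) + 1) / Real.sqrt m) :=
      mul_le_mul_of_nonneg_right hF' (by positivity)
    rw [e] at h7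
    have h8 : 1 * (1 / 2 : ℝ) ≤ Real.sqrt m * Real.log ((m : ℝ) + 1) :=
      mul_le_mul hr1 h5 (by norm_num) hr.le
    linarith
  nlinarith

/-- Let `c = log (m+1) / √m > 0`, `m ≥ 1`. `FF ≥ m`-type data: `m ≤ F ≤ W`, `2 m ≤ 3 M`,
`W (1 - 10^9 log (M+1) / √M) ≤ S + 1`. As `M ≤ m` and `2 m ≤ 3 M`,
`log (M+1) / √M ≤ log (m+1) / √M ≤ 2 c` (`√m ≤ 2 √M`). If `1 - 2 10^9 c ≤ 0` the left side is
`≤ 0 ≤ S`. Otherwise `F (1 - 2 10^9 c) ≤ W (1 - 2 10^9 c) ≤ S + 1`, and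
`F 2 10^9 c ≥ m 2 10^9 log 2 / √m ≥ 1` (`log (m+1) ≥ log 2 ≥ 1/2`, `√m ≥ 1`, `m / √m = √m`). -/
theorem real_step {m M F W S : ℕ} (hm : 1 ≤ m) (hMm : M ≤ m) (hM : 2 * m ≤ 3 * M) (hF : m ≤ F)
    (hFW : F ≤ W)
    (h : (W : ℝ) * (1 - 10 ^ 9 * (Real.log (M + 1) / Real.sqrt M)) ≤ (S : ℝ) + 1) :
    (F : ℝ) * (1 - 4 * 10 ^ 9 * (Real.log (m + 1) / Real.sqrt m)) ≤ S := by
  have hM1 : 1 ≤ M := by omega
  have hm1 : (1 : ℝ) ≤ m := by exact_mod_cast hm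
  have hM1' : (1 : ℝ) ≤ M := by exact_mod_cast hM1
  have hmr : 0 < Real.sqrt m := Real.sqrt_pos.2 (by linarith)
  have hMr : 0 < Real.sqrt M := Real.sqrt_pos.2 (by linarith)
  have hMm' : (M : ℝ) ≤ m := by exact_mod_cast hMm
  have hlog : Real.log ((M : ℝ) + 1) ≤ Real.log ((m : ℝ) + 1) :=
    Real.log_le_log (by linarith) (by linarith)
  have hlog0 : 0 ≤ Real.log ((m : ℝ) + 1) := Real.log_nonneg (by linarith)
  set c := Real.log ((m : ℝ) + 1) / Real.sqrt m with hc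
  have hc0 : 0 ≤ c := by positivity
  have hsq : Real.sqrt m ≤ 2 * Real.sqrt M := by
    have h1 : (m : ℝ) ≤ 4 * M := by
      have : (2 : ℝ) * m ≤ 3 * M := by exact_mod_cast hM
      linarith
    have h2 : (m : ℝ) ≤ (2 * Real.sqrt M) ^ 2 := by
      rw [mul_pow, Real.sq_sqrt (by linarith)]
      linarith
    exact Real.sqrt_le_iff.2 ⟨by positivity, h2⟩
  have hcM : Real.log ((M : ℝ) + 1) / Real.sqrt M ≤ 2 * c := by
    rw [div_le_iff₀ hMr, hc]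
    have e : 2 * (Real.log ((m : ℝ) + 1) / Real.sqrt m) * Real.sqrt M =
        Real.log ((m : ℝ) + 1) * (2 * Real.sqrt M / Real.sqrt m) := by ring
    rw [e]
    have h3 : 1 ≤ 2 * Real.sqrt M / Real.sqrt m := by
      rw [le_div_iff₀ hmr]; linarith
    have h4 := mul_le_mul_of_nonneg_left h3 hlog0
    linarith
  have hW0 : (0 : ℝ) ≤ W := Nat.cast_nonneg _
  have hF0 : (0 : ℝ) ≤ F := Nat.cast_nonneg _
  have hS0 : (0 : ℝ) ≤ S := Nat.cast_nonneg _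
  have h5 : (W : ℝ) * (1 - 2 * 10 ^ 9 * c) ≤ (S : ℝ) + 1 := by
    refine le_trans (mul_le_mul_of_nonneg_left ?_ hW0) h
    linarith
  by_cases h6 : 1 - 2 * 10 ^ 9 * c ≤ 0
  · have h7 : 1 - 4 * 10 ^ 9 * c ≤ 0 := by linarith
    have h8 : (F : ℝ) * (1 - 4 * 10 ^ 9 * c) ≤ 0 := mul_nonpos_of_nonneg_of_nonpos hF0 h7
    linarith
  · push Not at h6
    have h7 : (F : ℝ) * (1 - 2 * 10 ^ 9 * c) ≤ (S : ℝ) + 1 := by
      refine le_trans (mul_le_mul_of_nonneg_right ?_ h6.le) h5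
      exact_mod_cast hFW
    have h8 := numC_one_le hm hF
    rw [← hc] at h8
    linarith

/-- The easy case: `F ≤ S + 1` and `F 4 10^9 log (m+1) / √m ≥ 1` as above. -/
theorem real_step' {m F S : ℕ} (hm : 1 ≤ m) (hF : m ≤ F) (h : F ≤ S + 1) :
    (F : ℝ) * (1 - 4 * 10 ^ 9 * (Real.log (m + 1) / Real.sqrt m)) ≤ S := by
  have h8 := numC_one_le hm hF
  have hF' : (F : ℝ) ≤ (S : ℝ) + 1 := by exact_mod_cast h
  linarith

end Pool.Agent.helper43.Asy
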