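import Pool.Agent.helper43.Asy.Proc
import Pool.Agent.helper43.Asy.NumB
import Pool.Agent.helper43.Asy.NumC
import Pool.Agent.helper43.Asy.Asm

/-! ASY-Concl: the lower bound (section 7 of the paper proof). -/

open Finset Pool.Agent.helper43.Rho

set_option linter.unusedSectionVars false

namespace Pool.Agent.helper43.Asy

/-- `FF n m ≥ m`: every value `h (1 + ∑_{i < m - (h-1)/2} (i/h + 1))`, `h ≥ 1`, is at least
`h + (m - (h - 1) / 2) ≥ m`. -/
theorem le_FF {n m : ℕ} (hn : 0 < n) : m ≤ FF n m := by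
  have hne : {v : ℕ | ∃ h : ℕ, h ∣ n ∧
      v = h * (1 + ∑ i ∈ Finset.range (m - (h - 1) / 2), (i / h + 1))}.Nonempty :=
    ⟨_, n, dvd_rfl, rfl⟩
  obtain ⟨h, hh, hF⟩ := Nat.sInf_mem hne
  unfold FF
  rw [hF]
  have hpos : 0 < h := Nat.pos_of_dvd_of_pos hh hn
  have hS : m - (h - 1) / 2 ≤ ∑ i ∈ Finset.range (m - (h - 1) / 2), (i / h + 1) := by
    have h1 : ∑ i ∈ Finset.range (m - (h - 1) / 2), 1 ≤
        ∑ i ∈ Finset.range (m - (h - 1) / 2), (i / h + 1) :=
      Finset.sum_le_sum (fun i _ => Nat.le_add_left 1 (i / h))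
    simpa using h1
  set S := ∑ i ∈ Finset.range (m - (h - 1) / 2), (i / h + 1) with hSdef
  have h2 : S ≤ h * S := Nat.le_mul_of_pos_left S hpos
  rw [Nat.mul_add, Nat.mul_one]
  omega

/-- `FF n m ≤ TT h M` for `h ∣ n`, `m ≤ M + (h - 1) / 2` (`sum_rd_eq`). -/
theorem FF_le_TT {n m h M : ℕ} (hn : 0 < n) (hh : h ∣ n) (hM : m ≤ M + (h - 1) / 2) :
    FF n m ≤ TT h M := by
  have hpos : 0 < h := Nat.pos_of_dvd_of_pos hh hn
  have h1 : FF n m ≤ h * (1 + ∑ i ∈ Finset.range (m - (h - 1) / 2), (i / h + 1)) :=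
    Nat.sInf_le ⟨h, hh, rfl⟩
  refine h1.trans ?_
  unfold TT
  rw [sum_rd_eq hpos, Nat.mul_add, Nat.mul_one]
  apply Nat.add_le_add_left
  apply Nat.mul_le_mul_left
  apply Finset.sum_le_sum_of_subset
  intro i hi
  rw [Finset.mem_range] at hi ⊢
  omega

variable {G : Type*} [AddCommGroup G] [DecidableEq G] [Fintype G]

/-- `M = |B| ≤ h`: `TT h M = h + M h ≤ |XX H B|` (`rd_eq`, `Ap.card_ge`). -/
theorem concl_small {H : AddSubgroup G} {B : Finset G} (hB : Ap H B)
    (h : B.card ≤ (sf H).card) : TT (sf H).card B.card ≤ (XX H B).card := by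
  refine le_trans ?_ hB.card_ge
  unfold TT
  have h1 : ∑ j ∈ Icc 1 B.card, rd (sf H).card j = ∑ j ∈ Icc 1 B.card, (sf H).card := by
    apply Finset.sum_congr rfl
    intro j hj
    rw [Finset.mem_Icc] at hj
    exact rd_eq hj.1 (hj.2.trans h)
  rw [h1]
  simp only [Finset.sum_const, Nat.card_Icc, smul_eq_mul]
  apply le_of_eq
  rw [Nat.add_sub_cancel]
  ring

/-- `num_int` (with `seven`), `num_real`. -/
theorem concl_large {H : AddSubgroup G} {B : Finset G} (hB : Ap H B)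
    (h : (sf H).card < B.card) :
    ((TT (sf H).card B.card : ℕ) : ℝ) *
      (1 - 10 ^ 9 * (Real.log (B.card + 1) / Real.sqrt B.card)) ≤ ((XX H B).card : ℝ) := by
  apply num_real (by omega)
  apply num_int (sf_card_pos H) h
  intro q δ β Λ hq hδ hβ hΛ
  exact seven ⟨hB, hq, h, hδ, hβ, hΛ⟩

/-- `asm`, `concl_small` with `real_step'`, `concl_large` with `real_step` (`2 m ≤ 2 M + h ≤ 3 M`). -/
theorem lower {n m : ℕ} (hm : 1 ≤ m) (hn : 2 * m < n) {A : Finset (ZMod n)} (hA : A.card = m)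
    (hs : ∀ a ∈ A, -a ∉ A) :
    (FF n m : ℝ) * (1 - 4 * 10 ^ 9 * (Real.log (m + 1) / Real.sqrt m)) ≤
      ((SigmaStar A).card : ℝ) := by
  have hn0 : 0 < n := by omega
  have _ : NeZero n := ⟨by omega⟩
  obtain ⟨H, B, hBA, hAp, hXX, hcard⟩ := asm (A := A) hs
  have hS := card_SS_le_SigmaStar A
  have hdvd : (sf H).card ∣ n := by
    rw [card_sf]
    have := AddSubgroup.card_addSubgroup_dvd_card H
    simpa using this
  have hFT : FF n m ≤ TT (sf H).card B.card := FF_le_TT hn0 hdvd (by omega)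
  by_cases h : B.card ≤ (sf H).card
  · apply real_step' hm (le_FF hn0)
    refine hFT.trans ((concl_small hAp h).trans ?_)
    rw [hXX]
    exact hS
  · have hle := Finset.card_le_card hBA
    apply real_step (M := B.card) hm (by omega) (by omega) (le_FF hn0) hFT
    refine (concl_large hAp (by omega)).trans ?_
    rw [hXX]
    exact_mod_cast hS

end Pool.Agent.helper43.Asy
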