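import Pool.Agent.helper43.Rho.Main

/-!
Project ASY (problem MP_2e436f_co), paper proof by helper99 (/team-store/2e436f_asym_helper99.md).
Definitions. Everything happens in a finite abelian group `G` with a fixed subgroup `H`; `sf H` is
the finset of the elements of `H`, `(sf H).card` plays the role of `h`.
-/

open Finset Pool.Agent.helper43.Rho

set_option linter.unusedSectionVars false

namespace Pool.Agent.helper43.Asy

/-- `x` rounded up to a multiple of `h` -/
def rd (h x : ℕ) : ℕ := h * ((x + h - 1) / h)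

/-- `h + ∑_{j = 1}^{M} rd h j` -/
def TT (h M : ℕ) : ℕ := h + ∑ j ∈ Icc 1 M, rd h j

/-- the asymptotic value of the minimum -/
noncomputable def FF (n m : ℕ) : ℕ :=
  sInf {v : ℕ | ∃ h : ℕ, h ∣ n ∧
    v = h * (1 + ∑ i ∈ Finset.range (m - (h - 1) / 2), (i / h + 1))}

variable {G : Type*} [AddCommGroup G] [DecidableEq G]

/-- `X` is a union of cosets of `H` -/
def Per (H : AddSubgroup G) (X : Finset G) : Prop := ∀ x ∈ X, ∀ k ∈ H, x + k ∈ X

variable [Fintype G]

/-- `H + SS E` -/
noncomputable def XX (H : AddSubgroup G) (E : Finset G) : Finset G := sumS (sf H) (SS E)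

/-- the hypothesis under which everything is done: `B` is asymmetric and disjoint from `H`, and
only the elements of `H` stabilise `H + SS B` -/
structure Ap (H : AddSubgroup G) (B : Finset G) : Prop where
  asym : Asym B
  out : ∀ b ∈ B, b ∉ H
  st : ∀ x, (∀ s ∈ XX H B, s + x ∈ XX H B) → x ∈ H

/-- the subgroup generated by `R` and `H` -/
def LL (H : AddSubgroup G) (R : Finset G) : AddSubgroup G :=
  AddSubgroup.closure (R : Set G) ⊔ H

/-- `(R ∪ -R ∪ {0}) + H` -/
noncomputable def CR (H : AddSubgroup G) (R : Finset G) : Finset G := sumS (CC R) (sf H)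

/-- iterated sumsets of `CR H R`, starting from `H` -/
noncomputable def DR (H : AddSubgroup G) (R : Finset G) : ℕ → Finset G
  | 0 => sf H
  | k + 1 => sumS (DR H R k) (CR H R)

/-- isoperimetric inequality with gain `2 p` -/
def Iso (H : AddSubgroup G) (R : Finset G) (p : ℕ) : Prop :=
  ∀ Y : Finset G, Y ⊆ sf (LL H R) → Y.Nonempty →
    (sumS Y (CR H R)).card < (sf (LL H R)).card → Y.card + 2 * p ≤ (sumS Y (CR H R)).card

/-- the minority part of `X` modulo `L` (in every coset of `L` filled by more than half, `X` is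
replaced by its complement in the coset) -/
noncomputable def UU (X : Finset G) (L : AddSubgroup G) : Finset G := mino X L (sf L).card

/-- the parameters of the process -/
structure Par (H : AddSubgroup G) (B : Finset G) (q δ β Λ : ℕ) : Prop where
  ap : Ap H B
  hq : 2 ≤ q
  hM : (sf H).card < B.card
  hδ : 800 * rd (sf H).card B.card ≤ δ ^ 2
  hβ : (q + 2) ^ β * (2 * (q + 2) * B.card) < (q + 3) ^ β
  hΛ : 3200 * (XX H B).card ≤ Λ ^ 2

/-- `y L` is an element of `XX H B` whose coset modulo `L` is not contained in `XX H B` -/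
def Hole (H : AddSubgroup G) (B : Finset G) (y : AddSubgroup G → G) : Prop :=
  ∀ L : AddSubgroup G, ¬ L ≤ H → y L ∈ XX H B ∧ ∃ k ∈ L, y L + k ∉ XX H B

/-- condition (3) of the process for the set `E` (with `R = B \ E`, `L = LL H R`) -/
def Three (H : AddSubgroup G) (B : Finset G) (q β : ℕ) (y : AddSubgroup G → G) (E : Finset G)
    (e b K : ℕ) : Prop :=
  e = 0 ∨ (2 ^ K * (sf (LL H (B \ E))).card ≤ 2 * (XX H B).card ∧ e ≤ K * β + b ∧ b ≤ β ∧
    (q + 3) ^ b ≤ (q + 2) ^ b * (co (XX H E) (LL H (B \ E)) (y (LL H (B \ E)))).card)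

/-- the invariant of the process: `i = |B \ E|` elements are left -/
structure Inv (H : AddSubgroup G) (B : Finset G) (q δ β Λ : ℕ) (y : AddSubgroup G → G) (i : ℕ)
    (E : Finset G) (a e b K : ℕ) : Prop where
  sub : E ⊆ B
  card : E.card + i = B.card
  one : (q - 1) * ∑ j ∈ Ioc i B.card, rd (sf H).card (j - δ) + q * (sf H).card ≤
    q * (XX H E).card + (q - 1) * (2 * B.card * a + Λ * e)
  two : (q + 3) ^ a ≤ (q + 2) ^ a * (XX H E).card
  two' : a ≤ β
  three : Three H B q β y E e b K

end Pool.Agent.helper43.Asy
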