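import Pool.Agent.helper43.Asy.Strong

/-! ASY-Dich: the three kinds of steps of the process (section 6 of the paper proof). -/

open Finset Pool.Agent.helper43.Rho

set_option linter.unusedSectionVars false

namespace Pool.Agent.helper43.Asy

variable {G : Type*} [AddCommGroup G] [DecidableEq G] [Fintype G]

/-- Write `R = B \ E`, `|R| = i`, `X = XX H E`, `L = LL H R`, `h = |H|`, `p = rd h (i - δ)`,
`M = |B|`, `Y = XX H B`. Suppose the first alternative fails. If `i ≤ h`, then
`p ≤ h ≤ lam X r` for any `r ∈ R` (`rd_le_h`, `Ap.lam_ge`), and the first alternative holds; so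
`h < i`; also `p ≥ 1`. `p ≤ rd h i ≤ 2 i` (`rd_mono`, `rd_le_two`), `p ≤ rd h M ≤ 2 M`.
`Iso H R p` by `strong` (`rd h i ≤ rd h M`). By `card_sq_le_LL`, `i^2 ≤ 400 |L|`, and `i > 6400 q`,
so `|L| ≥ 16 q i ≥ 2 q p`. By `step_i` (contrapositive) every part `co (UU X L) L s` has fewer
than `q p` elements. By `step_ii` there is `r ∈ R` with `|UU X L| ≤ (q + 2) lam X r`, and as the
first alternative fails, `q lam X r < (q-1) p`, `lam X r < p`, `|UU X L| < (q + 2) p`.

If `2 |X| ≤ |L|`: `UU X L = X` (`UU_eq`), second alternative (`(q+2) p ≤ 2 (q+2) M`).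

If `2 |X| > |L|`: `Z = co X L (y L)` is nonempty (`co_nonempty_of_mem`, `B \ R = E`, `Hole`; `¬ L ≤ H` by
`Ap.LL_not_le`). By `hole` and `quad` (for `hB.subset`), `|L| - |Z| ≥ |XX H R| ≥ i^2 / 3200 > 2 q i ≥ q p`.
By `card_co_UU`: if `2 |Z| > |L|` the part of `UU X L` in the coset of `y L` has
`|L| - |Z| > q p` elements, a contradiction. So `2 |Z| ≤ |L|` and the part is `|Z| < q p`.
`step_iii` for `V = Z` (`per_co`) gives `r ∈ R` with `|Z| ≤ (q + 2) lam Z r`.
`|Z| < q p ≤ 2 q M`. Finally `4 i^2 ≤ 1600 |L| ≤ 3200 |X| ≤ 3200 |Y| ≤ Λ^2`, so `p ≤ 2 i ≤ Λ`. -/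
theorem dich {H : AddSubgroup G} {B : Finset G} {q δ β Λ : ℕ} (hP : Par H B q δ β Λ)
    {y : AddSubgroup G → G} (hy : Hole H B y) {E : Finset G} (hE : E ⊆ B) {i : ℕ}
    (hi : E.card + i = B.card) (hiq : 6400 * q < i) :
    (∃ r ∈ B \ E, (q - 1) * rd (sf H).card (i - δ) ≤ q * lam (XX H E) r) ∨
    (∃ r ∈ B \ E, (XX H E).card ≤ (q + 2) * lam (XX H E) r ∧
      (XX H E).card < 2 * (q + 2) * B.card ∧ rd (sf H).card (i - δ) ≤ 2 * B.card) ∨
    (∃ r ∈ B \ E,
      (co (XX H E) (LL H (B \ E)) (y (LL H (B \ E)))).Nonempty ∧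
      (co (XX H E) (LL H (B \ E)) (y (LL H (B \ E)))).card ≤
        (q + 2) * lam (co (XX H E) (LL H (B \ E)) (y (LL H (B \ E)))) r ∧
      (co (XX H E) (LL H (B \ E)) (y (LL H (B \ E)))).card < 2 * (q + 2) * B.card ∧
      rd (sf H).card (i - δ) ≤ Λ ∧ (sf (LL H (B \ E))).card ≤ 2 * (XX H E).card) := by
  classical
  by_cases h1 : ∃ r ∈ B \ E, (q - 1) * rd (sf H).card (i - δ) ≤ q * lam (XX H E) r
  · exact Or.inl h1
  right
  push Not at h1
  have hB := hP.ap
  generalize hR : B \ E = R at h1 ⊢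
  generalize hp : rd (sf H).card (i - δ) = p at h1 ⊢
  have hRB : R ⊆ B := by rw [← hR]; exact Finset.sdiff_subset
  have hRcard : R.card = i := by
    rw [← hR, Finset.card_sdiff_of_subset hE]; omega
  have hRne : R.Nonempty := by
    rw [← Finset.card_pos]; omega
  have hBR : B \ R = E := by rw [← hR]; exact Finset.sdiff_sdiff_eq_self hE
  have hq := hP.hq
  have hih : (sf H).card < i := by
    by_contra hc
    push Not at hc
    obtain ⟨r, hr⟩ := hRne
    have h2 := hB.lam_ge hE (hRB hr)
    have h3 : p ≤ (sf H).card := by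
      rw [← hp]; exact rd_le_h (by omega)
    have h4 := h1 r hr
    have h5 : (q - 1) * p ≤ q * lam (XX H E) r :=
      Nat.mul_le_mul (by omega) (h3.trans h2)
    omega
  have hp1 : 1 ≤ p := by
    by_contra hc
    have h0 : p = 0 := by omega
    obtain ⟨r, hr⟩ := hRne
    have h4 := h1 r hr
    rw [h0] at h4
    simp at h4
  have hp2 : p ≤ 2 * i := by
    rw [← hp]
    exact (rd_mono (by omega)).trans (rd_le_two hih.le)
  have hRM : R.card ≤ B.card := Finset.card_le_card hRB
  have hpM : p ≤ 2 * B.card := by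
    rw [← hp]
    exact (rd_mono (by omega)).trans (rd_le_two hP.hM.le)
  have hIso : Iso H R p := by
    have h2 := strong hB hRB (δ := δ)
      ((Nat.mul_le_mul_left 800 (rd_mono hRM)).trans hP.hδ)
    rw [hRcard, hp] at h2
    exact h2
  have hL1 : i ^ 2 ≤ 400 * (sf (LL H R)).card := by
    have := card_sq_le_LL hB hRB
    rwa [hRcard] at this
  have hii : 6400 * q * i ≤ i ^ 2 := by
    rw [pow_two]; exact Nat.mul_le_mul_right i hiq.le
  have hqi : q * p ≤ q * (2 * i) := Nat.mul_le_mul_left q hp2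
  have hqe : q * (2 * i) = 2 * (q * i) := by ring
  have hii' : 6400 * q * i = 6400 * (q * i) := by ring
  have hLq : 2 * q * p ≤ (sf (LL H R)).card := by
    have e1 : 2 * q * p = 2 * (q * p) := by ring
    omega
  have hX := per_XX H E
  have hsmall : ∀ s, (co (UU (XX H E) (LL H R)) (LL H R) s).card < q * p := by
    intro s
    by_contra hc
    push Not at hc
    obtain ⟨r, hr, h2⟩ := step_i hIso hp1 (by omega) hRne hX hc
    have := h1 r hr
    omega
  by_cases hA : 2 * (XX H E).card ≤ (sf (LL H R)).card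
  · left
    obtain ⟨r, hr, h2⟩ := step_ii hIso hp1 (by omega) hRne hLq hX
      (fun s _ => (hsmall s).le)
    have hU : UU (XX H E) (LL H R) = XX H E := by
      apply UU_eq
      intro s _
      have h3 : (co (XX H E) (LL H R) s).card ≤ (XX H E).card := by
        apply Finset.card_le_card
        intro z hz
        exact (mem_co.1 hz).1
      omega
    rw [hU] at h2
    have h4 := h1 r hr
    have h5 : lam (XX H E) r < p := by
      by_contra hc
      push Not at hc
      have h6 : (q - 1) * p ≤ q * lam (XX H E) r := Nat.mul_le_mul (by omega) hc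
      omega
    refine ⟨r, hr, h2, ?_, hpM⟩
    calc (XX H E).card ≤ (q + 2) * lam (XX H E) r := h2
      _ < (q + 2) * p := Nat.mul_lt_mul_of_pos_left h5 (by omega)
      _ ≤ (q + 2) * (2 * B.card) := Nat.mul_le_mul_left _ hpM
      _ = 2 * (q + 2) * B.card := by ring
  · right
    push Not at hA
    have hLH : ¬ LL H R ≤ H := hB.LL_not_le hRB hRne
    obtain ⟨hyB, hyk⟩ := hy (LL H R) hLH
    have hne := co_nonempty_of_mem hRB hyB
    have hho := hole hRB hyk
    rw [hBR] at hne hho
    have hqd : i ^ 2 ≤ 3200 * (XX H R).card := by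
      have := quad (hB.subset hRB)
      rwa [hRcard] at this
    have hipos : 0 < i := by omega
    have hii2 : 6400 * q * i < i ^ 2 := by
      rw [pow_two]; exact Nat.mul_lt_mul_of_pos_right hiq hipos
    have hXR : q * p < (XX H R).card := by omega
    have hco := card_co_UU (X := XX H E) (L := LL H R) (y (LL H R))
    have hsm := hsmall (y (LL H R))
    have hZ : (co (XX H E) (LL H R) (y (LL H R))).card < q * p := by
      by_cases hc : 2 * (co (XX H E) (LL H R) (y (LL H R))).card ≤ (sf (LL H R)).card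
      · rw [if_pos hc] at hco
        omega
      · rw [if_neg hc] at hco
        omega
    obtain ⟨r, hr, h2⟩ := step_iii hIso hp1 (by omega) hRne hLq
      (per_co hX (le_LL H R) (y (LL H R))) hZ.le
    refine ⟨r, hr, hne, h2, ?_, ?_, ?_⟩
    · calc (co (XX H E) (LL H R) (y (LL H R))).card < q * p := hZ
        _ ≤ (q + 2) * (2 * B.card) := Nat.mul_le_mul (by omega) hpM
        _ = 2 * (q + 2) * B.card := by ring
    · have h3 : (XX H E).card ≤ (XX H B).card := Finset.card_le_card (XX_mono hE)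
      have h4 := hP.hΛ
      have h5 : (2 * i) ^ 2 ≤ Λ ^ 2 := by
        have e : (2 * i) ^ 2 = 4 * i ^ 2 := by ring
        rw [e]
        omega
      have h6 : 2 * i ≤ Λ := by
        by_contra hc
        push Not at hc
        have := Nat.pow_lt_pow_left hc (two_ne_zero)
        omega
      omega
    · omega

end Pool.Agent.helper43.Asy
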