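import Pool.Agent.helper43.Asy.Bas

/-! ASY-IsoA: existence of a subgroup with the minimal boundary (2a of the paper proof). -/

open Finset Pool.Agent.helper43.Rho

set_option linter.unusedSectionVars false

namespace Pool.Agent.helper43.Asy

variable {G : Type*} [AddCommGroup G] [DecidableEq G] [Fintype G]

/-- Proof: exactly the proof of `Rho.isoper` (read it in `Rho/Atom.lean`): among the nonempty
`X ⊆ Hf` with `|X + C| < |Hf|` take those minimising `κ = |X + C| - |X|`, and among these one,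
`X0`, with the least number of elements. The dual set `Hf \ (X0 + C)` gives
`2 |X0| + κ ≤ |Hf|`; two minimal sets that meet are equal; so the translate `X` of `X0`
containing `0` satisfies `x, y ∈ X → y - x ∈ X`. Define `Q` to be the subgroup with carrier `X`.
Then `|Y| + κ ≤ |Y + C|` and `|Q + C| = |Q| + κ`. (The last part of the proof of `isoper`,
which uses that `C` generates, is not needed.) -/
theorem exists_atom {Hf C : Finset G}
    (hH : ∀ x ∈ Hf, ∀ y ∈ Hf, x + y ∈ Hf) (hHn : ∀ x ∈ Hf, -x ∈ Hf)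
    (hCH : C ⊆ Hf) (h0 : (0 : G) ∈ C) (hneg : ∀ c ∈ C, -c ∈ C)
    {Y : Finset G} (hY : Y ⊆ Hf) (hYne : Y.Nonempty) (hYC : (sumS Y C).card < Hf.card) :
    ∃ Q : AddSubgroup G, (∀ x ∈ Q, x ∈ Hf) ∧ (sumS (sf Q) C).card < Hf.card ∧
      Y.card + (sumS (sf Q) C).card ≤ (sumS Y C).card + (sf Q).card := by
  classical
  have hsub : ∀ X : Finset G, X ⊆ Hf → sumS X C ⊆ Hf := by
    intro X hX z hz
    rw [mem_sumS] at hz
    obtain ⟨x, hx, c, hc, rfl⟩ := hz
    exact hH _ (hX hx) _ (hCH hc)
  have hle : ∀ X : Finset G, X.card ≤ (sumS X C).card :=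
    fun X => Finset.card_le_card (subset_sumS h0)
  set P : Finset (Finset G) :=
    Hf.powerset.filter (fun X => X.Nonempty ∧ (sumS X C).card < Hf.card) with hP
  have memP : ∀ X, X ∈ P ↔ X ⊆ Hf ∧ X.Nonempty ∧ (sumS X C).card < Hf.card := by
    intro X; simp [hP, Finset.mem_filter, Finset.mem_powerset]
  have hYP : Y ∈ P := (memP Y).2 ⟨hY, hYne, hYC⟩
  obtain ⟨X1, hX1, hmin1⟩ := Finset.exists_min_image P (fun X => (sumS X C).card - X.card) ⟨Y, hYP⟩
  set κ := (sumS X1 C).card - X1.card with hκ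
  have hκle : ∀ X ∈ P, X.card + κ ≤ (sumS X C).card := by
    intro X hX
    have h1 := hmin1 X hX
    have h2 := hle X
    have h3 : κ ≤ (sumS X C).card - X.card := h1
    omega
  obtain ⟨X0, hX0, hmin0⟩ := Finset.exists_min_image
    (P.filter (fun X => (sumS X C).card = X.card + κ)) (fun X => X.card) ⟨X1, by
      rw [Finset.mem_filter]
      refine ⟨hX1, ?_⟩
      have := hle X1
      omega⟩
  rw [Finset.mem_filter] at hX0
  obtain ⟨hX0P, hX0κ⟩ := hX0
  have hmin : ∀ X ∈ P, (sumS X C).card = X.card + κ → X0.card ≤ X.card := by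
    intro X hX hXκ
    exact hmin0 X (by rw [Finset.mem_filter]; exact ⟨hX, hXκ⟩)
  -- size bound through the dual set
  have hdual : 2 * X0.card + κ ≤ Hf.card := by
    have hX0' := (memP X0).1 hX0P
    set D := Hf \ sumS X0 C with hD
    have hDc : D.card = Hf.card - (sumS X0 C).card := Finset.card_sdiff_of_subset (hsub X0 hX0'.1)
    have hDne : D.Nonempty := by rw [← Finset.card_pos]; omega
    have hDX : sumS D C ⊆ Hf \ X0 := by
      intro z hz
      rw [mem_sumS] at hz
      obtain ⟨d, hd, c, hc, rfl⟩ := hz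
      rw [hD, Finset.mem_sdiff] at hd
      rw [Finset.mem_sdiff]
      refine ⟨hH _ hd.1 _ (hCH hc), fun h => hd.2 ?_⟩
      rw [mem_sumS]
      exact ⟨d + c, h, -c, hneg c hc, by abel⟩
    have hDX' : (sumS D C).card ≤ Hf.card - X0.card := by
      rw [← Finset.card_sdiff_of_subset hX0'.1]
      exact Finset.card_le_card hDX
    have hX0pos : 0 < X0.card := hX0'.2.1.card_pos
    have hX0le : X0.card ≤ Hf.card := Finset.card_le_card hX0'.1
    have hDP : D ∈ P := (memP D).2 ⟨Finset.sdiff_subset, hDne, by omega⟩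
    have h1 := hκle D hDP
    have h2 := hmin D hDP (by omega)
    omega
  -- intersecting minimal sets coincide
  have hinter : ∀ X Z : Finset G, X ∈ P → Z ∈ P → (sumS X C).card = X.card + κ →
      (sumS Z C).card = Z.card + κ → X.card = X0.card → Z.card = X0.card →
      (X ∩ Z).Nonempty → X = Z := by
    intro X Z hX hZ hXκ hZκ hXc hZc hne
    have hX' := (memP X).1 hX
    have hZ' := (memP Z).1 hZ
    have hWsub : sumS (X ∩ Z) C ⊆ sumS X C ∩ sumS Z C :=
      Finset.subset_inter (sumS_mono Finset.inter_subset_left)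
        (sumS_mono Finset.inter_subset_right)
    have hWc := Finset.card_le_card hWsub
    have hWX : (sumS (X ∩ Z) C).card ≤ (sumS X C).card :=
      Finset.card_le_card (sumS_mono Finset.inter_subset_left)
    have hWP : X ∩ Z ∈ P :=
      (memP _).2 ⟨Finset.inter_subset_left.trans hX'.1, hne, by omega⟩
    have hW := hκle _ hWP
    have hcu := Finset.card_union_add_card_inter (sumS X C) (sumS Z C)
    rw [← sumS_union] at hcu
    have hcu2 := Finset.card_union_add_card_inter X Z
    have hWpos : 0 < (X ∩ Z).card := hne.card_pos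
    have hVP : X ∪ Z ∈ P := by
      refine (memP _).2 ⟨Finset.union_subset hX'.1 hZ'.1, hX'.2.1.mono Finset.subset_union_left, ?_⟩
      omega
    have hV := hκle _ hVP
    have h1 := hmin _ hWP (by omega)
    have e1 : X ∩ Z = X := Finset.eq_of_subset_of_card_le Finset.inter_subset_left (by omega)
    have e2 : X ∩ Z = Z := Finset.eq_of_subset_of_card_le Finset.inter_subset_right (by omega)
    rw [← e1]; exact e2
  -- translate so that `0` belongs to the minimal set
  have htrP : ∀ X ∈ P, ∀ z ∈ Hf, tr X z ∈ P := by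
    intro X hX z hz
    have hX' := (memP X).1 hX
    refine (memP _).2 ⟨?_, ?_, ?_⟩
    · intro y hy
      rw [mem_tr] at hy
      have := hH _ (hX'.1 hy) _ hz
      simpa using this
    · rw [← Finset.card_pos, card_tr]; exact hX'.2.1.card_pos
    · rw [sumS_tr, card_tr]; exact hX'.2.2
  have hX0' := (memP X0).1 hX0P
  obtain ⟨x0, hx0⟩ := hX0'.2.1
  set X := tr X0 (-x0) with hX
  have hXP : X ∈ P := htrP X0 hX0P _ (hHn _ (hX0'.1 hx0))
  have hX' := (memP X).1 hXP
  have hXc : X.card = X0.card := card_tr _ _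
  have hXκ : (sumS X C).card = X.card + κ := by
    rw [hX, sumS_tr, card_tr, card_tr]; exact hX0κ
  have h0X : (0 : G) ∈ X := by rw [hX, mem_tr]; simpa using hx0
  have hsubX : ∀ x ∈ X, ∀ y ∈ X, y - x ∈ X := by
    intro x hx y hy
    have h1 : tr X (-x) ∈ P := htrP X hXP _ (hHn _ (hX'.1 hx))
    have h2 : (sumS (tr X (-x)) C).card = (tr X (-x)).card + κ := by
      rw [sumS_tr, card_tr, card_tr]; exact hXκ
    have h3 := hinter (tr X (-x)) X h1 hXP h2 hXκ (by rw [card_tr]; exact hXc) hXc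
      ⟨0, by rw [Finset.mem_inter, mem_tr]; exact ⟨by simpa using hx, h0X⟩⟩
    rw [← h3, mem_tr]
    simpa using hy
  let Q : AddSubgroup G :=
    { carrier := {x | x ∈ X}
      zero_mem' := h0X
      add_mem' := by
        intro a b ha hb
        have h1 : (0 : G) - a ∈ X := hsubX a ha 0 h0X
        have h2 := hsubX _ h1 b hb
        have e : b - (0 - a) = a + b := by abel
        rw [e] at h2
        exact h2
      neg_mem' := by
        intro a ha
        have h1 : (0 : G) - a ∈ X := hsubX a ha 0 h0X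
        rw [zero_sub] at h1
        exact h1 }
  have hQ : sf Q = X := by
    ext z
    rw [mem_sf]
    exact Iff.rfl
  refine ⟨Q, fun x hx => hX'.1 hx, ?_, ?_⟩
  · rw [hQ]; exact hX'.2.2
  · rw [hQ]
    have hfin := hκle Y hYP
    omega

/-- Apply `exists_atom` with `Hf = sf (LL H R)`, `C = CR H R` and replace the subgroup `Q0` found
there by `Q = Q0 ⊔ H`: `sumS (sf Q) C = sumS (sf Q0) C` because `H + C = C` (`per_CR`), and
`|Q0| ≤ |Q|`. -/
theorem exists_atom_per {H : AddSubgroup G} {R Y : Finset G} (hY : Y ⊆ sf (LL H R))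
    (hYne : Y.Nonempty) (hYC : (sumS Y (CR H R)).card < (sf (LL H R)).card) :
    ∃ Q : AddSubgroup G, H ≤ Q ∧ Q ≤ LL H R ∧
      (sumS (sf Q) (CR H R)).card < (sf (LL H R)).card ∧
      Y.card + (sumS (sf Q) (CR H R)).card ≤ (sumS Y (CR H R)).card + (sf Q).card := by
  have h1 : ∀ x ∈ sf (LL H R), ∀ y ∈ sf (LL H R), x + y ∈ sf (LL H R) := by
    intro x hx y hy
    rw [mem_sf] at hx hy ⊢
    exact (LL H R).add_mem hx hy
  have h2 : ∀ x ∈ sf (LL H R), -x ∈ sf (LL H R) := by
    intro x hx
    rw [mem_sf] at hx ⊢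
    exact (LL H R).neg_mem hx
  obtain ⟨Q0, hQ0, hQ1, hQ2⟩ := exists_atom h1 h2 (CR_subset (H := H) (R := R))
    (zero_mem_CR (H := H) (R := R)) (fun c hc => neg_mem_CR hc) hY hYne hYC
  have hQL : Q0 ≤ LL H R := fun x hx => (mem_sf x).1 (hQ0 x hx)
  have he : sumS (sf (Q0 ⊔ H)) (CR H R) = sumS (sf Q0) (CR H R) := by
    apply Finset.Subset.antisymm
    · intro z hz
      rw [mem_sumS] at hz ⊢
      obtain ⟨x, hx, c, hc, rfl⟩ := hz
      rw [mem_sf] at hx
      obtain ⟨q, hq, k, hk, rfl⟩ := AddSubgroup.mem_sup.1 hx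
      exact ⟨q, (mem_sf q).2 hq, c + k, per_CR c hc k hk, by abel⟩
    · exact sumS_mono (sf_mono le_sup_left)
  refine ⟨Q0 ⊔ H, le_sup_right, sup_le hQL (le_LL H R), ?_, ?_⟩
  · rw [he]; exact hQ1
  · rw [he]
    have h3 : (sf Q0).card ≤ (sf (Q0 ⊔ H)).card := Finset.card_le_card (sf_mono le_sup_left)
    omega

end Pool.Agent.helper43.Asy
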