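import Pool.Agent.helper43.Asy.Defs

/-! ASY-Rd: arithmetic of `rd`. -/

open Finset Pool.Agent.helper43.Rho

namespace Pool.Agent.helper43.Asy

theorem rd_zero {h : ℕ} (hh : 0 < h) : rd h 0 = 0 := by
  unfold rd
  rw [Nat.div_eq_of_lt (by omega), mul_zero]

theorem rd_mono {h x y : ℕ} (hxy : x ≤ y) : rd h x ≤ rd h y := by
  unfold rd
  exact Nat.mul_le_mul_left _ (Nat.div_le_div_right (by omega))

theorem le_rd {h x : ℕ} (hh : 0 < h) : x ≤ rd h x := by
  unfold rd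
  have h1 := Nat.div_add_mod (x + h - 1) h
  have h2 := Nat.mod_lt (x + h - 1) hh
  omega

theorem rd_le {h x : ℕ} : rd h x ≤ x + h := by
  unfold rd
  have h1 := Nat.mul_div_le (x + h - 1) h
  omega

theorem rd_le_two {h x : ℕ} (hx : h ≤ x) : rd h x ≤ 2 * x := by
  have := rd_le (h := h) (x := x)
  omega

/-- For `1 ≤ x ≤ h` the rounded value is `h`. -/
theorem rd_eq {h x : ℕ} (h1 : 1 ≤ x) (h2 : x ≤ h) : rd h x = h := by
  unfold rd
  have hq : (x + h - 1) / h = 1 := by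
    apply Nat.div_eq_of_lt_le
    · omega
    · omega
  rw [hq, mul_one]

theorem rd_le_h {h x : ℕ} (h2 : x ≤ h) : rd h x ≤ h := by
  rcases Nat.eq_zero_or_pos x with hx | hx
  · subst hx
    rcases Nat.eq_zero_or_pos h with hh | hh
    · subst hh
      simp [rd]
    · rw [rd_zero hh]
      exact Nat.zero_le _
  · exact (rd_eq hx h2).le

theorem dvd_rd (h x : ℕ) : h ∣ rd h x := ⟨_, rfl⟩

theorem rd_least {h x W : ℕ} (hh : 0 < h) (hW : h ∣ W) (hx : x ≤ W) : rd h x ≤ W := by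
  obtain ⟨k, rfl⟩ := hW
  unfold rd
  apply Nat.mul_le_mul_left
  have h1 : (x + h - 1) / h < k + 1 := by
    rw [Nat.div_lt_iff_lt_mul hh]
    have : (k + 1) * h = h * k + h := by ring
    omega
  omega

theorem rd_succ {h i : ℕ} (hh : 0 < h) : rd h (i + 1) = h * (i / h + 1) := by
  unfold rd
  rw [show i + 1 + h - 1 = i + h by omega, Nat.add_div_right _ hh]

private theorem rd_step {h : ℕ} (hh : 0 < h) (δ M : ℕ) :
    ∑ j ∈ Icc 1 M, rd h (j - δ) = ∑ j ∈ Icc 1 M, rd h (j - (δ + 1)) + rd h (M - δ) := by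
  induction M with
  | zero => simp [rd_zero hh]
  | succ M ih =>
    rw [Finset.sum_Icc_succ_top (by omega), Finset.sum_Icc_succ_top (by omega), ih,
      show M + 1 - (δ + 1) = M - δ by omega]

/-- Telescoping: for a monotone `f` with `f 0 = 0`,
`∑_{j ≤ M} f j ≤ ∑_{j ≤ M} f (j - δ) + δ f M`. -/
theorem sum_rd_shift {h : ℕ} (hh : 0 < h) (M δ : ℕ) :
    ∑ j ∈ Icc 1 M, rd h j ≤ ∑ j ∈ Icc 1 M, rd h (j - δ) + δ * rd h M := by
  induction δ with
  | zero => simp
  | succ δ ih =>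
    have h1 := rd_step hh δ M
    have h2 : rd h (M - δ) ≤ rd h M := rd_mono (Nat.sub_le _ _)
    rw [add_mul, one_mul]
    omega

/-- `∑_{j ≤ M} rd h j ≥ M (M + 1) / 2` -/
theorem sum_rd_ge {h : ℕ} (hh : 0 < h) (M : ℕ) : M * (M + 1) ≤ 2 * ∑ j ∈ Icc 1 M, rd h j := by
  induction M with
  | zero => simp
  | succ M ih =>
    rw [Finset.sum_Icc_succ_top (by omega)]
    have h1 : M + 1 ≤ rd h (M + 1) := le_rd hh
    nlinarith

/-- `∑_{j ≤ M} rd h j = ∑_{i < M} h (i / h + 1)` -/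
theorem sum_rd_eq {h : ℕ} (hh : 0 < h) (M : ℕ) :
    ∑ j ∈ Icc 1 M, rd h j = h * ∑ i ∈ Finset.range M, (i / h + 1) := by
  induction M with
  | zero => simp
  | succ M ih =>
    rw [Finset.sum_Icc_succ_top (by omega), ih, Finset.sum_range_succ, mul_add, rd_succ hh]

end Pool.Agent.helper43.Asy
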