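import Pool.Agent.helper43.Asy.Bas
import Pool.Agent.helper43.Asy.Rd
import Pool.Agent.helper43.Rho.Struct

/-! ASY-IsoB: the two lower bounds for `|Q + CR H R|` (2b of the paper proof). -/

open Finset Pool.Agent.helper43.Rho

set_option linter.unusedSectionVars false

namespace Pool.Agent.helper43.Asy

variable {G : Type*} [AddCommGroup G] [DecidableEq G] [Fintype G]

/-- `Q` and `r + Q` are disjoint subsets of `Q + CR H R`. -/
theorem q_two {H Q : AddSubgroup G} {R : Finset G} (hRQ : ∃ r ∈ R, r ∉ Q) :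
    2 * (sf Q).card ≤ (sumS (sf Q) (CR H R)).card := by
  obtain ⟨r, hr, hrQ⟩ := hRQ
  have h1 : sf Q ⊆ sumS (sf Q) (CR H R) := subset_sumS zero_mem_CR
  have h2 : (sf Q).image (fun x => x + r) ⊆ sumS (sf Q) (CR H R) := by
    intro z hz
    obtain ⟨x, hx, rfl⟩ := Finset.mem_image.1 hz
    exact mem_sumS.2 ⟨x, hx, r, mem_CR_of_CC (mem_CC_of_mem hr), rfl⟩
  have hd : Disjoint (sf Q) ((sf Q).image (fun x => x + r)) := by
    rw [Finset.disjoint_left]
    intro z hz hz'
    obtain ⟨x, hx, rfl⟩ := Finset.mem_image.1 hz'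
    rw [mem_sf] at hz hx
    exact hrQ ((Q.add_mem_cancel_left hx).1 hz)
  have h3 := Finset.card_le_card (Finset.union_subset h1 h2)
  rw [Finset.card_union_of_disjoint hd,
    Finset.card_image_of_injective _ (add_left_injective r)] at h3
  omega

/-- An `H`-periodic set `W` closed under negation, with `2 x ∉ H` for all `x ∈ W`, has
`|W| = 2 h u` for some `u`: by `Per.card_eq`, `|W| = |image| * h`, and negation is an involution
without fixed points on the image of `W` in `G ⧸ H` (`-x + H = x + H` iff `2 x ∈ H`), so the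
image has an even number of elements (`Finset.card_involution`-type lemma: for example
`Finset.sum_involution` for the sum of `1 : ZMod 2`, or `Finset.even_card_of_involution`). -/
theorem card_two_mul {H : AddSubgroup G} {W : Finset G} (hW : Per H W)
    (hneg : ∀ x ∈ W, -x ∈ W) (h2 : ∀ x ∈ W, x + x ∉ H) :
    ∃ u, W.card = 2 * ((sf H).card * u) := by
  classical
  have he : Even (W.image (fun x => (QuotientAddGroup.mk x : G ⧸ H))).card := by
    have h0 : ∑ _x ∈ W.image (fun x => (QuotientAddGroup.mk x : G ⧸ H)), (1 : ZMod 2) = 0 := by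
      refine Finset.sum_involution (fun a _ => -a) ?_ ?_ ?_ ?_
      · intro a _
        decide
      · intro a ha _ h
        obtain ⟨x, hx, rfl⟩ := Finset.mem_image.1 ha
        rw [← QuotientAddGroup.mk_neg, QuotientAddGroup.eq] at h
        apply h2 x hx
        simpa using h
      · intro a ha
        obtain ⟨x, hx, rfl⟩ := Finset.mem_image.1 ha
        exact Finset.mem_image.2 ⟨-x, hneg x hx, rfl⟩
      · intro a _
        exact neg_neg a
    rw [Finset.sum_const, nsmul_eq_mul, mul_one] at h0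
    exact (ZMod.natCast_eq_zero_iff_even).1 h0
  obtain ⟨u, hu⟩ := he
  refine ⟨u, ?_⟩
  rw [hW.card_eq, hu]
  ring

/-- With `R' = outs R Q` and `W = sumS (R' ∪ -R') (sf H)`: `W` is disjoint from `Q` (as `H ≤ Q`)
and both are contained in `Q + CR H R`, so it is enough that `|W| ≥ 2 rd |R'|`. `W` is periodic,
closed under negation, `2 x = ± 2 r + 2 k ∉ H` on `W`, so `|W| = 2 h u` by `card_two_mul`; and
`|W| ≥ |R' ∪ -R'| = 2 |R'|` (`Rho.card_sym`), so `|R'| ≤ h u` and `rd |R'| ≤ h u` by
`rd_least`. -/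
theorem q_out {H Q : AddSubgroup G} {R : Finset G} (hHQ : H ≤ Q) (hR : Asym R)
    (h2 : ∀ r ∈ R, r + r ∉ H) :
    (sf Q).card + 2 * rd (sf H).card (outs R Q).card ≤ (sumS (sf Q) (CR H R)).card := by
  classical
  set R' := outs R Q with hR'
  have hsub : R' ⊆ R := fun x hx => (mem_outs.1 hx).1
  have hout : ∀ x ∈ R', x ∉ Q := fun x hx => (mem_outs.1 hx).2
  set S := R' ∪ R'.image (fun x => -x) with hS
  set W := sumS S (sf H) with hW
  have hmem : ∀ z, z ∈ W ↔ ∃ r ∈ R', ∃ k ∈ H, r + k = z ∨ -r + k = z := by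
    intro z
    rw [hW, mem_sumS]
    constructor
    · rintro ⟨x, hx, k, hk, rfl⟩
      rw [mem_sf] at hk
      rw [hS, Finset.mem_union, Finset.mem_image] at hx
      rcases hx with hx | ⟨y, hy, rfl⟩
      · exact ⟨x, hx, k, hk, Or.inl rfl⟩
      · exact ⟨y, hy, k, hk, Or.inr rfl⟩
    · rintro ⟨r, hr, k, hk, h | h⟩
      · exact ⟨r, Finset.mem_union_left _ hr, k, (mem_sf k).2 hk, h⟩
      · exact ⟨-r, Finset.mem_union_right _ (Finset.mem_image_of_mem _ hr), k, (mem_sf k).2 hk, h⟩
  have hper : Per H W := by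
    apply per_sumS
    intro x hx k hk
    rw [mem_sf] at hx ⊢
    exact H.add_mem hx hk
  have hWneg : ∀ x ∈ W, -x ∈ W := by
    intro x hx
    rw [hmem] at hx ⊢
    obtain ⟨r, hr, k, hk, h⟩ := hx
    refine ⟨r, hr, -k, H.neg_mem hk, ?_⟩
    rcases h with rfl | rfl
    · right
      abel
    · left
      abel
  have hW2 : ∀ x ∈ W, x + x ∉ H := by
    intro x hx h
    rw [hmem] at hx
    obtain ⟨r, hr, k, hk, h'⟩ := hx
    apply h2 r (hsub hr)
    rcases h' with rfl | rfl
    · have h3 := H.sub_mem h (H.add_mem hk hk)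
      have h4 : r + k + (r + k) - (k + k) = r + r := by abel
      rwa [h4] at h3
    · have h3 := H.sub_mem (H.add_mem hk hk) h
      have h4 : k + k - (-r + k + (-r + k)) = r + r := by abel
      rwa [h4] at h3
  obtain ⟨u, hu⟩ := card_two_mul hper hWneg hW2
  have hAs : Asym R' := hR.subset hsub
  have hc := card_sym hAs
  have hSW : S ⊆ W := subset_sumS ((mem_sf 0).2 H.zero_mem)
  have hSW' := Finset.card_le_card hSW
  rw [hS, hc, hu] at hSW'
  have hrd : rd (sf H).card R'.card ≤ (sf H).card * u :=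
    rd_least (sf_card_pos H) (Dvd.intro u rfl) (by omega)
  have hd : Disjoint (sf Q) W := by
    rw [Finset.disjoint_left]
    intro z hz hz'
    rw [mem_sf] at hz
    rw [hmem] at hz'
    obtain ⟨r, hr, k, hk, h⟩ := hz'
    apply hout r hr
    rcases h with rfl | rfl
    · exact (Q.add_mem_cancel_right (hHQ hk)).1 hz
    · have h5 := (Q.add_mem_cancel_right (hHQ hk)).1 hz
      exact neg_mem_iff.1 h5
  have hsub1 : sf Q ⊆ sumS (sf Q) (CR H R) := subset_sumS zero_mem_CR
  have hsub2 : W ⊆ sumS (sf Q) (CR H R) := by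
    intro z hz
    rw [hmem] at hz
    obtain ⟨r, hr, k, hk, h⟩ := hz
    refine mem_sumS.2 ⟨0, (mem_sf 0).2 Q.zero_mem, z, ?_, zero_add z⟩
    rw [mem_CR]
    rcases h with h | h
    · exact ⟨r, mem_CC_of_mem (hsub hr), k, hk, h⟩
    · exact ⟨-r, neg_mem_CC_of_mem (hsub hr), k, hk, h⟩
  have h6 := Finset.card_le_card (Finset.union_subset hsub1 hsub2)
  rw [Finset.card_union_of_disjoint hd, hu] at h6
  omega

end Pool.Agent.helper43.Asy
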