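import Pool.Agent.helper43.Asy.Bas

/-! ASY-IsoC: weak isoperimetry and growth of `DR` (2c, 2d of the paper proof). -/

open Finset Pool.Agent.helper43.Rho

set_option linter.unusedSectionVars false

namespace Pool.Agent.helper43.Asy

variable {G : Type*} [AddCommGroup G] [DecidableEq G] [Fintype G]

private theorem sumS_CR_subset {H : AddSubgroup G} {R X : Finset G} (hX : X ⊆ sf (LL H R)) :
    sumS X (CR H R) ⊆ sf (LL H R) := by
  intro z hz
  rw [mem_sumS] at hz
  obtain ⟨x, hx, c, hc, rfl⟩ := hz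
  rw [mem_sf]
  exact (LL H R).add_mem ((mem_sf _).1 (hX hx)) ((mem_sf _).1 (CR_subset hc))

/-- `Rho.isoper` with `Hf = sf (LL H R)`, `C = CR H R` (generating by `CR_gen`) gives
`2 |Y| + |CR| ≤ 2 |Y + CR|`, and `|CR| ≥ |CC R| = 2 |R| + 1` (`Rho.card_CC`). -/
theorem iso_weak {H : AddSubgroup G} {R : Finset G} (hR : Asym R) {p : ℕ}
    (hp : 2 * p ≤ R.card) : Iso H R p := by
  intro Y hY hne hlt
  have h1 := isoper (Hf := sf (LL H R)) (C := CR H R)
    (fun x hx y hy => (mem_sf _).2 ((LL H R).add_mem ((mem_sf _).1 hx) ((mem_sf _).1 hy)))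
    (fun x hx => (mem_sf _).2 ((LL H R).neg_mem ((mem_sf _).1 hx)))
    CR_subset zero_mem_CR (fun c hc => neg_mem_CR hc)
    (fun X hX hXne hXC => CR_gen hX hXne hXC) hY hne hlt
  have h2 : (CC R).card ≤ (CR H R).card := Finset.card_le_card (fun r hr => mem_CR_of_CC hr)
  rw [card_CC hR] at h2
  omega

theorem DR_subset {H : AddSubgroup G} {R : Finset G} (k : ℕ) : DR H R k ⊆ sf (LL H R) := by
  induction k with
  | zero => exact sf_mono (le_LL H R)
  | succ k ih => exact sumS_CR_subset ih

theorem DR_mono {H : AddSubgroup G} {R : Finset G} {j k : ℕ} (h : j ≤ k) :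
    DR H R j ⊆ DR H R k := by
  induction k, h using Nat.le_induction with
  | base => exact Finset.Subset.refl _
  | succ k _ ih => exact ih.trans (subset_sumS zero_mem_CR)

theorem DR_nonempty {H : AddSubgroup G} {R : Finset G} (k : ℕ) : (DR H R k).Nonempty :=
  ⟨0, DR_mono (Nat.zero_le k) ((mem_sf (0 : G)).2 H.zero_mem)⟩

/-- Induction on `k`: if `|DR (k+1)| < |L|` then `Iso` for `Y = DR k` gives
`|DR k| + 2 p ≤ |DR (k+1)|`, and `|DR k| ≤ |DR (k+1)| < |L|`. -/
theorem DR_growth {H : AddSubgroup G} {R : Finset G} {p : ℕ} (hI : Iso H R p) (k : ℕ)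
    (hk : (DR H R k).card < (sf (LL H R)).card) :
    (sf H).card + 2 * p * k ≤ (DR H R k).card := by
  induction k with
  | zero => simp [DR]
  | succ k ih =>
    have h1 : (DR H R k).card ≤ (DR H R (k + 1)).card :=
      Finset.card_le_card (DR_mono (Nat.le_succ k))
    have h2 := ih (lt_of_le_of_lt h1 hk)
    have h3 : (DR H R k).card + 2 * p ≤ (sumS (DR H R k) (CR H R)).card :=
      hI (DR H R k) (DR_subset k) (DR_nonempty k) hk
    have h4 : (sumS (DR H R k) (CR H R)).card = (DR H R (k + 1)).card := rfl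
    have h5 : 2 * p * (k + 1) = 2 * p * k + 2 * p := by ring
    omega

/-- Otherwise `DR_growth` holds for all `k`, which is absurd for `k = |G|`. -/
theorem exists_DR_full {H : AddSubgroup G} {R : Finset G} {p : ℕ} (hI : Iso H R p)
    (hp : 1 ≤ p) : ∃ k, (DR H R k).card = (sf (LL H R)).card := by
  by_contra hcon
  push Not at hcon
  have h1 : (DR H R (sf (LL H R)).card).card < (sf (LL H R)).card :=
    lt_of_le_of_ne (Finset.card_le_card (DR_subset _)) (hcon _)
  have h2 := DR_growth hI _ h1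
  have h3 : 1 * (sf (LL H R)).card ≤ 2 * p * (sf (LL H R)).card :=
    Nat.mul_le_mul_right _ (by omega)
  omega

end Pool.Agent.helper43.Asy
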