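import Pool.Agent.helper43.Asy.Rd
import Mathlib

/-! ASY-NumA: the choice of `β` (section 7 of the paper proof). -/

open Finset Pool.Agent.helper43.Rho

namespace Pool.Agent.helper43.Asy

private theorem NumA_ber (x k : ℕ) : x ^ (k + 1) + (k + 1) * x ^ k ≤ (x + 1) ^ (k + 1) := by
  induction k with
  | zero => simp
  | succ k ih =>
    have h1 : (x ^ (k + 1) + (k + 1) * x ^ k) * (x + 1) ≤ (x + 1) ^ (k + 1) * (x + 1) :=
      Nat.mul_le_mul_right _ ih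
    have h2 : (x ^ (k + 1) + (k + 1) * x ^ k) * (x + 1) =
        x ^ (k + 1 + 1) + (k + 1 + 1) * x ^ (k + 1) + (k + 1) * x ^ k := by ring
    rw [h2, ← pow_succ] at h1
    omega

private theorem NumA_two (q : ℕ) : 2 * (q + 2) ^ (q + 2) ≤ (q + 3) ^ (q + 2) := by
  have h := NumA_ber (q + 2) (q + 1)
  have h1 : (q + 1 + 1) * (q + 2) ^ (q + 1) = (q + 2) ^ (q + 2) := by ring
  rw [h1] at h
  have h2 : (q + 2) ^ (q + 1 + 1) = (q + 2) ^ (q + 2) := rfl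
  have h3 : (q + 2 + 1) ^ (q + 1 + 1) = (q + 3) ^ (q + 2) := rfl
  rw [h2, h3] at h
  omega

/-- `(1 + 1/(q+2))^(q+2) ≥ 2`, that is `2 (q+2)^(q+2) ≤ (q+3)^(q+2)` (Bernoulli,
`one_add_mul_le_pow`, or the first two terms of the binomial formula), raised to the power `t`. -/
theorem bern (q t : ℕ) : 2 ^ t * (q + 2) ^ ((q + 2) * t) ≤ (q + 3) ^ ((q + 2) * t) := by
  rw [pow_mul, pow_mul, ← mul_pow]
  exact Nat.pow_le_pow_left (NumA_two q) t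

/-- Write `s = Nat.sqrt M`, `ℓ = Nat.log 2 M`, so `M < 2^(ℓ+1)` (`Nat.lt_pow_succ_log_self`), and
`q + 2 ≤ s + 2 ≤ 2 s ≤ s^2 ≤ M < 2^(ℓ+1)`. So `2 (q+2) M < 2^(2 ℓ + 3)`, and `bern` with
`t = 2 ℓ + 3`. -/
theorem num_beta {q M : ℕ} (hM : 4 ≤ M) (hq : q ≤ Nat.sqrt M) :
    (q + 2) ^ ((q + 2) * (2 * Nat.log 2 M + 3)) * (2 * (q + 2) * M) <
      (q + 3) ^ ((q + 2) * (2 * Nat.log 2 M + 3)) := by
  have hM1 : M < 2 ^ (Nat.log 2 M + 1) := Nat.lt_pow_succ_log_self (by norm_num) M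
  have hs2 : 2 ≤ Nat.sqrt M := Nat.le_sqrt.2 (by omega)
  have hss : Nat.sqrt M * Nat.sqrt M ≤ M := Nat.sqrt_le M
  have hq2 : q + 2 ≤ M := by nlinarith
  have hq3 : q + 2 < 2 ^ (Nat.log 2 M + 1) := lt_of_le_of_lt hq2 hM1
  have h1 : (q + 2) * M < 2 ^ (Nat.log 2 M + 1) * 2 ^ (Nat.log 2 M + 1) :=
    Nat.mul_lt_mul'' hq3 hM1
  have h2 : 2 ^ (2 * Nat.log 2 M + 3) =
      2 * (2 ^ (Nat.log 2 M + 1) * 2 ^ (Nat.log 2 M + 1)) := by
    rw [← pow_add, ← pow_succ']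
    congr 1
    omega
  have h3 : 2 * (q + 2) * M < 2 ^ (2 * Nat.log 2 M + 3) := by
    rw [h2, mul_assoc]
    omega
  have h4 := bern q (2 * Nat.log 2 M + 3)
  refine lt_of_lt_of_le ?_ h4
  rw [mul_comm (2 ^ (2 * Nat.log 2 M + 3))]
  exact Nat.mul_lt_mul_of_pos_left h3 (pow_pos (by omega) _)

end Pool.Agent.helper43.Asy
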