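import Pool.Agent.helper43.Asy.ApA

/-! ASY-Upd: updating condition (3) (section 6 of the paper proof). -/

open Finset Pool.Agent.helper43.Rho

set_option linter.unusedSectionVars false

namespace Pool.Agent.helper43.Asy

variable {G : Type*} [AddCommGroup G] [DecidableEq G] [Fintype G]

theorem Upd_sub {B E : Finset G} {r : G} (hE : E ⊆ B) (hr : r ∈ B \ E) : insert r E ⊆ B := by
  intro x hx
  rw [Finset.mem_insert] at hx
  rcases hx with rfl | hx
  · exact (Finset.mem_sdiff.1 hr).1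
  · exact hE hx

theorem Upd_nonempty {H : AddSubgroup G} {B : Finset G} (hB : Ap H B)
    {y : AddSubgroup G → G} (hy : Hole H B y) {E : Finset G} (hE : E ⊆ B)
    (hne : (B \ E).Nonempty) :
    (co (XX H E) (LL H (B \ E)) (y (LL H (B \ E)))).Nonempty := by
  have hR : B \ E ⊆ B := Finset.sdiff_subset
  have h1 := co_nonempty_of_mem (H := H) hR
    (hy (LL H (B \ E)) (Ap.LL_not_le hB hR hne)).1
  rwa [Finset.sdiff_sdiff_eq_self hE] at h1

theorem Upd_pos {B : Finset G} {q β : ℕ}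
    (hβ : (q + 2) ^ β * (2 * (q + 2) * B.card) < (q + 3) ^ β) {r : G} (hr : r ∈ B) :
    1 ≤ β := by
  by_contra h
  have h0 : β = 0 := by omega
  subst h0
  have h1 : 0 < B.card := Finset.card_pos.2 ⟨r, hr⟩
  have h2 : 0 < 2 * (q + 2) * B.card := by positivity
  simp only [pow_zero, one_mul] at hβ
  omega

theorem Upd_half {H : AddSubgroup G} {B E : Finset G} {r : G} {K : ℕ}
    (h : LL H (B \ insert r E) ≠ LL H (B \ E)) {N : ℕ}
    (hK : 2 ^ K * (sf (LL H (B \ E))).card ≤ N) :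
    2 ^ (K + 1) * (sf (LL H (B \ insert r E))).card ≤ N := by
  have hle : LL H (B \ insert r E) ≤ LL H (B \ E) :=
    LL_mono (Finset.sdiff_subset_sdiff (Finset.Subset.refl B) (Finset.subset_insert r E))
  have hlt := lt_of_le_of_ne hle h
  have h2 := half_card hlt
  calc 2 ^ (K + 1) * (sf (LL H (B \ insert r E))).card
      = 2 ^ K * (2 * (sf (LL H (B \ insert r E))).card) := by ring
    _ ≤ 2 ^ K * (sf (LL H (B \ E))).card := Nat.mul_le_mul_left _ h2
    _ ≤ N := hK

/-- Let `E' = insert r E`, `R = B \ E`, `R' = B \ E' = R.erase r`, `L = LL H R`, `L' = LL H R' ≤ L`,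
`X = XX H E ⊆ X' = XX H E'`. If `L' = L`: same `b`, `K` (`co X' L y ⊇ co X L y`). If `L' ≠ L`:
`2 |L'| ≤ |L|` (`half_card`), take `K + 1` and `0`: `e ≤ K β + b ≤ (K + 1) β`, and the part
`co X' L' (y L')` is nonempty (`co_nonempty_of_mem` with `R'`, `B \ R' = E'`, `Hole`, `Ap.LL_not_le`). -/
theorem three_keep {H : AddSubgroup G} {B : Finset G} (hB : Ap H B) {q β : ℕ}
    {y : AddSubgroup G → G} (hy : Hole H B y) {E : Finset G} (hE : E ⊆ B) {r : G}
    (hr : r ∈ B \ E) (hne : (B \ insert r E).Nonempty) {e b K : ℕ}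
    (h3 : Three H B q β y E e b K) :
    ∃ b' K', Three H B q β y (insert r E) e b' K' := by
  rcases h3 with h0 | ⟨hK, he, hb, hp⟩
  · exact ⟨0, 0, Or.inl h0⟩
  by_cases hL : LL H (B \ insert r E) = LL H (B \ E)
  · refine ⟨b, K, Or.inr ⟨?_, he, hb, ?_⟩⟩
    · rw [hL]; exact hK
    · rw [hL]
      refine hp.trans (Nat.mul_le_mul_left _ (Finset.card_le_card ?_))
      intro z hz
      rw [mem_co] at hz ⊢
      exact ⟨XX_mono (Finset.subset_insert r E) hz.1, hz.2⟩
  · refine ⟨0, K + 1, Or.inr ⟨Upd_half hL hK, ?_, Nat.zero_le _, ?_⟩⟩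
    · calc e ≤ K * β + b := he
        _ ≤ K * β + β := Nat.add_le_add_left hb _
        _ = (K + 1) * β + 0 := by ring
    · have h1 := Upd_nonempty hB hy (Upd_sub hE hr) hne
      simpa using Finset.card_pos.2 h1

/-- Type II step, notation as in `three_keep`, `Z = co X L (y L)`, `β ≥ 1` by `hβ`. If `L' = L`:
`|co X' L (y L)| = |Z| + lam Z r` (`Rho.card_co_step`, `XX_insert`, `r ∈ L`), so
`(q + 2) |Z'| ≥ (q + 3) |Z|`. If `e = 0` take `b' = 1`, `K' = 0` (`2^0 |L| ≤ 2 |X| ≤ 2 |Y|`,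
`q + 3 ≤ (q+3) |Z|`). If `e > 0` take `b' = b + 1`, `K' = K`; `b < β`, because `b = β` would give
`(q+3)^β ≤ (q+2)^β |Z| ≤ (q+2)^β (2 (q+2) M) < (q+3)^β`. If `L' ≠ L`: take `b' = 0` and
`K' = 1` (if `e = 0`, `2 |L'| ≤ |L| ≤ 2 |Y|`, `1 ≤ β`) or `K' = K + 1` (if `e > 0`, `b < β`, so
`e + 1 ≤ K β + b + 1 ≤ (K + 1) β`); the part `co X' L' (y L')` is nonempty as in `three_keep`. -/
theorem three_two {H : AddSubgroup G} {B : Finset G} (hB : Ap H B) {q β : ℕ}
    (hβ : (q + 2) ^ β * (2 * (q + 2) * B.card) < (q + 3) ^ β)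
    {y : AddSubgroup G → G} (hy : Hole H B y) {E : Finset G} (hE : E ⊆ B) {r : G}
    (hr : r ∈ B \ E) (hne : (B \ insert r E).Nonempty) {e b K : ℕ}
    (h3 : Three H B q β y E e b K)
    (h1 : (co (XX H E) (LL H (B \ E)) (y (LL H (B \ E)))).Nonempty)
    (h2 : (co (XX H E) (LL H (B \ E)) (y (LL H (B \ E)))).card ≤
        (q + 2) * lam (co (XX H E) (LL H (B \ E)) (y (LL H (B \ E)))) r)
    (h4 : (co (XX H E) (LL H (B \ E)) (y (LL H (B \ E)))).card < 2 * (q + 2) * B.card)
    (h5 : (sf (LL H (B \ E))).card ≤ 2 * (XX H E).card) :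
    ∃ b' K', Three H B q β y (insert r E) (e + 1) b' K' := by
  have hrB : r ∈ B := (Finset.mem_sdiff.1 hr).1
  have hrE : r ∉ E := (Finset.mem_sdiff.1 hr).2
  have hβ1 : 1 ≤ β := Upd_pos hβ hrB
  have hXY : (XX H E).card ≤ (XX H B).card := Finset.card_le_card (XX_mono hE)
  have hZ1 : 1 ≤ (co (XX H E) (LL H (B \ E)) (y (LL H (B \ E)))).card :=
    Finset.card_pos.2 h1
  have hbl : ∀ b : ℕ, b ≤ β → (q + 3) ^ b ≤ (q + 2) ^ b *
      (co (XX H E) (LL H (B \ E)) (y (LL H (B \ E)))).card → b < β := by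
    intro b hb hp
    rcases Nat.lt_or_ge b β with h | h
    · exact h
    · exfalso
      have hbb : b = β := le_antisymm hb h
      subst hbb
      have h6 := Nat.mul_le_mul_left ((q + 2) ^ b) h4.le
      omega
  by_cases hL : LL H (B \ insert r E) = LL H (B \ E)
  · have hstep : (co (XX H (insert r E)) (LL H (B \ insert r E))
        (y (LL H (B \ insert r E)))).card =
        (co (XX H E) (LL H (B \ E)) (y (LL H (B \ E)))).card +
        lam (co (XX H E) (LL H (B \ E)) (y (LL H (B \ E)))) r := by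
      rw [hL, XX_insert hrE]
      exact card_co_step (mem_LL hr) _
    have hgrow : (q + 3) * (co (XX H E) (LL H (B \ E)) (y (LL H (B \ E)))).card ≤
        (q + 2) * (co (XX H (insert r E)) (LL H (B \ insert r E))
        (y (LL H (B \ insert r E)))).card := by
      rw [hstep]
      have e1 : (q + 3) * (co (XX H E) (LL H (B \ E)) (y (LL H (B \ E)))).card =
          (q + 2) * (co (XX H E) (LL H (B \ E)) (y (LL H (B \ E)))).card +
          (co (XX H E) (LL H (B \ E)) (y (LL H (B \ E)))).card := by ring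
      rw [e1, Nat.mul_add]
      exact Nat.add_le_add_left h2 _
    rcases h3 with h0 | ⟨hK, he, hb, hp⟩
    · subst h0
      refine ⟨1, 0, Or.inr ⟨?_, ?_, hβ1, ?_⟩⟩
      · rw [hL, pow_zero, one_mul]
        omega
      · omega
      · rw [pow_one, pow_one]
        calc q + 3 = (q + 3) * 1 := by ring
          _ ≤ _ := Nat.mul_le_mul_left _ hZ1
          _ ≤ _ := hgrow
    · have hlt := hbl b hb hp
      refine ⟨b + 1, K, Or.inr ⟨?_, ?_, hlt, ?_⟩⟩
      · rw [hL]; exact hK
      · omega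
      · calc (q + 3) ^ (b + 1) = (q + 3) * (q + 3) ^ b := by ring
          _ ≤ (q + 3) * ((q + 2) ^ b *
              (co (XX H E) (LL H (B \ E)) (y (LL H (B \ E)))).card) :=
            Nat.mul_le_mul_left _ hp
          _ = (q + 2) ^ b * ((q + 3) *
              (co (XX H E) (LL H (B \ E)) (y (LL H (B \ E)))).card) := by ring
          _ ≤ (q + 2) ^ b * ((q + 2) * (co (XX H (insert r E)) (LL H (B \ insert r E))
              (y (LL H (B \ insert r E)))).card) := Nat.mul_le_mul_left _ hgrow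
          _ = _ := by ring
  · have hne1 := Upd_nonempty hB hy (Upd_sub hE hr) hne
    have hp1 : (q + 3) ^ 0 ≤ (q + 2) ^ 0 * (co (XX H (insert r E)) (LL H (B \ insert r E))
        (y (LL H (B \ insert r E)))).card := by
      simpa using Finset.card_pos.2 hne1
    rcases h3 with h0 | ⟨hK, he, hb, hp⟩
    · subst h0
      refine ⟨0, 1, Or.inr ⟨?_, ?_, Nat.zero_le _, hp1⟩⟩
      · have h6 : 2 ^ 0 * (sf (LL H (B \ E))).card ≤ 2 * (XX H B).card := by
          rw [pow_zero, one_mul]; omega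
        exact Upd_half hL h6
      · omega
    · have hlt := hbl b hb hp
      refine ⟨0, K + 1, Or.inr ⟨Upd_half hL hK, ?_, Nat.zero_le _, hp1⟩⟩
      have e2 : (K + 1) * β + 0 = K * β + β := by ring
      rw [e2]
      omega

end Pool.Agent.helper43.Asy
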