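import Pool.Agent.helper43.Asy.Dich
import Pool.Agent.helper43.Asy.Upd

/-! ASY-Proc: the process (section 6 of the paper proof). -/

open Finset Pool.Agent.helper43.Rho

set_option linter.unusedSectionVars false

namespace Pool.Agent.helper43.Asy

variable {G : Type*} [AddCommGroup G] [DecidableEq G] [Fintype G]

/-- `E = ∅`, `a = e = b = K = 0`: `Ioc M M = ∅`, `XX H ∅ = sf H`. -/
theorem inv_start {H : AddSubgroup G} {B : Finset G} {q δ β Λ : ℕ} (y : AddSubgroup G → G) :
    Inv H B q δ β Λ y B.card ∅ 0 0 0 0 := by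
  refine ⟨Finset.empty_subset B, by simp, ?_, ?_, Nat.zero_le β, Or.inl rfl⟩
  · rw [XX_empty]
    simp
  · rw [XX_empty, pow_zero, pow_zero, one_mul]
    exact sf_card_pos H

/-- One step from `i + 1` to `i`, `i + 1 > 6400 q`. Use `dich`; `E' = insert r E`,
`|XX E'| = |XX E| + lam (XX E) r` (`card_XX_insert`),
`∑_{Ioc i M} = rd h (i + 1 - δ) + ∑_{Ioc (i+1) M}`; `B \ E'` is nonempty since it has `i ≥ 1`
elements (`i + 1 > 6400 q ≥ 12800`).
* first alternative: `q |XX E'| = q |XX E| + q lam ≥ q |XX E| + (q - 1) p`; `a`, `e` unchanged;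
  `three_keep`.
* second: `a + 1`; `(q-1) p ≤ (q-1) 2 M`; `(q+3)^(a+1) ≤ (q+2)^a |X| (q + 3)
  ≤ (q+2)^(a+1) |X'|` since `(q+2) |X'| = (q+2) |X| + (q+2) lam ≥ (q + 3) |X|`; `a < β` because
  `a = β` would give `(q+3)^β ≤ (q+2)^β |X| ≤ (q+2)^β (2 (q+2) M) < (q+3)^β`; `three_keep`.
* third: `e + 1`; `(q-1) p ≤ (q-1) Λ`; `three_two`. -/
theorem inv_step {H : AddSubgroup G} {B : Finset G} {q δ β Λ : ℕ} (hP : Par H B q δ β Λ)
    {y : AddSubgroup G → G} (hy : Hole H B y) {i : ℕ} (hiq : 6400 * q < i + 1)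
    {E : Finset G} {a e b K : ℕ} (hI : Inv H B q δ β Λ y (i + 1) E a e b K) :
    ∃ E' a' e' b' K', Inv H B q δ β Λ y i E' a' e' b' K' := by
  classical
  obtain ⟨hE, hcard, hone, htwo, htwo', hthree⟩ := hI
  have hB := hP.ap
  have hq := hP.hq
  have hβ := hP.hβ
  have hiM : i + 1 ≤ B.card := by omega
  -- common facts for a choice of `r`
  have hsum : ∑ j ∈ Ioc i B.card, rd (sf H).card (j - δ) =
      rd (sf H).card (i + 1 - δ) + ∑ j ∈ Ioc (i + 1) B.card, rd (sf H).card (j - δ) := by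
    have h1 : Ioc i B.card = insert (i + 1) (Ioc (i + 1) B.card) := by
      ext j
      simp only [Finset.mem_Ioc, Finset.mem_insert]
      omega
    rw [h1, Finset.sum_insert]
    simp
  have hfacts : ∀ r ∈ B \ E, r ∉ E ∧ insert r E ⊆ B ∧ (insert r E).card + i = B.card ∧
      (B \ insert r E).Nonempty ∧
      (XX H (insert r E)).card = (XX H E).card + lam (XX H E) r := by
    intro r hr
    rw [Finset.mem_sdiff] at hr
    have h2 : insert r E ⊆ B := by
      intro z hz
      rw [Finset.mem_insert] at hz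
      rcases hz with rfl | hz
      · exact hr.1
      · exact hE hz
    have h3 : (insert r E).card = E.card + 1 := Finset.card_insert_of_notMem hr.2
    refine ⟨hr.2, h2, by omega, ?_, card_XX_insert hr.2⟩
    rw [← Finset.card_pos, Finset.card_sdiff_of_subset h2]
    omega
  rcases dich hP hy hE hcard hiq with ⟨r, hr, h1⟩ | ⟨r, hr, h1, h2, h3⟩ |
    ⟨r, hr, h1, h2, h3, h4, h5⟩
  · obtain ⟨f1, f2, f3, f4, f5⟩ := hfacts r hr
    obtain ⟨b', K', h3⟩ := three_keep hB hy hE hr f4 hthree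
    refine ⟨insert r E, a, e, b', K', f2, f3, ?_, ?_, htwo', h3⟩
    · rw [hsum, f5, Nat.mul_add, Nat.mul_add]
      omega
    · refine htwo.trans (Nat.mul_le_mul_left _ ?_)
      omega
  · obtain ⟨f1, f2, f3, f4, f5⟩ := hfacts r hr
    obtain ⟨b', K', h6⟩ := three_keep hB hy hE hr f4 hthree
    have haβ : a < β := by
      by_contra hc
      have hc' : a = β := by omega
      rw [hc'] at htwo
      have h7 : (q + 2) ^ β * (XX H E).card ≤ (q + 2) ^ β * (2 * (q + 2) * B.card) :=
        Nat.mul_le_mul_left _ h2.le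
      omega
    refine ⟨insert r E, a + 1, e, b', K', f2, f3, ?_, ?_, haβ, h6⟩
    · rw [hsum, f5, Nat.mul_add, Nat.mul_add]
      have h7 : (q - 1) * rd (sf H).card (i + 1 - δ) ≤ (q - 1) * (2 * B.card) :=
        Nat.mul_le_mul_left _ h3
      have h8 : (q - 1) * (2 * B.card * (a + 1) + Λ * e) =
          (q - 1) * (2 * B.card * a + Λ * e) + (q - 1) * (2 * B.card) := by ring
      rw [h8]
      omega
    · have h7 : (q + 3) * (XX H E).card ≤ (q + 2) * (XX H (insert r E)).card := by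
        rw [f5]
        have h8 : (q + 2) * ((XX H E).card + lam (XX H E) r) =
            (q + 2) * (XX H E).card + (q + 2) * lam (XX H E) r := by ring
        have h9 : (q + 3) * (XX H E).card = (q + 2) * (XX H E).card + (XX H E).card := by ring
        rw [h8, h9]
        omega
      calc (q + 3) ^ (a + 1) = (q + 3) * (q + 3) ^ a := by ring
        _ ≤ (q + 3) * ((q + 2) ^ a * (XX H E).card) := Nat.mul_le_mul_left _ htwo
        _ = (q + 2) ^ a * ((q + 3) * (XX H E).card) := by ring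
        _ ≤ (q + 2) ^ a * ((q + 2) * (XX H (insert r E)).card) := Nat.mul_le_mul_left _ h7
        _ = (q + 2) ^ (a + 1) * (XX H (insert r E)).card := by ring
  · obtain ⟨f1, f2, f3, f4, f5⟩ := hfacts r hr
    obtain ⟨b', K', h6⟩ := three_two hB hβ hy hE hr f4 hthree h1 h2 h3 h5
    refine ⟨insert r E, a, e + 1, b', K', f2, f3, ?_, ?_, htwo', h6⟩
    · rw [hsum, f5, Nat.mul_add, Nat.mul_add]
      have h7 : (q - 1) * rd (sf H).card (i + 1 - δ) ≤ (q - 1) * Λ :=
        Nat.mul_le_mul_left _ h4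
      have h8 : (q - 1) * (2 * B.card * a + Λ * (e + 1)) =
          (q - 1) * (2 * B.card * a + Λ * e) + (q - 1) * Λ := by ring
      rw [h8]
      omega
    · refine htwo.trans (Nat.mul_le_mul_left _ ?_)
      omega

/-- The invariant holds for every `i` with `6400 q ≤ i ≤ M` (descending induction from `M`). -/
theorem inv_all {H : AddSubgroup G} {B : Finset G} {q δ β Λ : ℕ} (hP : Par H B q δ β Λ)
    {y : AddSubgroup G → G} (hy : Hole H B y) {i : ℕ} (hi : i ≤ B.card) (hiq : 6400 * q ≤ i) :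
    ∃ E a e b K, Inv H B q δ β Λ y i E a e b K := by
  obtain ⟨d, hd⟩ : ∃ d, B.card = i + d := ⟨B.card - i, by omega⟩
  induction d generalizing i with
  | zero =>
    have h1 : i = B.card := by omega
    rw [h1]
    exact ⟨∅, 0, 0, 0, 0, inv_start y⟩
  | succ d ih =>
    obtain ⟨E, a, e, b, K, hI⟩ := ih (i := i + 1) (by omega) (by omega) (by omega)
    exact inv_step hP hy (by omega) hI

/-- Write `M = |B|`, `Y = XX H B`, `h = |H|`, `I = 6400 q`. `rd h (j - δ) ≤ j + h`, so
`∑_{j ≤ min I M} rd h (j - δ) ≤ I (I + h)`. If `M ≤ I` the claim follows from `h ≤ |Y|`. If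
`M > I` take `inv_all` at `i = I`: `e = 0` or `2^K ≤ 2^K |L| ≤ 2 |Y|`, so
`K ≤ Nat.log 2 (2 |Y|)`, `e ≤ K β + b ≤ β (K + 1)`; `a ≤ β`; `|XX H E| ≤ |Y|` (`XX_mono`). -/
theorem seven {H : AddSubgroup G} {B : Finset G} {q δ β Λ : ℕ} (hP : Par H B q δ β Λ) :
    (q - 1) * ∑ j ∈ Icc 1 B.card, rd (sf H).card (j - δ) + q * (sf H).card ≤
      q * (XX H B).card +
      q * (2 * B.card * β + Λ * (β * (Nat.log 2 (2 * (XX H B).card) + 1))) +
      q * (6400 * q * (6400 * q + (sf H).card)) := by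
  classical
  have hB := hP.ap
  have hq := hP.hq
  have hβ := hP.hβ
  obtain ⟨y, hy⟩ := hB.exists_Hole
  have hh := sf_card_pos H
  obtain ⟨h, hhdef⟩ : ∃ h, h = (sf H).card := ⟨_, rfl⟩
  obtain ⟨M, hMdef⟩ : ∃ M, M = B.card := ⟨_, rfl⟩
  obtain ⟨I, hIdef⟩ : ∃ I, I = 6400 * q := ⟨_, rfl⟩
  have hYh : (sf H).card ≤ (XX H B).card := by
    have h1 : XX H (∅ : Finset G) ⊆ XX H B := XX_mono (Finset.empty_subset B)
    rw [XX_empty] at h1
    exact Finset.card_le_card h1
  -- the small indices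
  have hsm : ∀ N, N ≤ 6400 * q →
      ∑ j ∈ Icc 1 N, rd (sf H).card (j - δ) ≤ 6400 * q * (6400 * q + (sf H).card) := by
    intro N hN
    calc ∑ j ∈ Icc 1 N, rd (sf H).card (j - δ) ≤ ∑ _j ∈ Icc 1 N, (6400 * q + (sf H).card) := by
          apply Finset.sum_le_sum
          intro j hj
          rw [Finset.mem_Icc] at hj
          have h1 : rd (sf H).card (j - δ) ≤ (j - δ) + (sf H).card := rd_le
          omega
      _ = N * (6400 * q + (sf H).card) := by
          rw [Finset.sum_const, Nat.card_Icc, smul_eq_mul]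
          congr 1
      _ ≤ 6400 * q * (6400 * q + (sf H).card) := Nat.mul_le_mul_right _ hN
  by_cases hMI : B.card ≤ 6400 * q
  · have h1 := hsm B.card hMI
    have h2 : (q - 1) * ∑ j ∈ Icc 1 B.card, rd (sf H).card (j - δ) ≤
        q * (6400 * q * (6400 * q + (sf H).card)) := Nat.mul_le_mul (by omega) h1
    have h3 : q * (sf H).card ≤ q * (XX H B).card := Nat.mul_le_mul_left q hYh
    omega
  · push Not at hMI
    obtain ⟨E, a, e, b, K, hI⟩ := inv_all hP hy (i := 6400 * q) hMI.le le_rfl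
    obtain ⟨hE, hcard, hone, htwo, htwo', hthree⟩ := hI
    have hXY : (XX H E).card ≤ (XX H B).card := Finset.card_le_card (XX_mono hE)
    have hsplit : ∑ j ∈ Icc 1 B.card, rd (sf H).card (j - δ) =
        ∑ j ∈ Icc 1 (6400 * q), rd (sf H).card (j - δ) +
        ∑ j ∈ Ioc (6400 * q) B.card, rd (sf H).card (j - δ) := by
      rw [← Finset.sum_union]
      · congr 1
        ext j
        simp only [Finset.mem_union, Finset.mem_Icc, Finset.mem_Ioc]
        omega
      · rw [Finset.disjoint_left]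
        intro j h1 h2
        rw [Finset.mem_Icc] at h1
        rw [Finset.mem_Ioc] at h2
        omega
    have he : e ≤ β * (Nat.log 2 (2 * (XX H B).card) + 1) := by
      rcases hthree with h0 | ⟨h1, h2, h3, _⟩
      · rw [h0]; exact Nat.zero_le _
      · have h4 : 2 ^ K ≤ 2 * (XX H B).card := by
          have h5 := sf_card_pos (LL H (B \ E))
          calc 2 ^ K = 2 ^ K * 1 := (mul_one _).symm
            _ ≤ 2 ^ K * (sf (LL H (B \ E))).card := Nat.mul_le_mul_left _ h5
            _ ≤ 2 * (XX H B).card := h1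
        have h5 : K ≤ Nat.log 2 (2 * (XX H B).card) := by
          apply Nat.le_log_of_pow_le (by norm_num) h4
        calc e ≤ K * β + b := h2
          _ ≤ Nat.log 2 (2 * (XX H B).card) * β + β :=
            Nat.add_le_add (Nat.mul_le_mul_right _ h5) h3
          _ = β * (Nat.log 2 (2 * (XX H B).card) + 1) := by ring
    have h6 : 2 * B.card * a + Λ * e ≤
        2 * B.card * β + Λ * (β * (Nat.log 2 (2 * (XX H B).card) + 1)) :=
      Nat.add_le_add (Nat.mul_le_mul_left _ htwo') (Nat.mul_le_mul_left _ he)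
    have h7 : (q - 1) * (2 * B.card * a + Λ * e) ≤
        q * (2 * B.card * β + Λ * (β * (Nat.log 2 (2 * (XX H B).card) + 1))) :=
      Nat.mul_le_mul (by omega) h6
    have h8 : (q - 1) * ∑ j ∈ Icc 1 (6400 * q), rd (sf H).card (j - δ) ≤
        q * (6400 * q * (6400 * q + (sf H).card)) := Nat.mul_le_mul (by omega) (hsm _ le_rfl)
    have h9 : q * (XX H E).card ≤ q * (XX H B).card := Nat.mul_le_mul_left q hXY
    rw [hsplit, Nat.mul_add]
    omega

end Pool.Agent.helper43.Asy
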