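import Pool.Agent.helper43.Asy.Quone

/-! ASY-Quad: the quadratic lower bound (4c of the paper proof). -/

open Finset Pool.Agent.helper43.Rho

set_option linter.unusedSectionVars false

namespace Pool.Agent.helper43.Asy

variable {G : Type*} [AddCommGroup G] [DecidableEq G] [Fintype G]

/-- `quone` for `K = LL H R`: `R ⊆ ins B (LL H R)`. -/
theorem card_sq_le_LL {H : AddSubgroup G} {B R : Finset G} (hB : Ap H B) (hR : R ⊆ B) :
    R.card ^ 2 ≤ 400 * (sf (LL H R)).card := by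
  have h1 : R ⊆ ins B (LL H R) := fun r hr => mem_ins.2 ⟨hR hr, mem_LL hr⟩
  have h2 := card_le_card h1
  exact le_trans (Nat.pow_le_pow_left h2 2) (quone hB (le_LL H R))

/-- `i = |B|`. If `i ≤ 3200`: `|XX B| ≥ h (i + 1) ≥ i + 1` (`Ap.card_ge`). If `i > 3200`: `run` with
`R0 = B`, `p = i / 4`, `a = 2 p`, `N = i^2 / 3200`. For `R ⊆ B` with `|B| < |R| + a`: `2 |R| ≥ i`;
by `card_sq_le_LL`, `1600 |LL H R| ≥ 4 |R|^2 ≥ i^2`, so `2 N ≤ |LL H R|` and
`4 p ≤ i ≤ |LL H R|`; `Iso H R p` by `iso_weak`. The result: `N < |XX E|`, so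
`i^2 < 3200 (N + 1) ≤ 3200 |XX E| ≤ 3200 |XX B|`; or `a (a + 1) + 8 ≤ 8 |XX E|` with
`2 a ≥ i - 3`, so `32 |XX E| ≥ (i - 3)(i - 1) + 32` and `3200 |XX E| ≥ 100 (i-3)(i-1) ≥ i^2`. -/
theorem quad {H : AddSubgroup G} {B : Finset G} (hB : Ap H B) :
    B.card ^ 2 ≤ 3200 * (XX H B).card := by
  obtain ⟨i, hi⟩ : ∃ i, i = B.card := ⟨_, rfl⟩
  rw [← hi]
  rcases le_or_gt i 3200 with hle | hgt
  · have h1 := hB.card_ge
    have h2 : B.card + 1 ≤ (sf H).card * (B.card + 1) :=
      Nat.le_mul_of_pos_left _ (sf_card_pos H)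
    have h3 : i ≤ (XX H B).card := by omega
    calc i ^ 2 = i * i := by ring
      _ ≤ 3200 * (XX H B).card := Nat.mul_le_mul hle h3
  · obtain ⟨p, hp⟩ : ∃ p, p = i / 4 := ⟨_, rfl⟩
    obtain ⟨N, hN⟩ : ∃ N, N = i ^ 2 / 3200 := ⟨_, rfl⟩
    have hp4 : 4 * p ≤ i := by omega
    have hp4' : i ≤ 4 * p + 3 := by omega
    have hN1 : 3200 * N ≤ i ^ 2 := by
      rw [hN]; exact Nat.mul_div_le _ _
    have hN2 : i ^ 2 < 3200 * (N + 1) := by
      rw [hN]; omega
    obtain ⟨E, hE, -, hE2⟩ := run (R0 := B) hB (Subset.refl B) (a := 2 * p) (p := p) (N := N)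
      (by omega) le_rfl (by omega) (by
        intro R hR hRc
        have h2R : i ≤ 2 * R.card := by omega
        have h3 := card_sq_le_LL hB hR
        have h4 : i ^ 2 ≤ 1600 * (sf (LL H R)).card := by
          calc i ^ 2 ≤ (2 * R.card) ^ 2 := Nat.pow_le_pow_left h2R 2
            _ = 4 * R.card ^ 2 := by ring
            _ ≤ 4 * (400 * (sf (LL H R)).card) := by omega
            _ = 1600 * (sf (LL H R)).card := by ring
        have h5 : 1600 * i ≤ i ^ 2 := by nlinarith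
        refine ⟨by omega, by omega, ?_⟩
        exact iso_weak (hB.asym.subset hR) (by omega))
    have hsub : (XX H E).card ≤ (XX H B).card := card_le_card (XX_mono hE)
    rcases hE2 with h | h
    · have : 3200 * (N + 1) ≤ 3200 * (XX H E).card := by omega
      omega
    · have h6 : i ^ 2 ≤ 3200 * (XX H E).card := by
        nlinarith
      omega

end Pool.Agent.helper43.Asy
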