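import Pool.Agent.helper43.Asy.Weak
import Pool.Agent.helper43.Asy.IsoC
import Pool.Agent.helper43.Rho.Struct

/-! ASY-Quone: `|B ∩ K| ^ 2 ≤ 400 |K|` (4b of the paper proof). -/

open Finset Pool.Agent.helper43.Rho

set_option linter.unusedSectionVars false

namespace Pool.Agent.helper43.Asy

variable {G : Type*} [AddCommGroup G] [DecidableEq G] [Fintype G]

/-- If `E ⊆ K`, `F ⊆ K` are disjoint, `H ≤ K`, and `XX E`, `XX F` have more than `|K| / 2` elements
each, then every element of `K` is in `XX (E ∪ F)`: for `w ∈ K` the set `w - XX F ⊆ K` meets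
`XX E ⊆ K`; use `mem_XX_union'`. -/
theorem full_of_two {H K : AddSubgroup G} {E F : Finset G} (hH : H ≤ K)
    (hE : ∀ x ∈ E, x ∈ K) (hF : ∀ x ∈ F, x ∈ K) (hd : Disjoint E F)
    (h1 : (sf K).card < 2 * (XX H E).card) (h2 : (sf K).card < 2 * (XX H F).card) :
    ∀ w ∈ K, w ∈ XX H (E ∪ F) := by
  intro w hw
  have hEK : XX H E ⊆ sf K := fun x hx => (mem_sf x).2 (XX_mem_subgroup hH hE x hx)
  have hFK : (XX H F).image (fun x => w - x) ⊆ sf K := by
    intro z hz
    rw [Finset.mem_image] at hz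
    obtain ⟨x, hx, rfl⟩ := hz
    exact (mem_sf _).2 (K.sub_mem hw (XX_mem_subgroup hH hF x hx))
  have hcard : ((XX H F).image (fun x => w - x)).card = (XX H F).card :=
    Finset.card_image_of_injective _ (fun x y hxy => by simpa using hxy)
  have hnd : ¬ Disjoint (XX H E) ((XX H F).image (fun x => w - x)) := by
    intro hdis
    have h3 := Finset.card_le_card (Finset.union_subset hEK hFK)
    rw [Finset.card_union_of_disjoint hdis, hcard] at h3
    omega
  rw [Finset.not_disjoint_iff] at hnd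
  obtain ⟨x, hx, hx2⟩ := hnd
  rw [Finset.mem_image] at hx2
  obtain ⟨y, hy, hxy⟩ := hx2
  exact (mem_XX_union' hd).2 ⟨x, hx, y, hy, by rw [← hxy]; abel⟩

/-- the generated subgroup is `K` as soon as `R` is large -/
private theorem quone_gen {H : AddSubgroup G} {B : Finset G} {K : AddSubgroup G} (hHK : H ≤ K)
    (hmax : ∀ K' : AddSubgroup G, H ≤ K' →
      (ins B K').card ^ 2 * (sf K).card ≤ (ins B K).card ^ 2 * (sf K').card)
    {R : Finset G} (hR : R ⊆ ins B K) (h2 : (ins B K).card ^ 2 < 2 * R.card ^ 2) :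
    LL H R = K := by
  have hle : LL H R ≤ K := LL_le hHK (fun r hr => (mem_ins.1 (hR hr)).2)
  by_contra hne
  have hlt : LL H R < K := lt_of_le_of_ne hle hne
  have h3 := half_card hlt
  have h4 : R ⊆ ins B (LL H R) := fun r hr => mem_ins.2 ⟨(mem_ins.1 (hR hr)).1, mem_LL hr⟩
  have h5 := Finset.card_le_card h4
  have h6 := hmax (LL H R) (le_LL H R)
  have h7 : R.card ^ 2 ≤ (ins B (LL H R)).card ^ 2 := Nat.pow_le_pow_left h5 2
  have h8 : 0 < (sf K).card := sf_card_pos K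
  have h9 : R.card ^ 2 * (sf K).card ≤ (ins B K).card ^ 2 * (sf (LL H R)).card :=
    le_trans (Nat.mul_le_mul_right _ h7) h6
  have h10 : 2 * R.card ^ 2 * (sf K).card ≤ (ins B K).card ^ 2 * (sf K).card := by
    calc 2 * R.card ^ 2 * (sf K).card = 2 * (R.card ^ 2 * (sf K).card) := by ring
      _ ≤ 2 * ((ins B K).card ^ 2 * (sf (LL H R)).card) := Nat.mul_le_mul_left _ h9
      _ = (ins B K).card ^ 2 * (2 * (sf (LL H R)).card) := by ring
      _ ≤ (ins B K).card ^ 2 * (sf K).card := Nat.mul_le_mul_left _ h3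
  have h11 := Nat.le_of_mul_le_mul_right h10 h8
  omega

/-- one half of the construction -/
private theorem quone_half {H : AddSubgroup G} {B : Finset G} (hB : Ap H B) {K : AddSubgroup G}
    (hHK : H ≤ K)
    (hmax : ∀ K' : AddSubgroup G, H ≤ K' →
      (ins B K').card ^ 2 * (sf K).card ≤ (ins B K).card ^ 2 * (sf K').card)
    (hbig : 400 * (sf K).card < (ins B K).card ^ 2) (h800 : 800 < (ins B K).card)
    (hK2 : 2 * (ins B K).card + 1 ≤ (sf K).card)
    {R0 : Finset G} (hR0 : R0 ⊆ ins B K) (hc : (ins B K).card ≤ R0.card + (ins B K).card / 8) :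
    ∃ E : Finset G, E ⊆ R0 ∧ E.card ≤ (ins B K).card / 8 ∧ (sf K).card < 2 * (XX H E).card := by
  set ρ := (ins B K).card with hρ
  set a := ρ / 8 with ha
  have ha1 : 8 * a ≤ ρ := by omega
  have ha2 : ρ ≤ 8 * a + 7 := by omega
  have hR0B : R0 ⊆ B := fun r hr => (mem_ins.1 (hR0 hr)).1
  obtain ⟨E, hE, hEa, hE2⟩ := run hB hR0B (a := a) (p := ρ / 4) (N := (sf K).card / 2)
    (by omega) (by omega) (by omega) (by
      intro R hR hRc
      have hRc2 : 3 * ρ ≤ 4 * R.card := by omega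
      have hgen : LL H R = K := by
        apply quone_gen hHK hmax (hR.trans hR0)
        rw [← hρ]
        have h1 : (3 * ρ) ^ 2 ≤ (4 * R.card) ^ 2 := Nat.pow_le_pow_left hRc2 2
        nlinarith [h1, h800, Nat.zero_le ρ]
      rw [hgen]
      refine ⟨by omega, by omega, ?_⟩
      exact iso_weak (hB.asym.subset (hR.trans hR0B)) (by omega))
  refine ⟨E, hE, hEa, ?_⟩
  rcases hE2 with h | h
  · omega
  · have h2 : (8 * a) * (8 * a + 8) + 512 ≤ 512 * (XX H E).card := by nlinarith [h]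
    have h3 : (ρ : ℤ) ≤ 8 * (a : ℤ) + 7 := by exact_mod_cast ha2
    have h4 : ((8 * (a : ℤ)) * (8 * (a : ℤ) + 8) + 512) ≤ 512 * ((XX H E).card : ℤ) := by
      exact_mod_cast h2
    have h5 : (400 : ℤ) * ((sf K).card : ℤ) < (ρ : ℤ) ^ 2 := by exact_mod_cast hbig
    have h6 : (800 : ℤ) < (ρ : ℤ) := by exact_mod_cast h800
    have h7 : ((ρ : ℤ) - 7) * ((ρ : ℤ) + 1) ≤ (8 * (a : ℤ)) * (8 * (a : ℤ) + 8) := by
      apply mul_le_mul <;> linarith
    have h8 : ((sf K).card : ℤ) < 2 * ((XX H E).card : ℤ) := by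
      nlinarith [h4, h5, h6, h7]
    exact_mod_cast h8

/-- Suppose some subgroup `K ≥ H` has `|B ∩ K|^2 > 400 |K|`; among all subgroups `≥ H` take one,
`K`, maximising `|B ∩ K|^2 / |K|` (finitely many subgroups, `Set.Finite.exists_maximal_wrt` or
`exists_max_image` with values in `ℚ`), so for all `K' ≥ H`:
`|B ∩ K'|^2 |K| ≤ |B ∩ K|^2 |K'|`, and `ρ = |B ∩ K|` has `ρ^2 > 400 |K|`. Since
`|K| ≥ 2 ρ + 1` (`two_card_ins`, `card_sf`), `ρ > 800`. If `R ⊆ B ∩ K` and `2 |R|^2 > ρ^2` then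
`LL H R = K`: it is contained in `K`, and if it is smaller, `2 |LL H R| ≤ |K|` (`half_card`) and
`|R|^2 |K| ≤ |B ∩ LL H R|^2 |K| ≤ ρ^2 |LL H R|`, so `2 |R|^2 ≤ ρ^2`. Let `a = ρ / 8`, `p = ρ / 4`,
`N = |K| / 2`. For `R0 ⊆ B ∩ K` with `|R0| ≥ ρ - a` apply `run`: for `R ⊆ R0`,
`|R| ≥ |R0| - a + 1 ≥ 3 ρ / 4`, so `LL H R = K`; `2 N ≤ |K|`; `4 p ≤ ρ ≤ |K|`; `Iso H R p` by
`iso_weak` (`2 p ≤ ρ / 2 ≤ |R|`); `a ≤ 2 p`. It gives `E ⊆ R0`, `|E| ≤ a`, with `N < |XX E|` or
`a (a + 1) + 8 ≤ 8 |XX E|`; in the second case `8 a ≥ ρ - 7`,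
`512 |XX E| ≥ (ρ - 7)(ρ + 1) > 512 ρ^2 / 800`, so `2 |XX E| > |K|` in both cases. Use this for
`R0 = B ∩ K` (`E1`) and for `R0 = (B ∩ K) \ E1` (`E2`). By `full_of_two` all of `K` is in
`XX (E1 ∪ E2)`, which is contained in `K`, so every element of `K` stabilises `XX (E1 ∪ E2)` and
is in `H` by `(hB.subset _).st`. So `B ∩ K ⊆ B ∩ H = ∅`, `ρ = 0`, contradiction. -/
theorem quone {H : AddSubgroup G} {B : Finset G} (hB : Ap H B) {K : AddSubgroup G}
    (hHK : H ≤ K) : (ins B K).card ^ 2 ≤ 400 * (sf K).card := by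
  classical
  by_contra hcon
  push Not at hcon
  obtain ⟨L, hHL, hLmax⟩ := Set.exists_max_image {K' : AddSubgroup G | H ≤ K'}
    (fun K' => ((ins B K').card : ℚ) ^ 2 / ((sf K').card : ℚ)) (Set.toFinite _) ⟨K, hHK⟩
  have hHL' : H ≤ L := hHL
  have hpos : ∀ K' : AddSubgroup G, (0 : ℚ) < ((sf K').card : ℚ) := fun K' => by
    exact_mod_cast sf_card_pos K'
  have hmax : ∀ K' : AddSubgroup G, H ≤ K' →
      (ins B K').card ^ 2 * (sf L).card ≤ (ins B L).card ^ 2 * (sf K').card := by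
    intro K' hK'
    have h := hLmax K' hK'
    rw [div_le_div_iff₀ (hpos K') (hpos L)] at h
    exact_mod_cast h
  have hbig : 400 * (sf L).card < (ins B L).card ^ 2 := by
    have h1 := hmax K hHK
    have h2 := sf_card_pos L
    have h3 := sf_card_pos K
    have h4 : 400 * (sf K).card * (sf L).card < (ins B K).card ^ 2 * (sf L).card :=
      Nat.mul_lt_mul_of_pos_right hcon h2
    have h5 : (400 * (sf L).card) * (sf K).card < (ins B L).card ^ 2 * (sf K).card := by
      calc (400 * (sf L).card) * (sf K).card = 400 * (sf K).card * (sf L).card := by ring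
        _ < (ins B K).card ^ 2 * (sf L).card := h4
        _ ≤ _ := h1
    exact Nat.lt_of_mul_lt_mul_right h5
  have hK2 : 2 * (ins B L).card + 1 ≤ (sf L).card := by
    rw [card_sf]
    exact two_card_ins hB.asym L
  have h800 : 800 < (ins B L).card := by
    by_contra h
    push Not at h
    nlinarith [hbig, hK2, h, Nat.zero_le (ins B L).card]
  obtain ⟨E1, hE1, hE1a, hE1c⟩ := quone_half hB hHL' hmax hbig h800 hK2 (R0 := ins B L)
    (Finset.Subset.refl _) (by omega)
  obtain ⟨E2, hE2, hE2a, hE2c⟩ := quone_half hB hHL' hmax hbig h800 hK2 (R0 := ins B L \ E1)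
    Finset.sdiff_subset (by
      have h := Finset.card_sdiff_add_card_eq_card hE1
      omega)
  have hd : Disjoint E1 E2 := by
    rw [Finset.disjoint_left]
    intro x hx hx2
    exact (Finset.mem_sdiff.1 (hE2 hx2)).2 hx
  have hE2' : E2 ⊆ ins B L := hE2.trans Finset.sdiff_subset
  have hL1 : ∀ x ∈ E1, x ∈ L := fun x hx => (mem_ins.1 (hE1 hx)).2
  have hL2 : ∀ x ∈ E2, x ∈ L := fun x hx => (mem_ins.1 (hE2' hx)).2
  have hfull := full_of_two hHL' hL1 hL2 hd hE1c hE2c
  have hsub : E1 ∪ E2 ⊆ B := by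
    apply Finset.union_subset
    · exact fun x hx => (mem_ins.1 (hE1 hx)).1
    · exact fun x hx => (mem_ins.1 (hE2' hx)).1
  have hall : ∀ x ∈ L, x ∈ H := by
    intro x hx
    apply (hB.subset hsub).st
    intro s hs
    apply hfull
    apply L.add_mem _ hx
    apply XX_mem_subgroup hHL' _ s hs
    intro e he
    rw [Finset.mem_union] at he
    rcases he with he | he
    · exact hL1 e he
    · exact hL2 e he
  have hne : (ins B L).Nonempty := Finset.card_pos.1 (by omega)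
  obtain ⟨b, hb⟩ := hne
  rw [mem_ins] at hb
  exact hB.out b hb.1 (hall b hb.2)

end Pool.Agent.helper43.Asy
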