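import Pool.Agent.helper43.Asy.TL
import Pool.Agent.helper43.Asy.Avg

/-! ASY-Step: the one-step lemma (3e of the paper proof). -/

open Finset Pool.Agent.helper43.Rho

set_option linter.unusedSectionVars false

namespace Pool.Agent.helper43.Asy

variable {G : Type*} [AddCommGroup G] [DecidableEq G] [Fintype G]

private theorem step_arith1 {p q N g : ℕ} (hq : 1 ≤ q) (hN : 1 ≤ N) (hqp : q * p ≤ N)
    (h : 4 * p * (N * N) ≤ g * (2 * N + p) ^ 2) : (q - 1) * p ≤ q * g := by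
  obtain ⟨k, rfl⟩ : ∃ k, q = k + 1 := ⟨q - 1, by omega⟩
  have h6 : (k + 1) * (2 * N + p) ≤ (2 * (k + 1) + 1) * N := by nlinarith
  have h7 : (k + 1) ^ 2 * (4 * p * (N * N)) ≤ g * ((2 * (k + 1) + 1) * N) ^ 2 := by
    calc (k + 1) ^ 2 * (4 * p * (N * N)) ≤ (k + 1) ^ 2 * (g * (2 * N + p) ^ 2) :=
          Nat.mul_le_mul_left _ h
      _ = g * ((k + 1) * (2 * N + p)) ^ 2 := by ring
      _ ≤ g * ((2 * (k + 1) + 1) * N) ^ 2 :=
          Nat.mul_le_mul_left _ (Nat.pow_le_pow_left h6 2)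
  have h8 : 4 * p * (k + 1) ^ 2 ≤ g * (2 * (k + 1) + 1) ^ 2 := by
    have hNN : 0 < N * N := Nat.mul_pos hN hN
    apply Nat.le_of_mul_le_mul_left _ hNN
    calc N * N * (4 * p * (k + 1) ^ 2) = (k + 1) ^ 2 * (4 * p * (N * N)) := by ring
      _ ≤ g * ((2 * (k + 1) + 1) * N) ^ 2 := h7
      _ = N * N * (g * (2 * (k + 1) + 1) ^ 2) := by ring
  have h9 : k * (2 * (k + 1) + 1) ^ 2 ≤ 4 * (k + 1) ^ 3 := by nlinarith
  have h10 : 4 * (k + 1) ^ 2 * (k * p) ≤ 4 * (k + 1) ^ 2 * ((k + 1) * g) := by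
    calc 4 * (k + 1) ^ 2 * (k * p) = k * (4 * p * (k + 1) ^ 2) := by ring
      _ ≤ k * (g * (2 * (k + 1) + 1) ^ 2) := Nat.mul_le_mul_left _ h8
      _ = g * (k * (2 * (k + 1) + 1) ^ 2) := by ring
      _ ≤ g * (4 * (k + 1) ^ 3) := Nat.mul_le_mul_left _ h9
      _ = 4 * (k + 1) ^ 2 * ((k + 1) * g) := by ring
  simpa using Nat.le_of_mul_le_mul_left h10 (by positivity)

private theorem step_arith2 {p q u g : ℕ} (hp : 1 ≤ p) (hq : 1 ≤ q)
    (h : 4 * p * (q * p * u) ≤ g * (2 * q * p + p) ^ 2) : u ≤ (q + 2) * g := by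
  have h1 : 4 * q * u ≤ g * (2 * q + 1) ^ 2 := by
    have hpp : 0 < p * p := Nat.mul_pos hp hp
    apply Nat.le_of_mul_le_mul_left _ hpp
    calc p * p * (4 * q * u) = 4 * p * (q * p * u) := by ring
      _ ≤ g * (2 * q * p + p) ^ 2 := h
      _ = p * p * (g * (2 * q + 1) ^ 2) := by ring
  have h2 : (2 * q + 1) ^ 2 ≤ 4 * q * (q + 2) := by nlinarith
  have h3 : 4 * q * u ≤ 4 * q * ((q + 2) * g) := by
    calc 4 * q * u ≤ g * (2 * q + 1) ^ 2 := h1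
      _ ≤ g * (4 * q * (q + 2)) := Nat.mul_le_mul_left _ h2
      _ = 4 * q * ((q + 2) * g) := by ring
  exact Nat.le_of_mul_le_mul_left h3 (by omega)

/-- Let `g = max_{r ∈ R} lam X r`, `N = |co U L s| ≥ q p ≥ 1`, `τ = 2 N ≤ |L|` (`UU_half`), and `T`
from `T_lemma`. With `V = co U L s`: `∑_{t ∈ T} lam V t ≥ 2 N N - N N = N^2` (`sum_lam_ge`), and
`lam V t ≤ lam U t = lam X t` (`lam_co_le`, `lam_UU`, `T ⊆ L`). So
`4 p N^2 ≤ 4 p ∑ lam X t ≤ g (2 N + p)^2`. From `q p ≤ N`: `q (2 N + p) ≤ (2 q + 1) N`, so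
`4 p q^2 N^2 ≤ g (2 q + 1)^2 N^2`, `4 p q^2 ≤ g (2 q + 1)^2`. As
`(q - 1)(2 q + 1)^2 = 4 q^3 - 3 q - 1 ≤ 4 q^3`, `(q-1) 4 p q^2 ≤ 4 q^3 g`, `(q - 1) p ≤ q g`. -/
theorem step_i {H : AddSubgroup G} {R : Finset G} {p q : ℕ} (hI : Iso H R p) (hp : 1 ≤ p)
    (hq : 1 ≤ q) (hne : R.Nonempty) {X : Finset G} (hX : Per H X) {s : G}
    (hbig : q * p ≤ (co (UU X (LL H R)) (LL H R) s).card) :
    ∃ r ∈ R, (q - 1) * p ≤ q * lam X r := by
  obtain ⟨r, hr, hmax⟩ := Finset.exists_max_image R (fun r => lam X r) hne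
  have hN1 : 1 ≤ (co (UU X (LL H R)) (LL H R) s).card :=
    le_trans (Nat.mul_pos hq hp) hbig
  have hN2 := UU_half (X := X) (L := LL H R) s
  obtain ⟨T, hTL, hTc, hT⟩ := T_lemma hI hp hN2
  have h1 := hT X hX (lam X r) (fun r' hr' => hmax r' hr')
  have h2 := sum_lam_ge (co (UU X (LL H R)) (LL H R) s) T
  have h3 : ∑ t ∈ T, lam (co (UU X (LL H R)) (LL H R) s) t ≤ ∑ t ∈ T, lam X t := by
    apply Finset.sum_le_sum
    intro t ht
    have htL : t ∈ LL H R := (mem_sf t).1 (hTL ht)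
    rw [← lam_UU (X := X) htL]
    exact lam_co_le htL s
  rw [hTc] at h2
  refine ⟨r, hr, step_arith1 hq hN1 hbig ?_⟩
  refine le_trans (Nat.mul_le_mul_left _ ?_) h1
  nlinarith

/-- Let `g = max_{r ∈ R} lam X r`, `τ = 2 q p ≤ |L|`, `T` from `T_lemma`. By `sum_lam_coset` with
`P = q p`: `∑_{t ∈ T} lam U t ≥ (2 q p - q p) |U| = q p |U|`. So
`4 p q p |U| ≤ g (2 q p + p)^2 = g p^2 (2 q + 1)^2`, `4 q |U| ≤ g (2 q + 1)^2 ≤ 4 q (q + 2) g`. -/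
theorem step_ii {H : AddSubgroup G} {R : Finset G} {p q : ℕ} (hI : Iso H R p) (hp : 1 ≤ p)
    (hq : 1 ≤ q) (hne : R.Nonempty) (hL : 2 * q * p ≤ (sf (LL H R)).card) {X : Finset G}
    (hX : Per H X)
    (hsm : ∀ s ∈ UU X (LL H R), (co (UU X (LL H R)) (LL H R) s).card ≤ q * p) :
    ∃ r ∈ R, (UU X (LL H R)).card ≤ (q + 2) * lam X r := by
  obtain ⟨r, hr, hmax⟩ := Finset.exists_max_image R (fun r => lam X r) hne
  obtain ⟨T, hTL, hTc, hT⟩ := T_lemma hI hp hL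
  have h1 := hT X hX (lam X r) (fun r' hr' => hmax r' hr')
  have h2 := sum_lam_coset (U := UU X (LL H R)) (T := T) (L := LL H R)
    (fun t ht => (mem_sf t).1 (hTL ht)) hsm
  have h3 : ∑ t ∈ T, lam (UU X (LL H R)) t = ∑ t ∈ T, lam X t :=
    Finset.sum_congr rfl (fun t ht => lam_UU ((mem_sf t).1 (hTL ht)))
  rw [hTc, h3] at h2
  refine ⟨r, hr, step_arith2 hp hq ?_⟩
  refine le_trans (Nat.mul_le_mul_left _ ?_) h1
  nlinarith

/-- The same with `V` in place of `X` and `U` (`sum_lam_ge`): `g = max_{r ∈ R} lam V r`,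
`∑_{t ∈ T} lam V t ≥ 2 q p |V| - |V| |V| ≥ q p |V|`. -/
theorem step_iii {H : AddSubgroup G} {R : Finset G} {p q : ℕ} (hI : Iso H R p) (hp : 1 ≤ p)
    (hq : 1 ≤ q) (hne : R.Nonempty) (hL : 2 * q * p ≤ (sf (LL H R)).card) {V : Finset G}
    (hV : Per H V) (hsm : V.card ≤ q * p) :
    ∃ r ∈ R, V.card ≤ (q + 2) * lam V r := by
  obtain ⟨r, hr, hmax⟩ := Finset.exists_max_image R (fun r => lam V r) hne
  obtain ⟨T, hTL, hTc, hT⟩ := T_lemma hI hp hL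
  have h1 := hT V hV (lam V r) (fun r' hr' => hmax r' hr')
  have h2 := sum_lam_ge V T
  rw [hTc] at h2
  have h4 : V.card * V.card ≤ q * p * V.card := Nat.mul_le_mul_right _ hsm
  refine ⟨r, hr, step_arith2 hp hq ?_⟩
  refine le_trans (Nat.mul_le_mul_left _ ?_) h1
  nlinarith

end Pool.Agent.helper43.Asy
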