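import Pool.Agent.helper43.Asy.Quad
import Pool.Agent.helper43.Asy.IsoA
import Pool.Agent.helper43.Asy.IsoB

/-! ASY-Strong: strong isoperimetry (5a of the paper proof). -/

open Finset Pool.Agent.helper43.Rho

set_option linter.unusedSectionVars false

namespace Pool.Agent.helper43.Asy

variable {G : Type*} [AddCommGroup G] [DecidableEq G] [Fintype G]

/-- Let `i = |R|`, `L = LL H R`, `C = CR H R`, and `Q` from `exists_atom_per`, so
`|Y| + |Q + C| ≤ |Y + C| + |Q|`. `R` is not contained in `Q`: otherwise `L ≤ Q` (`LL_le`), and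
`|Q + C| ≥ |Q| ≥ |L|`. If `|Q| ≥ 2 rd i`: `q_two` gives `|Q + C| ≥ 2 |Q|`, so
`|Y + C| ≥ |Y| + |Q| ≥ |Y| + 2 rd i ≥ |Y| + 2 rd (i - δ)`. If `|Q| < 2 rd i`: by `quone`,
`|R ∩ Q|^2 ≤ |B ∩ Q|^2 ≤ 400 |Q| ≤ 800 rd i ≤ δ^2`, so `|R ∩ Q| ≤ δ`, `|outs R Q| ≥ i - δ`
(`card_ins_add_outs`), and `q_out` gives `|Q + C| ≥ |Q| + 2 rd (i - δ)`. -/
theorem strong {H : AddSubgroup G} {B R : Finset G} (hB : Ap H B) (hR : R ⊆ B)
    {δ : ℕ} (hδ : 800 * rd (sf H).card R.card ≤ δ ^ 2) :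
    Iso H R (rd (sf H).card (R.card - δ)) := by
  intro Y hY hYne hYC
  obtain ⟨Q, hHQ, hQL, hQC, hle⟩ := exists_atom_per hY hYne hYC
  have hsub : sf Q ⊆ sumS (sf Q) (CR H R) := by
    intro x hx
    exact mem_sumS.2 ⟨x, hx, 0, zero_mem_CR, add_zero x⟩
  have hcard : (sf Q).card ≤ (sumS (sf Q) (CR H R)).card := card_le_card hsub
  have hRQ : ∃ r ∈ R, r ∉ Q := by
    by_contra hcon
    push Not at hcon
    have h1 : (sf (LL H R)).card ≤ (sf Q).card := card_le_card (sf_mono (LL_le hHQ hcon))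
    omega
  have hmono : rd (sf H).card (R.card - δ) ≤ rd (sf H).card R.card := rd_mono (Nat.sub_le _ _)
  rcases Nat.lt_or_ge (sf Q).card (2 * rd (sf H).card R.card) with hlt | hge
  · have h1 := quone hB hHQ
    have h2 : (ins B Q).card ^ 2 ≤ δ ^ 2 := by omega
    have h3 : (ins B Q).card ≤ δ := (Nat.pow_le_pow_iff_left (by norm_num)).1 h2
    have h4 : (ins R Q).card ≤ (ins B Q).card := by
      refine card_le_card fun x hx => ?_
      rw [mem_ins] at hx ⊢
      exact ⟨hR hx.1, hx.2⟩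
    have h5 := card_ins_add_outs R Q
    have h6 : rd (sf H).card (R.card - δ) ≤ rd (sf H).card (outs R Q).card :=
      rd_mono (by omega)
    have h7 := q_out hHQ (hB.asym.subset hR) (fun r hr => hB.two (hR hr))
    omega
  · have h1 := q_two (H := H) hRQ
    omega

end Pool.Agent.helper43.Asy
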