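import Pool.Agent.helper43.Asy.IsoC

/-! ASY-TL: the set `T` of translations (3a, 3b of the paper proof). Proofs: helper51. -/

open Finset Pool.Agent.helper43.Rho

set_option linter.unusedSectionVars false

namespace Pool.Agent.helper43.Asy

variable {G : Type*} [AddCommGroup G] [DecidableEq G] [Fintype G]

/-- Induction on `k`: `lam X` is subadditive (`lam_add`), even (`lam_neg`), `lam X 0 = 0` and
`lam X k = 0` for `k ∈ H` (`Per.lam_zero`). -/
theorem lam_DR_le {H : AddSubgroup G} {R X : Finset G} (hX : Per H X) {g : ℕ}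
    (hg : ∀ r ∈ R, lam X r ≤ g) (k : ℕ) : ∀ t ∈ DR H R k, lam X t ≤ k * g := by
  induction k with
  | zero =>
    intro t ht
    have h1 : t ∈ H := (mem_sf t).1 ht
    rw [hX.lam_zero h1]
    exact Nat.zero_le _
  | succ k ih =>
    intro t ht
    obtain ⟨x, hx, c, hc, rfl⟩ := mem_sumS.1 (show t ∈ sumS (DR H R k) (CR H R) from ht)
    obtain ⟨c', hc', k', hk', rfl⟩ := mem_CR.1 hc
    have h1 := lam_add X x (c' + k')
    have h2 := lam_add X c' k'
    have h3 := ih x hx
    have h4 : lam X k' = 0 := hX.lam_zero hk'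
    have h5 : lam X c' ≤ g := by
      unfold CC at hc'
      rw [Finset.mem_insert, Finset.mem_union, Finset.mem_image] at hc'
      rcases hc' with rfl | hr | ⟨r, hr, rfl⟩
      · rw [lam_zero]; exact Nat.zero_le _
      · exact hg _ hr
      · rw [lam_neg]; exact hg _ hr
    rw [Nat.succ_mul]
    omega

/-- Let `k` be least with `τ ≤ |DR k|` (`exists_DR_full`). If `k = 0` take `T ⊆ DR 0` with
`|T| = τ`: all terms are `0`. Otherwise `|DR (k-1)| < τ ≤ |DR k|`, take
`DR (k-1) ⊆ T ⊆ DR k`, `|T| = τ` (`Finset.exists_subsuperset_card_eq`). For `t ∈ T` let `j(t)` be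
the least index with `t ∈ DR j(t)`, `j(t) ≤ k`, so `lam X t ≤ j(t) g`, and
`∑_{t ∈ T} j(t) = ∑_{j < k} |T \ DR j| = ∑_{j < k} (τ - |DR j|)`. For `j < k`,
`|DR j| < τ ≤ |L|`, so `|DR j| ≥ h + 2 p j ≥ 2 p j`, and
`∑_{j < k} (τ - |DR j|) ≤ ∑_{j<k} (τ - 2 p j) = k τ - p k (k - 1) = k (τ + p) - p k ^ 2`, and
`4 p (k x - p k^2) ≤ x^2` for `x = τ + p`, since `(x - 2 p k)^2 ≥ 0`. -/
theorem T_lemma {H : AddSubgroup G} {R : Finset G} {p : ℕ} (hI : Iso H R p) (hp : 1 ≤ p)
    {τ : ℕ} (hτ : τ ≤ (sf (LL H R)).card) :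
    ∃ T : Finset G, T ⊆ sf (LL H R) ∧ T.card = τ ∧ ∀ X : Finset G, Per H X → ∀ g : ℕ,
      (∀ r ∈ R, lam X r ≤ g) → 4 * p * ∑ t ∈ T, lam X t ≤ g * (τ + p) ^ 2 := by
  classical
  obtain ⟨K, hK⟩ := exists_DR_full hI hp
  have hex : ∃ k, τ ≤ (DR H R k).card := ⟨K, by rw [hK]; exact hτ⟩
  obtain ⟨k, hk, hmin⟩ : ∃ k, τ ≤ (DR H R k).card ∧ ∀ j < k, (DR H R j).card < τ :=
    ⟨Nat.find hex, Nat.find_spec hex, fun j hj => not_le.1 (Nat.find_min hex hj)⟩
  cases k with
  | zero =>
    obtain ⟨T, hT, hTc⟩ := Finset.exists_subset_card_eq hk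
    refine ⟨T, hT.trans (DR_subset 0), hTc, fun X hX g hg => ?_⟩
    have h0 : ∑ t ∈ T, lam X t = 0 := by
      refine Finset.sum_eq_zero fun t ht => ?_
      have := lam_DR_le hX hg 0 t (hT ht)
      rw [zero_mul] at this
      exact Nat.le_zero.1 this
    rw [h0, mul_zero]
    exact Nat.zero_le _
  | succ k =>
    obtain ⟨T, hT1, hT2, hTc⟩ := Finset.exists_subsuperset_card_eq
      (DR_mono (H := H) (R := R) (Nat.le_succ k)) (hmin k (Nat.lt_succ_self k)).le hk
    refine ⟨T, hT2.trans (DR_subset _), hTc, fun X hX g hg => ?_⟩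
    set S : ℕ := ∑ t ∈ T, ((Finset.range (k + 1)).filter fun j => t ∉ DR H R j).card with hS
    have h1 : ∑ t ∈ T, lam X t ≤ S * g := by
      rw [hS, Finset.sum_mul]
      refine Finset.sum_le_sum fun t ht => ?_
      have htk : ∃ j, t ∈ DR H R j := ⟨k + 1, hT2 ht⟩
      have hj1 : t ∈ DR H R (Nat.find htk) := Nat.find_spec htk
      have hj2 : Nat.find htk ≤ k + 1 := Nat.find_min' htk (hT2 ht)
      refine (lam_DR_le hX hg _ t hj1).trans (Nat.mul_le_mul_right g ?_)
      have hsub : Finset.range (Nat.find htk) ⊆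
          (Finset.range (k + 1)).filter fun j => t ∉ DR H R j := by
        intro j hj
        rw [Finset.mem_range] at hj
        rw [Finset.mem_filter, Finset.mem_range]
        exact ⟨lt_of_lt_of_le hj hj2, Nat.find_min htk hj⟩
      have := Finset.card_le_card hsub
      rwa [Finset.card_range] at this
    have h2 : S = ∑ j ∈ Finset.range (k + 1), (T.filter fun t => t ∉ DR H R j).card := by
      rw [hS]
      simp only [Finset.card_filter]
      exact Finset.sum_comm
    have h3 : S + 2 * p * ∑ j ∈ Finset.range (k + 1), j ≤ (k + 1) * τ := by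
      rw [h2, Finset.mul_sum, ← Finset.sum_add_distrib]
      have h4 : ∀ j ∈ Finset.range (k + 1),
          (T.filter fun t => t ∉ DR H R j).card + 2 * p * j ≤ τ := by
        intro j hj
        rw [Finset.mem_range] at hj
        have hjT : DR H R j ⊆ T := (DR_mono (Nat.lt_succ_iff.1 hj)).trans hT1
        have h5 : (T.filter fun t => t ∉ DR H R j).card = T.card - (DR H R j).card := by
          rw [← Finset.card_sdiff_of_subset hjT]
          congr 1
          ext t
          rw [Finset.mem_filter, Finset.mem_sdiff]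
        have h6 := DR_growth hI j (lt_of_lt_of_le (hmin j hj) hτ)
        have h7 := hmin j hj
        rw [h5, hTc]
        omega
      have := Finset.sum_le_sum h4
      rwa [Finset.sum_const, Finset.card_range, smul_eq_mul] at this
    have h8 : 2 * ∑ j ∈ Finset.range (k + 1), j = (k + 1) * k := by
      have := Finset.sum_range_id_mul_two (k + 1)
      rw [mul_comm]
      simpa using this
    have h9 : S + p * ((k + 1) * k) ≤ (k + 1) * τ := by
      rw [← h8]
      have e : p * (2 * ∑ j ∈ Finset.range (k + 1), j) = 2 * p * ∑ j ∈ Finset.range (k + 1), j := by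
        ring
      rw [e]; exact h3
    have h10 : 4 * p * S ≤ (τ + p) ^ 2 := by
      have h11 : (4 * (p : ℤ)) * S ≤ ((τ : ℤ) + p) ^ 2 := by
        have h12 : (S : ℤ) + p * ((k + 1) * k) ≤ (k + 1) * τ := by exact_mod_cast h9
        have h13 : (0 : ℤ) ≤ 4 * (p : ℤ) := by positivity
        have h14 : 4 * (p : ℤ) * S ≤ 4 * p * ((k + 1) * τ - p * ((k + 1) * k)) :=
          mul_le_mul_of_nonneg_left (by linarith) h13
        nlinarith [sq_nonneg ((τ : ℤ) + p - 2 * p * (k + 1))]
      exact_mod_cast h11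
    calc 4 * p * ∑ t ∈ T, lam X t ≤ 4 * p * (S * g) := Nat.mul_le_mul_left _ h1
      _ = g * (4 * p * S) := by ring
      _ ≤ g * (τ + p) ^ 2 := Nat.mul_le_mul_left _ h10

end Pool.Agent.helper43.Asy
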