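import Pool.Agent.helper43.Asy.Defs
import Pool.Agent.helper43.Rho.Upper

/-! ASY-UpA: the construction (section 8 of the paper proof). -/

open Finset Pool.Agent.helper43.Rho

namespace Pool.Agent.helper43.Asy

private theorem UpA_div {h M x : ℕ} (hh : 0 < h) (hx : x < M) : x / h + 1 ≤ (M + h - 1) / h := by
  have h1 : x / h + 1 = (x + h) / h := (Nat.add_div_right x hh).symm
  rw [h1]
  exact Nat.div_le_div_right (by omega)

/-- `n = d h`, `A = N1 ∪ N2` (images in `ZMod (d h)`), `N1 = {d i : 1 ≤ i ≤ k}`,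
`N2 = {d (x % h) + (x / h + 1) : x < M}`. As in `Rho.construction` (read it in `Rho/Upper.lean`;
there `N2 = {d i + 1 : i < r}`): all these numbers are `< d h`: `x / h + 1 ≤ t = (M + h - 1) / h`
and `2 t < d`. They are distinct: modulo `d` the elements of `N1` are `0`, those of `N2` are
`x / h + 1 ∈ {1, ..., t}`, which determines `x / h`, then `x % h`. Asymmetric: the sum of two
elements is `≡ u + v (mod d)` with `0 ≤ u, v ≤ t`, `2 t < d`, so if it is `0` mod `d h` both are in
`N1`, and then `h ∣ i + j` with `0 < i + j ≤ 2 k < h`. Every subset sum is congruent modulo `d` to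
an integer between `0` and `S = ∑_{x < M} (x / h + 1)`: it is of the form
`d p + w` with `p < h`, `w ≤ S` modulo `d h`, so there are at most `h (1 + S)` sums. -/
theorem construction2 {d h k M : ℕ} (hd : 0 < d) (hk : 2 * k < h)
    (hM : 2 * ((M + h - 1) / h) < d) :
    ∃ A : Finset (ZMod (d * h)), A.card = k + M ∧ (∀ a ∈ A, -a ∉ A) ∧
      (SigmaStar A).card ≤ h * (1 + ∑ i ∈ Finset.range M, (i / h + 1)) := by
  classical
  have hh : 0 < h := by omega
  have hn : 0 < d * h := Nat.mul_pos hd hh
  have _ : NeZero (d * h) := ⟨by omega⟩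
  set n := d * h with hndef
  set t := (M + h - 1) / h with ht
  have hdiv : ∀ x, x < M → x / h + 1 ≤ t := fun x hx => UpA_div hh hx
  have hmod2 : ∀ x, x < M → (d * (x % h) + (x / h + 1)) % d = x / h + 1 := by
    intro x hx
    have h1 := hdiv x hx
    rw [Nat.mul_add_mod]
    exact Nat.mod_eq_of_lt (by omega)
  -- the natural numbers behind the set
  set N1 : Finset ℕ := (Finset.Icc 1 k).image (fun i => d * i) with hN1
  set N2 : Finset ℕ := (Finset.range M).image (fun x => d * (x % h) + (x / h + 1)) with hN2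
  have mem1 : ∀ x, x ∈ N1 ↔ ∃ i, 1 ≤ i ∧ i ≤ k ∧ d * i = x := by
    intro x
    simp only [hN1, Finset.mem_image, Finset.mem_Icc]
    constructor
    · rintro ⟨i, ⟨h1, h2⟩, h3⟩; exact ⟨i, h1, h2, h3⟩
    · rintro ⟨i, h1, h2, h3⟩; exact ⟨i, ⟨h1, h2⟩, h3⟩
  have mem2 : ∀ x, x ∈ N2 ↔ ∃ i, i < M ∧ d * (i % h) + (i / h + 1) = x := by
    intro x
    simp only [hN2, Finset.mem_image, Finset.mem_range]
  have m1 : ∀ x ∈ N1, x % d = 0 := by
    intro x hx
    rw [mem1] at hx
    obtain ⟨i, _, _, rfl⟩ := hx
    exact Nat.mul_mod_right d i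
  have m2 : ∀ x ∈ N2, 1 ≤ x % d ∧ x % d ≤ t := by
    intro x hx
    rw [mem2] at hx
    obtain ⟨i, hi, rfl⟩ := hx
    rw [hmod2 i hi]
    exact ⟨Nat.le_add_left 1 _, hdiv i hi⟩
  have hdisj : Disjoint N1 N2 := by
    rw [Finset.disjoint_left]
    intro x h1 h2
    have h3 := m1 x h1
    have h4 := m2 x h2
    omega
  have hc1 : N1.card = k := by
    rw [hN1, Finset.card_image_of_injective, Nat.card_Icc]
    · omega
    · intro a b hab
      exact Nat.eq_of_mul_eq_mul_left hd hab
  have hinj2 : Set.InjOn (fun x : ℕ => d * (x % h) + (x / h + 1)) (Finset.range M : Finset ℕ) := by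
    intro a ha b hb hab
    have hab' : d * (a % h) + (a / h + 1) = d * (b % h) + (b / h + 1) := hab
    have ha' : a < M := by simpa using ha
    have hb' : b < M := by simpa using hb
    have e1 := hmod2 a ha'
    have e2 := hmod2 b hb'
    rw [hab', e2] at e1
    have e3 : d * (a % h) = d * (b % h) := by omega
    have e4 := Nat.eq_of_mul_eq_mul_left hd e3
    rw [← Nat.div_add_mod a h, ← Nat.div_add_mod b h, e4]
    have e5 : a / h = b / h := by omega
    rw [e5]
  have hc2 : N2.card = M := by
    rw [hN2, Finset.card_image_of_injOn hinj2, Finset.card_range]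
  have hlt : ∀ x ∈ N1 ∪ N2, x < n := by
    intro x hx
    rw [Finset.mem_union, mem1, mem2] at hx
    rcases hx with ⟨i, _, hi, rfl⟩ | ⟨i, hi, rfl⟩
    · exact Nat.mul_lt_mul_of_pos_left (by omega) hd
    · have h0 := Nat.mod_lt i hh
      have h1 : d * (i % h + 1) ≤ d * h := Nat.mul_le_mul_left _ (by omega)
      have h2 : d * (i % h + 1) = d * (i % h) + d := by ring
      have h3 := hdiv i hi
      omega
  have hinj : Set.InjOn (fun x : ℕ => (x : ZMod n)) (N1 ∪ N2 : Finset ℕ) := by
    intro a ha b hb hab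
    have hab' : (a : ZMod n) = (b : ZMod n) := hab
    rw [ZMod.natCast_eq_natCast_iff'] at hab'
    rwa [Nat.mod_eq_of_lt (hlt a ha), Nat.mod_eq_of_lt (hlt b hb)] at hab'
  set A : Finset (ZMod n) := (N1 ∪ N2).image (fun x : ℕ => (x : ZMod n)) with hA
  refine ⟨A, ?_, ?_, ?_⟩
  · rw [hA, Finset.card_image_of_injOn hinj, Finset.card_union_of_disjoint hdisj, hc1, hc2]
  · intro a ha hna
    rw [hA, Finset.mem_image] at ha hna
    obtain ⟨x, hx, rfl⟩ := ha
    obtain ⟨y, hy, hxy⟩ := hna
    have h1 : ((x + y : ℕ) : ZMod n) = 0 := by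
      push_cast
      rw [hxy]
      ring
    rw [ZMod.natCast_eq_zero_iff] at h1
    have hdn : d ∣ x + y := (Dvd.intro _ rfl : d ∣ d * h).trans h1
    have hdm : (x % d + y % d) % d = 0 := by
      rw [← Nat.add_mod]
      exact Nat.mod_eq_zero_of_dvd hdn
    have key : x % d + y % d < d → x % d + y % d = 0 := by
      intro hl
      rw [Nat.mod_eq_of_lt hl] at hdm
      exact hdm
    rw [Finset.mem_union] at hx hy
    rcases hx with hx | hx
    · rcases hy with hy | hy
      · rw [mem1] at hx hy
        obtain ⟨i, hi1, hi, rfl⟩ := hx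
        obtain ⟨j, hj1, hj, rfl⟩ := hy
        rw [← mul_add, hndef] at h1
        have h2 : h ∣ i + j := Nat.dvd_of_mul_dvd_mul_left hd h1
        have h3 := Nat.le_of_dvd (by omega) h2
        omega
      · have h3 := m1 x hx
        have h4 := m2 y hy
        have h5 := key (by omega)
        omega
    · rcases hy with hy | hy
      · have h3 := m2 x hx
        have h4 := m1 y hy
        have h5 := key (by omega)
        omega
      · have h3 := m2 x hx
        have h4 := m2 y hy
        have h5 := key (by omega)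
        omega
  · -- counting the sums
    set S := ∑ i ∈ Finset.range M, (i / h + 1) with hS
    have hSN : ∑ x ∈ N1 ∪ N2, x % d = S := by
      rw [Finset.sum_union hdisj, Finset.sum_eq_zero m1, zero_add, hN2,
        Finset.sum_image hinj2, hS]
      refine Finset.sum_congr rfl fun i hi => ?_
      exact hmod2 i (Finset.mem_range.1 hi)
    have hsub : SigmaStar A ⊆ (Finset.range h ×ˢ Finset.range (S + 1)).image
        (fun p : ℕ × ℕ => ((d * p.1 + p.2 : ℕ) : ZMod n)) := by
      intro x hx
      rw [mem_SigmaStar] at hx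
      obtain ⟨B, hB, _, rfl⟩ := hx
      set B' : Finset ℕ := (N1 ∪ N2).filter (fun x : ℕ => (x : ZMod n) ∈ B) with hB'
      have hB'sub : B' ⊆ N1 ∪ N2 := Finset.filter_subset _ _
      have hBB : B = B'.image (fun x : ℕ => (x : ZMod n)) := by
        ext b
        constructor
        · intro hb
          have h1 := hB hb
          rw [hA, Finset.mem_image] at h1
          obtain ⟨y, hy, rfl⟩ := h1
          exact Finset.mem_image_of_mem _ (Finset.mem_filter.2 ⟨hy, hb⟩)
        · intro hb
          rw [Finset.mem_image] at hb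
          obtain ⟨y, hy, rfl⟩ := hb
          exact (Finset.mem_filter.1 hy).2
      have hsum : ∑ b ∈ B, b = ((∑ y ∈ B', y : ℕ) : ZMod n) := by
        rw [hBB, Finset.sum_image (fun a ha b hb hab => hinj (hB'sub ha) (hB'sub hb) hab),
          Nat.cast_sum]
      have hsplit : ∑ y ∈ B', y = d * (∑ y ∈ B', y / d) + ∑ y ∈ B', y % d := by
        rw [Finset.mul_sum, ← Finset.sum_add_distrib]
        exact Finset.sum_congr rfl fun y _ => (Nat.div_add_mod y d).symm
      have hle : ∑ y ∈ B', y % d ≤ S := by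
        rw [← hSN]
        exact Finset.sum_le_sum_of_subset hB'sub
      rw [Finset.mem_image]
      refine ⟨((∑ y ∈ B', y / d) % h, ∑ y ∈ B', y % d), ?_, ?_⟩
      · rw [Finset.mem_product, Finset.mem_range, Finset.mem_range]
        exact ⟨Nat.mod_lt _ hh, Nat.lt_succ_of_le hle⟩
      · show ((d * ((∑ y ∈ B', y / d) % h) + ∑ y ∈ B', y % d : ℕ) : ZMod n) = _
        rw [hsum, hsplit, ZMod.natCast_eq_natCast_iff]
        apply Nat.ModEq.add_right
        have hmod : ∀ s : ℕ, d * (s % h) ≡ d * s [MOD d * h] :=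
          fun s => Nat.ModEq.mul_left' d (Nat.mod_modEq _ _)
        exact hmod _
    refine (Finset.card_le_card hsub).trans (Finset.card_image_le.trans ?_)
    rw [Finset.card_product, Finset.card_range, Finset.card_range]
    apply le_of_eq
    ring

end Pool.Agent.helper43.Asy
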