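import Pool.Agent.helper43.Asy.UpA

/-! ASY-UpB: the upper bound (section 8 of the paper proof). -/

open Finset Pool.Agent.helper43.Rho

namespace Pool.Agent.helper43.Asy

private theorem upB_sum (t : ℕ) : 2 * t ≤ 1 + ∑ u ∈ Finset.range t, (u + 1) := by
  induction t with
  | zero => simp
  | succ t ih =>
    rw [Finset.sum_range_succ]
    rcases Nat.eq_zero_or_pos t with h | h
    · subst h; simp
    · omega

/-- With `t = (M + h - 1) / h`: `2 t ≤ 1 + ∑_{i < M} (i / h + 1) + ...`: precisely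
`2 t ≤ 1 + S`. If `M = 0` then `t = 0`. Otherwise `M ≥ h (t - 1) + 1`, so
`S ≥ ∑_{u=1}^{t-1} h u + t ≥ 1 + 2 + ... + t` and `2 S ≥ t (t + 1)`; `(t-1)(t-2) ≥ 0` gives
`4 t ≤ t^2 + t + 2`. (A simple way: the terms with `i = h u`, `u < t`, are different indices
`< M` with value `u + 1`.) -/
theorem two_t_le {h M : ℕ} (hh : 1 ≤ h) :
    2 * ((M + h - 1) / h) ≤ 1 + ∑ i ∈ Finset.range M, (i / h + 1) := by
  set t := (M + h - 1) / h with ht
  have h1 : ∑ u ∈ Finset.range t, (u + 1) ≤ ∑ i ∈ Finset.range M, (i / h + 1) := by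
    have h2 : ∑ i ∈ (Finset.range t).image (fun u => h * u), (i / h + 1) =
        ∑ u ∈ Finset.range t, (u + 1) := by
      rw [Finset.sum_image]
      · apply Finset.sum_congr rfl
        intro u _
        rw [Nat.mul_div_cancel_left u hh]
      · intro a _ b _ hab
        exact Nat.eq_of_mul_eq_mul_left hh hab
    rw [← h2]
    apply Finset.sum_le_sum_of_subset
    intro i hi
    rw [Finset.mem_image] at hi
    obtain ⟨u, hu, rfl⟩ := hi
    rw [Finset.mem_range] at hu ⊢
    have h3 : h * t ≤ M + h - 1 := Nat.mul_div_le _ _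
    have h4 : h * (u + 1) ≤ h * t := Nat.mul_le_mul_left _ hu
    rw [Nat.mul_add, Nat.mul_one] at h4
    omega
  have h5 := upB_sum t
  omega

/-- `n = d h`, `k = (h - 1) / 2`, `M = m - k`. If `M = 0` (`m ≤ k`): `Rho.construction` with
`k := m`, `r := 0`. If `M ≥ 1` and `2 ((M + h - 1) / h) < d`: `construction2`. Otherwise
`d ≤ 1 + S` by `two_t_le`, so `n = d h ≤ h (1 + S)`, and `Rho.construction` with `d := 1`,
`h := n`, `k := m`, `r := 0` gives a set with at most `n` sums (as in `Rho.upper`). -/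
theorem upper2 {n m h : ℕ} (hm : 2 * m < n) (hh : h ∣ n) :
    ∃ A : Finset (ZMod n), A.card = m ∧ (∀ a ∈ A, -a ∉ A) ∧
      (SigmaStar A).card ≤
        h * (1 + ∑ i ∈ Finset.range (m - (h - 1) / 2), (i / h + 1)) := by
  obtain ⟨d, rfl⟩ := hh
  have hn : 0 < h * d := by omega
  have hd : 0 < d := Nat.pos_of_mul_pos_left hn
  have hh0 : 0 < h := Nat.pos_of_mul_pos_right hn
  rw [mul_comm h d]
  by_cases h1 : m ≤ (h - 1) / 2
  · obtain ⟨A, h3, h4, h5⟩ := construction (d := d) (h := h) (k := m) (r := 0) hd (by omega)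
      (by omega) (Or.inl rfl)
    refine ⟨A, by omega, h4, h5.trans ?_⟩
    apply Nat.mul_le_mul_left
    omega
  · by_cases h2 : 2 * ((m - (h - 1) / 2 + h - 1) / h) < d
    · obtain ⟨A, h3, h4, h5⟩ := construction2 (d := d) (h := h) (k := (h - 1) / 2)
        (M := m - (h - 1) / 2) hd (by omega) h2
      exact ⟨A, by omega, h4, h5⟩
    · have h6 := two_t_le (h := h) (M := m - (h - 1) / 2) hh0
      have h7 : d * h ≤ h * (1 + ∑ i ∈ Finset.range (m - (h - 1) / 2), (i / h + 1)) := by
        rw [mul_comm d h]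
        apply Nat.mul_le_mul_left
        omega
      have := construction (d := 1) (h := d * h) (k := m) (r := 0) one_pos
        (by rw [mul_comm d h]; exact hm) (by omega) (Or.inl rfl)
      rw [one_mul] at this
      obtain ⟨A, h3, h4, h5⟩ := this
      exact ⟨A, by omega, h4, h5.trans (by omega)⟩

end Pool.Agent.helper43.Asy
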