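import Pool.Agent.helper43.Asy.ApA
import Pool.Agent.helper43.Asy.Step

/-! ASY-Weak: the weak step and the quadratic run (3f, 4a of the paper proof). -/

open Finset Pool.Agent.helper43.Rho

set_option linter.unusedSectionVars false

namespace Pool.Agent.helper43.Asy

variable {G : Type*} [AddCommGroup G] [DecidableEq G] [Fintype G]

/-- `q = 2`. As `2 |co X L s| ≤ 2 |X| ≤ |L|`, `UU X L = X` (`UU_eq`). If some `s ∈ X` has
`|co X L s| ≥ 2 p`, `step_i` gives `p ≤ 2 lam X r`, so `2 p ≤ 4 lam X r`. Otherwise `step_ii` gives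
`|X| ≤ 4 lam X r`. -/
theorem weak_step {H : AddSubgroup G} {R : Finset G} {p : ℕ} (hI : Iso H R p) (hp : 1 ≤ p)
    (hne : R.Nonempty) (hL : 4 * p ≤ (sf (LL H R)).card) {X : Finset G} (hX : Per H X)
    (hhalf : 2 * X.card ≤ (sf (LL H R)).card) :
    ∃ r ∈ R, min (2 * p) X.card ≤ 4 * lam X r := by
  have hco : ∀ s, (co X (LL H R) s).card ≤ X.card := fun s =>
    card_le_card fun z hz => (mem_co.1 hz).1
  have hU : UU X (LL H R) = X := UU_eq fun s _ => by
    have := hco s
    omega
  by_cases hs : ∃ s ∈ X, 2 * p ≤ (co X (LL H R) s).card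
  · obtain ⟨s, _, hs2⟩ := hs
    obtain ⟨r, hr, h⟩ := step_i (q := 2) hI hp (by norm_num) hne hX (s := s) (by rwa [hU])
    refine ⟨r, hr, (min_le_left _ _).trans ?_⟩
    omega
  · push Not at hs
    obtain ⟨r, hr, h⟩ := step_ii (q := 2) hI hp (by norm_num) hne (by omega) hX (by
      rw [hU]
      exact fun s hs' => (hs s hs').le)
    rw [hU] at h
    exact ⟨r, hr, (min_le_right _ _).trans h⟩

/-- Prove by induction on `k ≤ a`: there is `E ⊆ R0` with `|E| ≤ k` and (`N < |XX E|` or
(`|E| = k` and `k (k + 1) + 8 ≤ 8 |XX E|`)). Step: `|E| = k < a` and `|XX E| ≤ N`; let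
`R = R0 \ E`, `|R| = |R0| - k > |R0| - a`, nonempty. `2 |XX E| ≤ 2 N ≤ |L_R|`. `weak_step` gives
`r ∈ R` with `4 lam (XX E) r ≥ min (2 p) |XX E| ≥ k + 1`, because `|XX E| ≥ h (k + 1) ≥ k + 1`
(`Ap.card_ge` for `hB.subset`) and `2 p ≥ a ≥ k + 1`. So
`8 |XX (insert r E)| = 8 |XX E| + 8 lam ≥ k (k+1) + 8 + 2 (k + 1) = (k+1)(k+2) + 8`. -/
theorem run {H : AddSubgroup G} {B R0 : Finset G} (hB : Ap H B) (hR0 : R0 ⊆ B) {a p N : ℕ}
    (hp : 1 ≤ p) (ha : a ≤ 2 * p) (haR : a ≤ R0.card)
    (hall : ∀ R : Finset G, R ⊆ R0 → R0.card < R.card + a →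
      2 * N ≤ (sf (LL H R)).card ∧ 4 * p ≤ (sf (LL H R)).card ∧ Iso H R p) :
    ∃ E : Finset G, E ⊆ R0 ∧ E.card ≤ a ∧
      (N < (XX H E).card ∨ a * (a + 1) + 8 ≤ 8 * (XX H E).card) := by
  have key : ∀ k, k ≤ a → ∃ E : Finset G, E ⊆ R0 ∧ E.card ≤ k ∧
      (N < (XX H E).card ∨ (E.card = k ∧ k * (k + 1) + 8 ≤ 8 * (XX H E).card)) := by
    intro k
    induction k with
    | zero =>
      intro _
      refine ⟨∅, empty_subset _, le_of_eq card_empty, Or.inr ⟨card_empty, ?_⟩⟩
      have h1 := sf_card_pos H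
      rw [XX_empty]
      omega
    | succ k ih =>
      intro hk
      obtain ⟨E, hE, hEk, h⟩ := ih (by omega)
      rcases h with h | ⟨hEc, h⟩
      · exact ⟨E, hE, by omega, Or.inl h⟩
      · by_cases hN : N < (XX H E).card
        · exact ⟨E, hE, by omega, Or.inl hN⟩
        · have hRc : (R0 \ E).card + k = R0.card := by
            rw [card_sdiff_of_subset hE, hEc]
            have := card_le_card hE
            omega
          have hRne : (R0 \ E).Nonempty := by
            rw [← card_pos]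
            omega
          obtain ⟨hL1, hL2, hI⟩ := hall (R0 \ E) sdiff_subset (by omega)
          obtain ⟨r, hr, hlam⟩ := weak_step hI hp hRne hL2 (per_XX H E) (by omega)
          have hcard := (hB.subset (hE.trans hR0)).card_ge
          have hpos := sf_card_pos H
          have h1 : k + 1 ≤ (XX H E).card := by
            rw [hEc] at hcard
            nlinarith
          have h2 : k + 1 ≤ 4 * lam (XX H E) r := by
            refine le_trans (le_min ?_ h1) hlam
            omega
          rw [mem_sdiff] at hr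
          refine ⟨insert r E, insert_subset hr.1 hE, ?_, Or.inr ⟨?_, ?_⟩⟩
          · rw [card_insert_of_notMem hr.2]
            omega
          · rw [card_insert_of_notMem hr.2, hEc]
          · rw [card_XX_insert hr.2]
            nlinarith
  obtain ⟨E, hE, hEa, h⟩ := key a le_rfl
  exact ⟨E, hE, hEa, h.imp id fun h => h.2⟩

end Pool.Agent.helper43.Asy
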